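import Pool.Agent.Run7.h877.MT.Tens

/-!
# Alternating forms in coordinates
-/

set_option autoImplicit false
set_option linter.unusedSectionVars false

namespace Run7.h877.TS

open Matrix Module
open Run7.h877.MT

variable {ι : Type} [Fintype ι] [DecidableEq ι] {K : Type} [Field K] {n : ℕ}

/-- The sign as an element of the field. -/
def sg (K : Type) [Field K] {n : ℕ} (σ : Equiv.Perm (Fin n)) : K := ((Equiv.Perm.sign σ : ℤ) : K)

lemma sg_mul (σ τ : Equiv.Perm (Fin n)) : sg K (σ * τ) = sg K σ * sg K τ := by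
  rw [sg, sg, sg, Equiv.Perm.sign_mul]
  push_cast
  ring

lemma sg_inv (σ : Equiv.Perm (Fin n)) : sg K σ⁻¹ = sg K σ := by
  rw [sg, sg, Equiv.Perm.sign_inv]

lemma sg_sq (σ : Equiv.Perm (Fin n)) : sg K σ * sg K σ = 1 := by
  rw [sg]
  rcases Int.units_eq_one_or (Equiv.Perm.sign σ) with h | h
  · rw [h]; simp
  · rw [h]; simp

/-- The form is alternating. -/
def IsAlt (a : (Fin n → ι) → K) : Prop := ∀ (σ : Equiv.Perm (Fin n)) i, a (i ∘ σ) = sg K σ * a i

/-- the submodule of alternating forms -/
def altS (ι : Type) [Fintype ι] [DecidableEq ι] (K : Type) [Field K] (n : ℕ) :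
    Submodule K ((Fin n → ι) → K) where
  carrier := {a | IsAlt a}
  add_mem' := by
    intro a b ha hb σ i
    rw [Pi.add_apply, Pi.add_apply, ha, hb, mul_add]
  zero_mem' := by
    intro σ i
    rw [Pi.zero_apply, Pi.zero_apply, mul_zero]
  smul_mem' := by
    intro c a ha σ i
    rw [Pi.smul_apply, Pi.smul_apply, ha, smul_eq_mul, smul_eq_mul]
    ring

lemma mem_altS {a : (Fin n → ι) → K} : a ∈ altS ι K n ↔ IsAlt a := Iff.rfl

/-- the antisymmetrizer -/
def As (ι : Type) [Fintype ι] [DecidableEq ι] (K : Type) [Field K] (n : ℕ) :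
    Matrix (Fin n → ι) (Fin n → ι) K :=
  fun i u => ∑ σ : Equiv.Perm (Fin n), if u = i ∘ σ then sg K σ else 0

lemma As_mulVec (a : (Fin n → ι) → K) (i : Fin n → ι) :
    (As ι K n *ᵥ a) i = ∑ σ : Equiv.Perm (Fin n), sg K σ * a (i ∘ σ) := by
  rw [Matrix.mulVec, dotProduct]
  simp only [As, Finset.sum_mul]
  rw [Finset.sum_comm]
  refine Finset.sum_congr rfl fun σ _ => ?_
  rw [Finset.sum_eq_single (i ∘ σ)]
  · rw [if_pos rfl]
  · intro u _ hu
    rw [if_neg hu, zero_mul]
  · intro h
    exact absurd (Finset.mem_univ _) h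

lemma As_alt (a : (Fin n → ι) → K) : IsAlt (As ι K n *ᵥ a) := by
  intro τ i
  rw [As_mulVec, As_mulVec, Finset.mul_sum]
  refine Fintype.sum_equiv (Equiv.mulLeft τ) _ _ fun σ => ?_
  rw [Equiv.coe_mulLeft, sg_mul, ← mul_assoc, ← mul_assoc, sg_sq, one_mul]
  rfl

lemma As_of_alt {a : (Fin n → ι) → K} (h : IsAlt a) :
    As ι K n *ᵥ a = ((Nat.factorial n : ℕ) : K) • a := by
  funext i
  rw [As_mulVec, Pi.smul_apply, smul_eq_mul]
  have h1 : ∀ σ : Equiv.Perm (Fin n), sg K σ * a (i ∘ σ) = a i := by
    intro σ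
    rw [h σ i, ← mul_assoc, sg_sq, one_mul]
  rw [Finset.sum_congr rfl fun σ _ => h1 σ, Finset.sum_const, Finset.card_univ,
    Fintype.card_perm, Fintype.card_fin, nsmul_eq_mul]

lemma update_comp (i : Fin n → ι) (σ : Equiv.Perm (Fin n)) (j : Fin n) (k : ι) :
    Function.update i j k ∘ σ = Function.update (i ∘ σ) (σ⁻¹ j) k := by
  funext s
  by_cases h : σ s = j
  · subst h
    rw [Function.comp_apply, Function.update_self]
    have : σ⁻¹ (σ s) = s := Equiv.symm_apply_apply σ s
    rw [this, Function.update_self]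
  · rw [Function.comp_apply, Function.update_of_ne h, Function.update_of_ne, Function.comp_apply]
    intro h'
    apply h
    rw [h']
    exact Equiv.apply_symm_apply σ j

lemma dv_comp (Y : Matrix ι ι K) (a : (Fin n → ι) → K) (σ : Equiv.Perm (Fin n)) (i : Fin n → ι) :
    dv Y a (i ∘ σ) = dv Y (fun i => a (i ∘ σ)) i := by
  rw [dv, dv]
  refine Fintype.sum_equiv σ _ _ fun j => ?_
  refine Finset.sum_congr rfl fun k _ => ?_
  rw [update_comp]
  have : σ⁻¹ (σ j) = j := Equiv.symm_apply_apply σ j
  rw [this]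
  rfl

lemma ga_comp (g : Matrix ι ι K) (a : (Fin n → ι) → K) (σ : Equiv.Perm (Fin n)) (i : Fin n → ι) :
    ga g a (i ∘ σ) = ga g (fun i => a (i ∘ σ)) i := by
  rw [ga, ga]
  refine Fintype.sum_equiv (Equiv.arrowCongr σ (Equiv.refl ι)) _ _ fun u => ?_
  have h1 : (Equiv.arrowCongr σ (Equiv.refl ι)) u = u ∘ σ.symm := rfl
  rw [h1]
  congr 1
  · congr 1
    funext s
    rw [Function.comp_apply, Function.comp_apply, Equiv.symm_apply_apply]
  · refine Fintype.prod_equiv σ _ _ fun j => ?_
    rw [Function.comp_apply, Function.comp_apply, Equiv.symm_apply_apply]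

lemma IsAlt.dv {a : (Fin n → ι) → K} (h : IsAlt a) (Y : Matrix ι ι K) : IsAlt (dv Y a) := by
  intro σ i
  rw [dv_comp]
  have h1 : (fun i => a (i ∘ σ)) = sg K σ • a := funext fun i => h σ i
  rw [h1, dv_smul', Pi.smul_apply, smul_eq_mul]

lemma IsAlt.ga {a : (Fin n → ι) → K} (h : IsAlt a) (g : Matrix ι ι K) :
    IsAlt (ga g a) := by
  intro σ i
  rw [ga_comp]
  have h1 : (fun i => a (i ∘ σ)) = sg K σ • a := funext fun i => h σ i
  rw [h1, ← tm_mulVec, Matrix.mulVec_smul, tm_mulVec, Pi.smul_apply, smul_eq_mul]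

lemma As_mulVec' (a : (Fin n → ι) → K) :
    As ι K n *ᵥ a = ∑ σ : Equiv.Perm (Fin n), sg K σ • fun i => a (i ∘ σ) := by
  funext i
  rw [As_mulVec, Finset.sum_apply]
  rfl

lemma matrix_ext_vec {m : Type} [Fintype m] [DecidableEq m] {A B : Matrix m m K}
    (h : ∀ a : m → K, A *ᵥ a = B *ᵥ a) : A = B :=
  Matrix.toLin'.injective (LinearMap.ext fun a => by
    rw [Matrix.toLin'_apply, Matrix.toLin'_apply, h])

lemma As_dm (Y : Matrix ι ι K) : As ι K n * dm n Y = dm n Y * As ι K n := by
  refine matrix_ext_vec fun a => ?_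
  rw [← Matrix.mulVec_mulVec, ← Matrix.mulVec_mulVec, dm_mulVec, dm_mulVec, As_mulVec',
    As_mulVec']
  have h1 : dvR Y (∑ σ : Equiv.Perm (Fin n), sg K σ • fun i => a (i ∘ σ)) =
      ∑ σ : Equiv.Perm (Fin n), sg K σ • fun i => dv Y a (i ∘ σ) := by
    rw [map_sum]
    refine Finset.sum_congr rfl fun σ _ => ?_
    rw [map_smul]
    congr 1
    funext i
    exact (dv_comp Y a σ i).symm
  exact h1.symm

lemma As_tm (g : Matrix ι ι K) : As ι K n * tm n g = tm n g * As ι K n := by
  refine matrix_ext_vec fun a => ?_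
  rw [← Matrix.mulVec_mulVec, ← Matrix.mulVec_mulVec, tm_mulVec, As_mulVec', As_mulVec',
    Matrix.mulVec_sum]
  refine Finset.sum_congr rfl fun σ _ => ?_
  rw [Matrix.mulVec_smul, tm_mulVec]
  congr 1
  funext i
  exact ga_comp g a σ i

lemma As_sq : As ι K n * As ι K n = ((Nat.factorial n : ℕ) : K) • As ι K n := by
  refine matrix_ext_vec fun a => ?_
  rw [← Matrix.mulVec_mulVec, As_of_alt (As_alt a), Matrix.smul_mulVec]

/-- **Independence of the monomials.** -/
theorem alt_indep [CharZero K] (hcard : Fintype.card ι = 2 * n)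
    {ω : (Fin n → ι) → (Fin n → ι) → K} (h0 : ∀ u w, (∃ s t, u s = w t) → ω u w = 0)
    (h0' : ∀ u w, ¬ Function.Injective u → ω u w = 0)
    (h1 : ∀ u w (σ : Equiv.Perm (Fin n)), ω (u ∘ σ) w = sg K σ * ω u w)
    (h2 : ∀ u w, Function.Injective u → Function.Injective w → (∀ s t, u s ≠ w t) → ω u w ≠ 0)
    {S : (Fin n → ι) → K} (hS : IsAlt S) (h : ∀ w, ∑ u, S u * ω u w = 0) : S = 0 := by
  classical
  funext u0
  rw [Pi.zero_apply]
  by_cases hinj : Function.Injective u0
  · -- the complement
    let C : Finset ι := (Finset.univ.image u0)ᶜ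
    have hC : C.card = n := by
      rw [Finset.card_compl, Finset.card_image_of_injective _ hinj, Finset.card_univ,
        Fintype.card_fin, hcard]
      omega
    let w0 : Fin n → ι := fun s => (C.equivFin.symm (Fin.cast hC.symm s) : ι)
    have hw0 : Function.Injective w0 := by
      intro s t hst
      have := C.equivFin.symm.injective (Subtype.ext hst)
      exact Fin.cast_injective _ this
    have hw1 : ∀ s, w0 s ∈ C := fun s => (C.equivFin.symm (Fin.cast hC.symm s)).2
    have hdis : ∀ s t, u0 s ≠ w0 t := by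
      intro s t hst
      have h3 := hw1 t
      rw [← hst, Finset.mem_compl] at h3
      exact h3 (Finset.mem_image_of_mem _ (Finset.mem_univ s))
    have h3 := h w0
    have h4 : ∀ u : Fin n → ι, (¬ ∃ σ : Equiv.Perm (Fin n), u = u0 ∘ σ) → S u * ω u w0 = 0 := by
      intro u hu
      by_cases hu1 : Function.Injective u
      · by_cases hu2 : ∃ s t, u s = w0 t
        · rw [h0 _ _ hu2, mul_zero]
        · exfalso
          push Not at hu2
          apply hu
          have h5 : Finset.univ.image u ⊆ Finset.univ.image u0 := by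
            intro x hx
            obtain ⟨s, -, rfl⟩ := Finset.mem_image.1 hx
            by_contra hcon
            have h6 : u s ∈ C := Finset.mem_compl.2 hcon
            let t : Fin n := Fin.cast hC (C.equivFin ⟨u s, h6⟩)
            have h7 : w0 t = u s := by
              change ((C.equivFin.symm (Fin.cast hC.symm (Fin.cast hC (C.equivFin ⟨u s, h6⟩)))
                : C) : ι) = u s
              have : Fin.cast hC.symm (Fin.cast hC (C.equivFin ⟨u s, h6⟩)) =
                  C.equivFin ⟨u s, h6⟩ := by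
                ext
                rfl
              rw [this, Equiv.symm_apply_apply]
            exact hu2 s t h7.symm
          have h8 : ∀ s, ∃ t, u0 t = u s := by
            intro s
            have := h5 (Finset.mem_image_of_mem u (Finset.mem_univ s))
            obtain ⟨t, -, ht⟩ := Finset.mem_image.1 this
            exact ⟨t, ht⟩
          choose τ hτ using h8
          have hτi : Function.Injective τ := by
            intro s t hst
            apply hu1
            rw [← hτ, ← hτ, hst]
          refine ⟨Equiv.ofBijective τ (Finite.injective_iff_bijective.1 hτi), ?_⟩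
          funext s
          exact (hτ s).symm
      · rw [h0' _ _ hu1, mul_zero]
    have h5 : ∑ u, S u * ω u w0 = ∑ σ : Equiv.Perm (Fin n), S (u0 ∘ σ) * ω (u0 ∘ σ) w0 := by
      have hi : Function.Injective fun σ : Equiv.Perm (Fin n) => u0 ∘ σ := by
        intro σ τ hst
        ext s
        exact congrArg _ (hinj (congrFun hst s))
      rw [← Finset.sum_image (s := Finset.univ) (g := fun σ : Equiv.Perm (Fin n) => u0 ∘ σ)
        (f := fun u => S u * ω u w0) fun σ _ τ _ hst => hi hst]
      symm
      refine Finset.sum_subset (Finset.subset_univ _) fun u _ hu => h4 u ?_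
      rintro ⟨σ, rfl⟩
      exact hu (Finset.mem_image_of_mem _ (Finset.mem_univ σ))
    have h6 : ∀ σ : Equiv.Perm (Fin n), S (u0 ∘ σ) * ω (u0 ∘ σ) w0 = S u0 * ω u0 w0 := by
      intro σ
      rw [hS, h1]
      have := sg_sq (K := K) σ
      linear_combination (S u0 * ω u0 w0) * this
    rw [h5, Finset.sum_congr rfl fun σ _ => h6 σ, Finset.sum_const, nsmul_eq_mul] at h3
    rcases mul_eq_zero.1 h3 with h7 | h7
    · exfalso
      have h8 : (Finset.univ : Finset (Equiv.Perm (Fin n))).card ≠ 0 := by
        rw [Finset.card_univ, Fintype.card_perm]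
        exact Nat.factorial_ne_zero _
      exact h8 (by exact_mod_cast h7)
    · exact (mul_eq_zero.1 h7).resolve_right (h2 _ _ hinj hw0 hdis)
  · obtain ⟨s, t, hst, hne⟩ : ∃ s t, u0 s = u0 t ∧ s ≠ t := by
      by_contra hcon
      push Not at hcon
      exact hinj fun s t hst => hcon s t hst
    have h3 := hS (Equiv.swap s t) u0
    have h4 : u0 ∘ Equiv.swap s t = u0 := by
      funext r
      rw [Function.comp_apply]
      by_cases hr : r = s
      · subst hr
        rw [Equiv.swap_apply_left, hst]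
      · by_cases hr' : r = t
        · subst hr'
          rw [Equiv.swap_apply_right, hst]
        · rw [Equiv.swap_apply_of_ne_of_ne hr hr']
    have h5 : sg K (Equiv.swap s t) = -1 := by
      rw [sg, Equiv.Perm.sign_swap hne]
      simp
    rw [h4, h5] at h3
    have h6 : (2 : K) * S u0 = 0 := by linear_combination h3
    exact (mul_eq_zero.1 h6).resolve_left two_ne_zero

end Run7.h877.TS
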