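import Pool.Agent.Run7.h877.MT.Tens

/-!
# Subspaces which are stable under the logarithm
-/

set_option autoImplicit false
set_option linter.unusedSectionVars false

namespace Run7.h877.TS

open Matrix Filter Topology
open Run7.h877.MT

variable {ι : Type} [Fintype ι] [DecidableEq ι] {p : ℕ} [hp : Fact p.Prime]

lemma blk_step {r s C : ℝ} (hr : 0 ≤ r) (hr1 : r ≤ 1) (hC : 0 ≤ C) (hrC : C * r < (p : ℝ)⁻¹)
    (hs : 0 ≤ s) {T P : Matrix ι ι ℚ_[p]} (hP : P * P = P) (hP1 : Bd C P) (hP2 : Bd C (1 - P))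
    (hT : Bd r (T - 1)) (h : Bd ((p : ℝ)⁻¹ * s) ((1 - P) * T ^ p * P)) :
    Bd s ((1 - P) * T * P) := by
  classical
  have hCr : C * r ≤ 1 := hrC.le.trans p_inv_lt.le
  have hCr0 : 0 ≤ C * r := mul_nonneg hC hr
  rcases isEmpty_or_nonempty ι with hι | hι
  · intro i; exact (hι.false i).elim
  obtain ⟨x, -, hx⟩ := Finset.exists_max_image (Finset.univ : Finset (ι × ι))
    (fun x => ‖((1 - P) * T * P) x.1 x.2‖) Finset.univ_nonempty
  obtain ⟨K, hK⟩ : ∃ K, K = (1 - P) * T * P := ⟨_, rfl⟩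
  rw [← hK] at hx ⊢
  have hKb : Bd ‖K x.1 x.2‖ K := fun i j => hx (i, j) (Finset.mem_univ _)
  obtain ⟨c, hc⟩ : ∃ c, c = ‖K x.1 x.2‖ := ⟨_, rfl⟩
  rw [← hc] at hKb
  have hc0 : 0 ≤ c := by rw [hc]; exact norm_nonneg _
  have hRP : (1 - P) * P = 0 := by rw [sub_mul, one_mul, hP, sub_self]
  have hRR : (1 - P) * (1 - P) = 1 - P := by
    rw [mul_sub, hRP, sub_zero, mul_one]
  have hKP : K * P = K := by rw [hK, Matrix.mul_assoc, hP]
  have hRT : Bd (C * r) ((1 - P) * (T - 1)) := hP2.mul hC hr hT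
  have key : ∀ n : ℕ, Bd (C * r * c) ((1 - P) * T ^ n * P - (n : ℚ_[p]) • K) := by
    intro n
    induction n with
    | zero =>
      rw [pow_zero, Matrix.mul_one, hRP, Nat.cast_zero, zero_smul, sub_zero]
      exact Bd.zero (mul_nonneg hCr0 hc0)
    | succ n ih =>
      obtain ⟨X, hX⟩ : ∃ X, X = (1 - P) * T ^ n * P - (n : ℚ_[p]) • K := ⟨_, rfl⟩
      rw [← hX] at ih
      have hS : (1 - P) * T ^ n * P = X + (n : ℚ_[p]) • K := by rw [hX]; abel
      have h1 : (1 - P) * T ^ (n + 1) * P - ((n + 1 : ℕ) : ℚ_[p]) • K =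
          X + (1 - P) * (T - 1) * X + (1 - P) * (T - 1) * ((n : ℚ_[p]) • K) +
            K * (T ^ n - 1) * P := by
        have e1 : (1 - P) * T ^ (n + 1) * P =
            (1 - P) * T * ((1 - P) * T ^ n * P) + K * T ^ n * P := by
          rw [hK, pow_succ']
          have e2 : (1 - P) * T * P * T ^ n * P = (1 - P) * T * (P * T ^ n * P) := by
            noncomm_ring
          rw [e2, ← Matrix.mul_add]
          have e3 : (1 - P) * T ^ n * P + P * T ^ n * P = T ^ n * P := by noncomm_ring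
          rw [e3]
          noncomm_ring
        have e4 : (1 - P) * ((1 - P) * T ^ n * P) = (1 - P) * T ^ n * P := by
          rw [← Matrix.mul_assoc, ← Matrix.mul_assoc, hRR]
        have e5 : (1 - P) * T * ((1 - P) * T ^ n * P) =
            (1 - P) * T ^ n * P + (1 - P) * (T - 1) * ((1 - P) * T ^ n * P) := by
          have e7 : (1 - P) * (T - 1) * ((1 - P) * T ^ n * P) =
              (1 - P) * T * ((1 - P) * T ^ n * P) - (1 - P) * ((1 - P) * T ^ n * P) := by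
            rw [Matrix.mul_sub, Matrix.mul_one, Matrix.sub_mul]
          rw [e7, e4]
          abel
        have e6 : K * T ^ n * P = K + K * (T ^ n - 1) * P := by
          have : K * (T ^ n - 1) * P = K * T ^ n * P - K * P := by noncomm_ring
          rw [this, hKP]; abel
        rw [e1, e5, e6, hS, Nat.cast_succ, add_smul, one_smul, Matrix.mul_add]
        abel
      rw [h1]
      have b1 : Bd (C * r * c) ((1 - P) * (T - 1) * X) := by
        refine (hRT.mul hCr0 (mul_nonneg hCr0 hc0) ih).mono ?_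
        calc C * r * (C * r * c) ≤ 1 * (C * r * c) :=
              mul_le_mul_of_nonneg_right hCr (mul_nonneg hCr0 hc0)
          _ = _ := one_mul _
      have b2 : Bd (C * r * c) ((1 - P) * (T - 1) * ((n : ℚ_[p]) • K)) :=
        hRT.mul hCr0 hc0 (hKb.natCast_smul n)
      have b3 : Bd (C * r * c) (K * (T ^ n - 1) * P) := by
        refine ((hKb.mul hc0 hr (near_pow hr hr1 hT n)).mul (mul_nonneg hc0 hr) hC hP1).mono ?_
        exact le_of_eq (by ring)
      exact ((ih.add b1).add b2).add b3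
  by_contra hcon
  have hlt : s < c := by
    by_contra hle
    exact hcon (hKb.mono (not_lt.1 hle))
  have h1 := key p x.1 x.2
  have h2 := h x.1 x.2
  have h3 : ‖((p : ℚ_[p]) • K) x.1 x.2‖ ≤ max ((p : ℝ)⁻¹ * s) (C * r * c) := by
    have e1 : ((p : ℚ_[p]) • K) x.1 x.2 = ((1 - P) * T ^ p * P) x.1 x.2 -
        ((1 - P) * T ^ p * P - (p : ℚ_[p]) • K) x.1 x.2 := by
      rw [Matrix.sub_apply]; ring
    rw [e1, sub_eq_add_neg]
    refine (IsUltrametricDist.norm_add_le_max _ _).trans (max_le_max h2 ?_)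
    rw [norm_neg]
    exact h1
  rw [Matrix.smul_apply, smul_eq_mul, norm_mul, Padic.norm_p, ← hc] at h3
  have hpi : (0 : ℝ) < (p : ℝ)⁻¹ := inv_pos.2 p_pos
  rcases le_max_iff.1 h3 with h4 | h4
  · exact absurd (le_of_mul_le_mul_left h4 hpi) (not_le.2 hlt)
  · have h5 : C * r * c < (p : ℝ)⁻¹ * c := mul_lt_mul_of_pos_right hrC (hs.trans_lt hlt)
    exact absurd h4 (not_le.2 h5)

lemma blk_iter {r s C : ℝ} (hr : 0 ≤ r) (hr1 : r ≤ 1) (hC : 0 ≤ C) (hrC : C * r < (p : ℝ)⁻¹)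
    (hs : 0 ≤ s) {T P : Matrix ι ι ℚ_[p]} (hP : P * P = P) (hP1 : Bd C P) (hP2 : Bd C (1 - P))
    (hT : Bd r (T - 1)) (k : ℕ) (h : Bd (((p : ℝ)⁻¹) ^ k * s) ((1 - P) * T ^ p ^ k * P)) :
    Bd s ((1 - P) * T * P) := by
  induction k with
  | zero => rw [pow_zero, pow_zero, pow_one, one_mul] at h; exact h
  | succ k ih =>
    refine ih (blk_step hr hr1 hC hrC (mul_nonneg (by positivity) hs) hP hP1 hP2
      (near_pow hr hr1 hT _) ?_)
    rw [← pow_mul, ← pow_succ, ← mul_assoc, ← pow_succ']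
    exact h

/-- **Subspaces which are stable under a limit of the difference quotients.** -/
lemma stab_of_limit {r C : ℝ} (hr : 0 ≤ r) (hr1 : r ≤ 1) (hC : 0 ≤ C) (hrC : C * r < (p : ℝ)⁻¹)
    {T P Y : Matrix ι ι ℚ_[p]} (hP : P * P = P) (hP1 : Bd C P) (hP2 : Bd C (1 - P))
    (hT : Bd r (T - 1)) {φ : ℕ → ℕ} (hY : Tendsto (fun n => Yk T (φ n)) atTop (𝓝 Y))
    (hc : (1 - P) * Y * P = 0) : (1 - P) * T * P = 0 := by
  have hRP : (1 - P) * P = 0 := by rw [sub_mul, one_mul, hP, sub_self]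
  have h0 : ∀ s : ℝ, 0 < s → Bd s ((1 - P) * T * P) := by
    intro s hs
    have h1 : Tendsto (fun n => (1 - P) * Yk T (φ n) * P) atTop (𝓝 ((1 - P) * Y * P)) :=
      (tendsto_const_nhds.mul hY).mul tendsto_const_nhds
    rw [hc] at h1
    have h2 : ∀ᶠ n in atTop, Bd s ((1 - P) * Yk T (φ n) * P) := by
      have h3 : ∀ i j, ∀ᶠ n in atTop, ‖((1 - P) * Yk T (φ n) * P) i j‖ ≤ s := by
        intro i j
        have h4 : Tendsto (fun n => ((1 - P) * Yk T (φ n) * P) i j) atTop (𝓝 0) :=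
          (tendsto_pi_nhds.1 ((tendsto_pi_nhds.1 h1) i)) j
        have h5 := h4.norm
        rw [norm_zero] at h5
        exact (h5.eventually (gt_mem_nhds hs)).mono fun n hn => hn.le
      exact (eventually_all.2 fun i => eventually_all.2 fun j => h3 i j).mono fun n hn i j => hn i j
    obtain ⟨n, hn⟩ := h2.exists
    refine blk_iter hr hr1 hC hrC hs.le hP hP1 hP2 hT (φ n) ?_
    have h3 : (1 - P) * T ^ p ^ φ n * P = ((p : ℚ_[p]) ^ φ n) • ((1 - P) * Yk T (φ n) * P) := by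
      rw [pow_eq_Yk, mul_add, add_mul, mul_one, hRP, zero_add, Matrix.mul_smul, Matrix.smul_mul]
    intro i j
    rw [h3, Matrix.smul_apply, smul_eq_mul, norm_mul, norm_pk]
    exact mul_le_mul_of_nonneg_left (hn i j) (by positivity)
  ext i j
  by_contra hne
  have h2 := h0 (‖((1 - P) * T * P) i j‖ / 2) (half_pos (norm_pos_iff.2 hne)) i j
  have h3 := norm_pos_iff.2 hne
  linarith

/-- matrices are bounded -/
lemma exists_bd (A : Matrix ι ι ℚ_[p]) : ∃ C : ℝ, 0 ≤ C ∧ Bd C A := by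
  refine ⟨∑ i, ∑ j, ‖A i j‖, Finset.sum_nonneg fun i _ => Finset.sum_nonneg fun j _ =>
    norm_nonneg _, fun i j => ?_⟩
  have h1 : ‖A i j‖ ≤ ∑ j, ‖A i j‖ :=
    Finset.single_le_sum (f := fun j => ‖A i j‖) (fun j _ => norm_nonneg _) (Finset.mem_univ j)
  exact h1.trans (Finset.single_le_sum (f := fun i => ∑ j, ‖A i j‖)
    (fun i _ => Finset.sum_nonneg fun j _ => norm_nonneg _) (Finset.mem_univ i))

/-- the representation which sees smaller neighbourhoods -/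
noncomputable def rep2 {Γ : Type} [Group Γ] (ρ : Γ →* Matrix ι ι ℚ_[p]) (k : ℕ) :
    Γ →* Matrix (ι ⊕ ι) (ι ⊕ ι) ℚ_[p] where
  toFun g := Matrix.fromBlocks (ρ g) (((p : ℚ_[p]) ^ k)⁻¹ • (1 - ρ g)) 0 1
  map_one' := by rw [map_one, sub_self, smul_zero, Matrix.fromBlocks_one]
  map_mul' g h := by
    rw [Matrix.fromBlocks_multiply, map_mul]
    simp only [Matrix.mul_zero, add_zero, Matrix.mul_one, Matrix.zero_mul, zero_add]
    congr 1
    rw [Matrix.mul_smul, ← smul_add]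
    congr 1
    noncomm_ring

variable {Γ : Type} [Group Γ] [TopologicalSpace Γ] [IsTopologicalGroup Γ] [CompactSpace Γ]

/-- small neighbourhoods -/
lemma exists_near (ρ : Γ →* Matrix ι ι ℚ_[p]) (hρ : Continuous ρ) (ν : Γ →* ℚ_[p])
    (hν : Continuous ν) {r : ℝ} (hr : 0 < r) : ∃ Δ : Subgroup Γ, Δ.FiniteIndex ∧
      Δ ≤ nearGroup ρ ν ∧ ∀ g ∈ Δ, Bd r (ρ g - 1) := by
  obtain ⟨k, hk⟩ : ∃ k : ℕ, ((p : ℝ)⁻¹) ^ k < r :=
    exists_pow_lt_of_lt_one hr p_inv_lt
  have hc : Continuous (rep2 ρ k) := by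
    have h2 : Continuous fun g => (1 : Matrix ι ι ℚ_[p]) - ρ g := continuous_const.sub hρ
    have h3 : Continuous fun g => ((p : ℚ_[p]) ^ k)⁻¹ • ((1 : Matrix ι ι ℚ_[p]) - ρ g) := by
      refine continuous_matrix fun i j => ?_
      have h4 : Continuous fun g => ((1 : Matrix ι ι ℚ_[p]) - ρ g) i j :=
        (continuous_apply j).comp ((continuous_apply i).comp h2)
      exact continuous_const.mul h4
    have h1 : Continuous fun g => Matrix.fromBlocks (ρ g) (((p : ℚ_[p]) ^ k)⁻¹ • (1 - ρ g))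
        (0 : Matrix ι ι ℚ_[p]) 1 :=
      hρ.matrix_fromBlocks h3 continuous_const continuous_const
    exact h1
  refine ⟨nearGroup ρ ν ⊓ nearGroup (rep2 ρ k) ν, ?_, inf_le_left, fun g hg i j => ?_⟩
  · have h1 := nearGroup_finiteIndex ρ hρ ν hν
    have h2 := nearGroup_finiteIndex (rep2 ρ k) hc ν hν
    exact inferInstance
  · have h1 := hg.2.1.1 (Sum.inl i) (Sum.inr j)
    have h2 : (rep2 ρ k g - 1) (Sum.inl i) (Sum.inr j) = ((p : ℚ_[p]) ^ k)⁻¹ * (1 - ρ g) i j := by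
      rw [Matrix.sub_apply, ← Matrix.fromBlocks_one, Matrix.fromBlocks_apply₁₂]
      change (((p : ℚ_[p]) ^ k)⁻¹ • (1 - ρ g)) i j - 0 = _
      rw [sub_zero, Matrix.smul_apply, smul_eq_mul]
    rw [h2, norm_mul, norm_inv, norm_pk] at h1
    have h0 : (0 : ℝ) < ((p : ℝ)⁻¹) ^ k := pow_pos (inv_pos.2 p_pos) _
    rw [inv_mul_le_iff₀ h0] at h1
    have h3 : ‖(ρ g - 1) i j‖ = ‖(1 - ρ g) i j‖ := by
      rw [← norm_neg]
      congr 1
      rw [Matrix.sub_apply, Matrix.sub_apply]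
      ring
    rw [h3]
    have h4 : ((p : ℝ)⁻¹) ^ 2 ≤ 1 := pow_le_one₀ (inv_pos.2 p_pos).le p_inv_lt.le
    refine h1.trans (le_trans ?_ hk.le)
    calc ((p : ℝ)⁻¹) ^ k * ((p : ℝ)⁻¹) ^ 2 ≤ ((p : ℝ)⁻¹) ^ k * 1 :=
          mul_le_mul_of_nonneg_left h4 h0.le
      _ = _ := mul_one _

lemma ht0_of {φ : ℕ → ℕ} (hφ : StrictMono φ) :
    Tendsto (fun n => ((p : ℚ_[p]) ^ φ n)) atTop (𝓝 0) := by
  have h1 : Tendsto (fun n : ℕ => ((p : ℚ_[p]) ^ n)) atTop (𝓝 0) := by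
    refine tendsto_pow_atTop_nhds_zero_of_norm_lt_one ?_
    rw [Padic.norm_p]
    exact p_inv_lt
  exact h1.comp hφ.tendsto_atTop

/-- the limit on the forms -/
lemma tm_limit {T Y : Matrix ι ι ℚ_[p]} {φ : ℕ → ℕ} (hφ : StrictMono φ)
    (hY : Tendsto (fun n => Yk T (φ n)) atTop (𝓝 Y)) (n : ℕ) :
    Tendsto (fun s => Yk (tm n T) (φ s)) atTop (𝓝 (dm n Y)) := by
  have ht : ∀ n, ((p : ℚ_[p]) ^ φ n) ≠ 0 := fun n => pk_ne _
  refine tendsto_pi_nhds.2 fun i => tendsto_pi_nhds.2 fun u => ?_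
  have h1 : Tendsto (fun s => ((p : ℚ_[p]) ^ φ s)⁻¹ • (T ^ p ^ φ s - 1)) atTop (𝓝 Y) := hY
  have h2 := deriv_lim (Pi.single u (1 : ℚ_[p]) : (Fin n → ι) → ℚ_[p])
    (fun j => Pi.single (i j) 1) ht (ht0_of hφ) h1
  have e1 : ev (dv Y (Pi.single u (1 : ℚ_[p]))) (fun j => Pi.single (i j) 1) = dm n Y i u :=
    ev_single _ _
  rw [sum_update_eq, e1] at h2
  refine h2.congr fun s => ?_
  rw [ev_pi_single, ev_pi_single', Yk, ← tm_pow, Matrix.smul_apply, Matrix.sub_apply, smul_eq_mul]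

end Run7.h877.TS
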