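import Pool.Agent.Run7.h877.TS.Fin4

/-!
# The centre, with l-adic coefficients
-/

set_option autoImplicit false
set_option linter.unusedSectionVars false

open CategoryTheory AlgebraicGeometry TensorProduct

universe u

namespace Run7.h877.TS

open Module Matrix
open Pool.Agent.H914 hiding ev
open Pool.Agent.H914.VarClass Pool.Agent.H914.VarClass.Obj
  Pool.Agent.H914.WeilCohomology
open Pool.Agent.Y133.Half (pw prj)
open Pool.Agent.Y121.AH hiding IsHodge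
open Pool.Agent.N996.BP (IsPHS)
open Pool.Agent.N996.BP.Geo (tauT Fx lop cc)
open Pool.Agent.N996.FP.Geo (End1 Cen1)
open Run7.h877.MT Run7.h877.TX

variable {k : Type u} [Field k] {𝒱 : VarClass k} {ops : CycleOps 𝒱}

variable {T : Pool.Agent.Y121.AH.HodgeTheory ops} {X : 𝒱.Obj} {ℓ : ℕ} [Fact ℓ.Prime]
  [Algebra T.W.K ℚ_[ℓ]] {Γ : Type} [Group Γ] [TopologicalSpace Γ] [IsTopologicalGroup Γ]
  [CompactSpace Γ] {ι : Type} [Fintype ι] [DecidableEq ι]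

/-- The Hodge classes with `ℓ`-adic coefficients. -/
def SH (T : Pool.Agent.Y121.AH.HodgeTheory ops) (X : 𝒱.Obj) (ℓ : ℕ) [Fact ℓ.Prime]
    [Algebra T.W.K ℚ_[ℓ]] (n j : ℕ) (c : (baseW T.W ℚ_[ℓ]).H (pw X n)) : Prop :=
  ∃ a, Pool.Agent.Y121.AH.IsHodge T (pw X n) j a ∧ c = em T.W ℚ_[ℓ] a

/-- The centre of the Lie algebra of the Hodge group kills the Tate classes. -/
def CCL (G : GAct T X ℓ Γ) : Prop :=
  ∀ δ : ∀ n, (baseW T.W ℚ_[ℓ]).H (pw X n) →ₗ[(baseW T.W ℚ_[ℓ]).K] (baseW T.W ℚ_[ℓ]).H (pw X n),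
    GSys (SH T X ℓ) 0 δ → (∀ δ' : ∀ n, (baseW T.W ℚ_[ℓ]).H (pw X n) →ₗ[(baseW T.W ℚ_[ℓ]).K]
      (baseW T.W ℚ_[ℓ]).H (pw X n), GSys (SH T X ℓ) 0 δ' →
      ∀ a : (baseW T.W ℚ_[ℓ]).H X, a ∈ (baseW T.W ℚ_[ℓ]).gr X 1 → δ 0 (δ' 0 a) = δ' 0 (δ 0 a)) →
    ∀ n j c, G.IsT n j c → δ n c = 0

variable (G : GAct T X ℓ Γ)

section Main

variable {e f x : ι → T.W.H X} {D : X.Cycles} {ψ : LinearMap.BilinForm T.W.K (T.W.H X)} {d : ℕ}
  (hP : IsPHS (tauT T) (Fx T X) ψ d)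
  (hf : ∀ a b, T.W.tr X (e a * f b) = if a = b then 1 else 0)
  (he1 : ∀ a, e a ∈ T.W.gr X 1) (hspan : ∀ z ∈ T.W.gr X 1, ∃ v, vec e v = z)
  (hG : G.HT) (hnt : ∀ n, Nontrivial (T.W.H (pw X n)))
  (h0 : 0 < X.dim) (hD : X.IsCyc 1 D)
  (hd : IsDual T.W X x (fun a => lam T.W X D (e a)) (2 * (X.dim - 1) + 1))
  (hxs : ∀ z ∈ T.W.gr X 1, ∃ v, vec x v = z)

include hG hnt h0 hD hd hxs in
/-- **Central matrices which kill the Hodge forms kill the Tate forms.** -/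
lemma kills_tateL (hC : CCL G)
    (hgen : Algebra.adjoin T.W.K (T.W.gr X 1 : Set (T.W.H X)) = ⊤)
    {z : Matrix ι ι ℚ} (hz : IsHodge (HS hP hf he1 hspan) 1 (bil (psiM T ψ e) z))
    (hk : KH' hP hf he1 hspan z) {n m : ℕ} (hm : n + 1 = 2 * m)
    {t : (Fin (n + 1) → ι) → ℚ_[ℓ]} {Δ : Subgroup Γ} (hΔ : Δ.FiniteIndex)
    (ht : ∀ g ∈ Δ, ∀ v : Fin (n + 1) → ι → ℚ_[ℓ],
      ev t (fun s => G.mat e f g *ᵥ v s) = G.χ g ^ m * ev t v) :
    MT.Kills (cM ℚ_[ℓ] z) t := by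
  obtain ⟨δ, h1, h2, h3, h4, h5⟩ := exists_sys hP hf he1 hspan hk hgen
  let F : ∀ n, DOp T.W X n := fun n => ⟨δ 0, δ n, h1 n, h2 n, h3 n⟩
  let F0 : DOp T.W X 0 := F 0
  have h10 : ∀ v, ((F 0).base ℚ_[ℓ]).φ (vecL ℓ e v) = vecL ℓ e (cM ℚ_[ℓ] z *ᵥ v) := fun v =>
    baseChange_vecF (L := ℚ_[ℓ]) h5 v
  have hsys : GSys (SH T X ℓ) 0 fun n => ((F n).base ℚ_[ℓ]).φ :=
    { deg := by
        intro a ha
        obtain ⟨v, rfl⟩ := span_base (L := ℚ_[ℓ]) hspan a ha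
        have h6 : vecL ℓ e (cM ℚ_[ℓ] z *ᵥ v) ∈ (baseW T.W ℚ_[ℓ]).gr X 1 :=
          vec_mem (W := baseW T.W ℚ_[ℓ]) (fun a => em_gr (he1 a)) _
        exact (h10 v).symm ▸ h6
      mul := fun n => ((F n).base ℚ_[ℓ]).mul
      comp := fun n => ((F n).base ℚ_[ℓ]).comp
      tate := by
        rintro n j _ ⟨a, ha, rfl⟩
        have h6 := (F n).base_em ℚ_[ℓ] a
        have h7 : (F n).φ a = 0 := h4 n j a ha
        rw [h7, em_zero] at h6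
        rw [h6]
        have h8 : (show (baseW T.W ℚ_[ℓ]).K from (0 : ℚ_[ℓ]) * (j : ℚ_[ℓ])) = 0 := zero_mul _
        rw [h8, zero_smul] }
  have h6 := hC _ hsys (by
    intro δ' hδ' a ha
    obtain ⟨M, hM, hMk⟩ := exists_M he1 hspan hnt h0 hD hd hδ'
      (fun n j a ha => ⟨a, ha, rfl⟩) hgen
    obtain ⟨v, rfl⟩ := span_base (L := ℚ_[ℓ]) hspan a ha
    let A : ∀ n : ℕ, Set ((Fin n → ι) → ℚ) := fun n => {a | ∀ m : ℕ, 2 * m = n * 1 →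
      IsHodge (HS hP hf he1 hspan) m a}
    have hMK : M ∈ KF ℚ_[ℓ] 1 A := by
      intro n m hm a ha
      rcases n with _ | n
      · intro v
        exact Finset.sum_eq_zero fun s _ => s.elim0
      have hnm : n + 1 = 2 * m := by omega
      have h6 := hMk n m (cst ℚ_[ℓ] a) hnm ⟨clsQ T x n a,
        isHodge_clsQ hP hf he1 hspan hD hd hxs hnm (ha m hm), (em_clsQ x a).symm⟩
      rwa [zero_div, zero_smul, sub_zero] at h6
    have hβA : bil (HS hP hf he1 hspan).β 1 ∈ A 2 := by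
      intro m hm
      have h1 : m = 1 := by omega
      subst h1
      exact beta_hodge (HS hP hf he1 hspan)
    have hzA : bil (cM ℚ_[ℓ] (HS hP hf he1 hspan).β) (cM ℚ_[ℓ] z) ∈
        Submodule.span ℚ_[ℓ] (cst ℚ_[ℓ] '' (A 2)) := by
      rw [← cst_bil]
      refine Submodule.subset_span ⟨_, ?_, rfl⟩
      intro m hm
      have h1 : m = 1 := by omega
      subst h1
      exact hz
    have h7 := comm_of_span' (H := HS hP hf he1 hspan) hβA hMK hzA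
    have h8 : δ' 0 (vecL ℓ e v) = vecL ℓ e (M *ᵥ v) := hM v
    have h9 : ((F 0).base ℚ_[ℓ]).φ (δ' 0 (vecL ℓ e v)) = vecL ℓ e (cM ℚ_[ℓ] z *ᵥ (M *ᵥ v)) := by
      rw [h8]; exact h10 _
    have h11 : δ' 0 (((F 0).base ℚ_[ℓ]).φ (vecL ℓ e v)) = vecL ℓ e (M *ᵥ (cM ℚ_[ℓ] z *ᵥ v)) := by
      rw [h10]; exact hM _
    refine h9.trans (Eq.trans ?_ h11.symm)
    rw [Matrix.mulVec_mulVec, Matrix.mulVec_mulVec, h7]) n m _
    (G.cls_tate hf he1 hspan hG (hnt n) h0 hD hd hxs hm hΔ ht)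
  have hL : (F0.base ℚ_[ℓ]).φ0 ((baseW T.W ℚ_[ℓ]).cl X D) = 0 := by
    have h7 : (F0.base ℚ_[ℓ]).φ0 (em T.W ℚ_[ℓ] (T.W.cl X D)) = em T.W ℚ_[ℓ] (δ 0 (T.W.cl X D)) :=
      F0.base_em0 ℚ_[ℓ] (T.W.cl X D)
    have h8 : δ 0 (T.W.cl X D) = 0 := h4 0 1 _ (IsHodge.cl hD)
    rw [h8, em_zero] at h7
    exact h7
  have hy : ∀ v, ((F n).base ℚ_[ℓ]).φ0 (vec (W := baseW T.W ℚ_[ℓ])
      (fun a => em T.W ℚ_[ℓ] (lam T.W X D (e a))) v) = vec (W := baseW T.W ℚ_[ℓ])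
      (fun a => em T.W ℚ_[ℓ] (lam T.W X D (e a))) (cM ℚ_[ℓ] z *ᵥ v) := by
    intro v
    rw [vec_lam, vec_lam]
    have h9 : (F0.base ℚ_[ℓ]).φ0 ((baseW T.W ℚ_[ℓ]).cl X D ^ (X.dim - 1) * vecL ℓ e v) =
        (baseW T.W ℚ_[ℓ]).cl X D ^ (X.dim - 1) * (F0.base ℚ_[ℓ]).φ0 (vecL ℓ e v) :=
      (F0.base ℚ_[ℓ]).pow_mul hL (F0.base ℚ_[ℓ]).mul _ _
    have h10 : (F0.base ℚ_[ℓ]).φ0 (vecL ℓ e v) = vecL ℓ e (cM ℚ_[ℓ] z *ᵥ v) :=
      baseChange_vecF (L := ℚ_[ℓ]) h5 v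
    rw [h10] at h9
    exact h9
  have h11 := ((F n).base ℚ_[ℓ]).kills hy (fun s : Fin (n + 1) => s) (c := clsL ℓ x n t) h6
  have h12 : frm (W := baseW T.W ℚ_[ℓ]) (fun a => em T.W ℚ_[ℓ] (lam T.W X D (e a))) n
      (fun s : Fin (n + 1) => s) (clsL ℓ x n t) = sgn ℚ_[ℓ] (2 * (X.dim - 1) + 1) n • t :=
    frm_cls (W := baseW T.W ℚ_[ℓ]) (dual_base hd) n t
  rw [h12] at h11
  intro v
  have h13 := h11 v
  have h14 : ∀ w : Fin (n + 1) → ι → ℚ_[ℓ], ev (sgn ℚ_[ℓ] (2 * (X.dim - 1) + 1) n • t) w =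
      sgn ℚ_[ℓ] (2 * (X.dim - 1) + 1) n * ev t w := fun w => ev_smul_left _ _ _
  have h15 : ∑ j, ev (sgn ℚ_[ℓ] (2 * (X.dim - 1) + 1) n • t)
      (Function.update v j (cM ℚ_[ℓ] z *ᵥ v j)) = 0 := h13
  rw [Finset.sum_congr rfl fun j _ => h14 _, ← Finset.mul_sum] at h15
  exact (mul_eq_zero.1 h15).resolve_left (sgn_ne _ _ _)

end Main

/-- **Tate classes are Hodge classes.** -/
theorem tate_hodge_sqL {ψ : LinearMap.BilinForm T.W.K (T.W.H X)} {d : ℕ}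
    (hP : IsPHS (tauT T) (Fx T X) ψ d)
    (hgen : Algebra.adjoin T.W.K (T.W.gr X 1 : Set (T.W.H X)) = ⊤)
    (hdim : finrank T.W.K (T.W.gr X 1) = 2 * X.dim) (hC : CCL G)
    (h0 : 0 < X.dim) (hG : G.HT) (hS : G.Semi) (hS' : SemiAll G) (hT1 : G.TH 1 1)
    (hTg : G.TH 1 X.dim)
    (hpk : ∀ (r : ℕ) (e f : Fin r → T.W.H X)
      (hf : ∀ a b, T.W.tr X (e a * f b) = if a = b then 1 else 0)
      (he1 : ∀ a, e a ∈ T.W.gr X 1) (hspan : ∀ z ∈ T.W.gr X 1, ∃ v, vec e v = z)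
      (U : Subgroup Γ), IsOpen (U : Set Γ) →
      (∀ s δ, GSys G.IsT s δ → ∃ Z ∈ LU G hf he1 hspan U,
        ∀ v, δ 0 (vecL ℓ e v) = vecL ℓ e ((Z + (s / 2) • 1) *ᵥ v)) →
        PinkC G hf he1 hspan U) (n j : ℕ) : G.TH n j := by
  intro c hc
  by_cases hnt0 : Nontrivial (T.W.H X)
  · have hnt : ∀ n, Nontrivial (T.W.H (pw X n)) := fun n => nontrivial_pw' n
    obtain ⟨r, e, he, he1, hspan⟩ := exists_bas T.W X 1
    have hcard : Fintype.card (Fin r) = 2 * X.dim := by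
      have hse : Submodule.span T.W.K (Set.range e) = T.W.gr X 1 := by
        refine le_antisymm ?_ ?_
        · rw [Submodule.span_le]
          rintro _ ⟨a, rfl⟩
          exact he1 a
        · intro z hz
          obtain ⟨v, rfl⟩ := hspan z hz
          exact Submodule.sum_mem _ fun a _ => Submodule.smul_mem _ _
            (Submodule.subset_span ⟨a, rfl⟩)
      rw [← hdim, ← hse, finrank_span_eq_card he]
    obtain ⟨f, hf⟩ := exists_co T.W he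
    obtain ⟨D, hD, hL, -⟩ := T.dec.polar X
    obtain ⟨x, hd, hxs⟩ := exists_dual hD hL h0 he he1 hspan
    obtain ⟨U, hU, hsim⟩ := exists_sim G hP hf he1 hspan hG hnt h0 hD hd hxs
    refine mem_HSp hP hf he1 hspan hgen hc.1 fun m l hm hl i => ?_
    obtain ⟨V, hV, hVt⟩ := G.frm_tate hf he1 hspan hG (hnt n) hc
    refine conj_sq G hP hf he1 hspan hG hnt h0 hD hd hxs hsim hgen hcard hU hS hS' hT1 hTg
      (hpk r e f hf he1 hspan U hU fun s δ h =>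
        exists_Z G hf he1 hspan hG hnt h0 hD hd hxs h hgen hU)
      (fun z hz hc hk n m hm t Δ hΔ ht => ?_) m l hl
      ⟨V, hV, fun g hg v => hVt g hg m l (by omega) i v⟩
    exact kills_tateL G hP hf he1 hspan hG hnt h0 hD hd hxs hC hgen hz hk hm hΔ ht
  · have h1 : (1 : T.W.H X) = 0 := by
      have := not_nontrivial_iff_subsingleton.1 hnt0
      exact Subsingleton.elim _ _
    have h2 : (1 : (baseW T.W ℚ_[ℓ]).H (pw X n)) = 0 := by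
      have h3 : (baseW T.W ℚ_[ℓ]).map (prj X n 0) (em T.W ℚ_[ℓ] (1 : T.W.H X)) =
          em T.W ℚ_[ℓ] (T.W.map (prj X n 0) 1) := em_map _ _
      rw [h1, map_zero, em_zero, map_zero] at h3
      have h4 : em T.W ℚ_[ℓ] (T.W.map (prj X n 0) (1 : T.W.H X)) =
          (1 : (baseW T.W ℚ_[ℓ]).H (pw X n)) := by rw [map_one]; rfl
      rw [← h4, h1, map_zero, em_zero]
    have h5 : c = 0 := by
      rw [← mul_one c, h2, mul_zero]
    rw [h5]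
    exact Submodule.zero_mem _

end Run7.h877.TS
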