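import Pool.Agent.Run7.h877.TS.Fin4

/-!
# The square decides the Tate conjecture for all powers: conversions
-/

set_option autoImplicit false
set_option linter.unusedSectionVars false

open CategoryTheory AlgebraicGeometry TensorProduct

universe u

namespace Run7.h877.SQ

open Module Matrix
open Pool.Agent.H914 Pool.Agent.H914.VarClass Pool.Agent.H914.VarClass.Obj
  Pool.Agent.H914.WeilCohomology
open Pool.Agent.Y121.AHS
open Pool.Agent.Y133.Half (pw prj prj_zero)
open Pool.Agent.Y121.AH (em em_gr)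
open Pool.Agent.N996 Pool.Agent.N996.FP Pool.Agent.N996.BP.Geo Pool.Agent.N996.FP.Geo
open Run7.h226 Run7.h877.TX Run7.h877.TS
open Run7.h877.SD hiding IsAlgebraic isAlgebraic_eq

variable {k : Type u} [Field k] {𝒱 : VarClass k} {ops : CycleOps 𝒱} {T : HodgeTheory ops}
  {E : PrimeNumber T} {X Y Z : 𝒱.Obj} {Γ : Type} [Group Γ] [TopologicalSpace Γ]
  [IsTopologicalGroup Γ] [CompactSpace Γ]

omit [IsTopologicalGroup Γ] [CompactSpace Γ] [TopologicalSpace Γ] [Group Γ] in
lemma isAlgebraic_eq {Y : 𝒱.Obj} {j : ℕ} : (IsAlgebraic j : E.H Y → Prop) = IsAlg j := by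
  funext a
  refine propext ⟨?_, ?_⟩
  · rintro ⟨_, ⟨z, hz, rfl⟩, rfl⟩
    exact ⟨z, hz, rfl⟩
  · rintro ⟨z, hz, rfl⟩
    exact ⟨_, ⟨z, hz, rfl⟩, rfl⟩

/-- **Tate classes are combinations of Hodge classes.** -/
theorem tateIsHodge_sq {ψ : RForm T.W X}
    (hψ : IsPolarisation T X ψ) (hX : OfAbelianType T X) {R : GaloisAction E X Γ}
    (hF : ContRep.Semisimple (R.r 0)) (hD : HodgeIsTate R) (hP : HodgeCocharactersGenerate R)
    (hC : SelfAdjointCentre T X ψ ∨ CentreKillsTateClasses R)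
    (h1 : TateIsHodgeIn R 1 1) (hg : TateIsHodgeIn R 1 X.dim) (n j : ℕ) :
    TateIsHodgeIn R n j := by
  rcases Nat.eq_zero_or_pos X.dim with h0 | h0
  · exact tateIsHodge_zero R h0 n j
  · refine of_th (tate_hodge_sq (toG R) hψ.toBP.isPHS hX.1 hX.2 ?_ h0 (ht_of hD) (semi_of hF)
      (semiAll_of hF) (th_of h1) (th_of hg) ?_ n j)
    · rcases hC with hC | hC
      · exact Or.inl fun φ hφ c hc d hd => hC φ (isCentral_iff.2 hφ) c hc d hd
      · exact Or.inr (cc_of hC)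
    · intro r e f hf he1 hspan U hU hZ
      exact pinkC_of hP hf he1 hspan hZ

/-- **The Tate conjecture for the powers.** -/
theorem tate_of_square {ψ : RForm T.W X}
    (hψ : IsPolarisation T X ψ) (hX : OfAbelianType T X) {R : GaloisAction E X Γ}
    (hF : ContRep.Semisimple (R.r 0)) (hD : HodgeIsTate R) (hP : HodgeCocharactersGenerate R)
    (hC : SelfAdjointCentre T X ψ) (hT : ∀ j, TateConjectureIn R 1 j) (n j : ℕ) :
    TateConjectureIn R n j := by
  intro a ha
  have h5 := tateIsHodge_sq hψ hX hF hD hP (Or.inl hC) (tateIsHodge_of_conj (hT 1))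
    (tateIsHodge_of_conj (hT X.dim)) n j a ha
  refine (Submodule.span_le.2 ?_ : Submodule.span ℚ_[E.ℓ] {w | IsHdg j w} ≤
    Submodule.span ℚ_[E.ℓ] {w : E.H (pw X n) | IsAlg j w}) h5
  exact fun c hc => Submodule.subset_span
    (hdg_alg hψ hX hD (N := 2) (Or.inl ⟨hC, rfl⟩) hT n j c hc)

/-- **The square decides the Tate conjecture for all powers.** -/
theorem final {ψ : RForm T.W X}
    (hψ : IsPolarisation T X ψ) (hX : OfAbelianType T X) (hS : SelfAdjointCentre T X ψ)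
    {R : GaloisAction E X Γ}
    (hD : ∀ n j (a : E.H (pw X n)), IsHdg j a → IsTate R n j a)
    (hF : ContRep.Semisimple (R.r 0)) (hP : HodgeCocharactersGenerate R) :
    (TateIsHodgeIn R 1 1 → TateIsHodgeIn R 1 X.dim → ∀ n j, TateIsHodgeIn R n j) ∧
    ((∀ j, InSpan ℚ_[E.ℓ] (IsTate R 1 j) (IsAlgebraic j)) →
      (∀ n j, InSpan ℚ_[E.ℓ] (IsTate R n j) (IsAlgebraic j)) ∧
        ∀ n j (a : E.H (pw X n)), IsHdg j a → IsAlgebraic j a) := by
  simp only [isAlgebraic_eq]
  exact ⟨tateIsHodge_sq hψ hX hF hD hP (Or.inl hS), fun hT =>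
    ⟨tate_of_square hψ hX hF hD hP hS hT, hdg_alg hψ hX hD (N := 2) (Or.inl ⟨hS, rfl⟩) hT⟩⟩

end Run7.h877.SQ
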