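import Pool.Agent.Run7.h877.TS.SqDefs

/-!
# The centre of the Hodge group and the monodromy group: definitions
-/

universe u

namespace Run7.h877.SQ

open Pool.Agent.H914 Pool.Agent.H914.VarClass Pool.Agent.Y121.AHS Pool.Agent.N996.FP Run7.h226
open Pool.Agent.Y133.Half (pw)

variable {k : Type u} [Field k] {𝒱 : VarClass k} {ops : CycleOps 𝒱} {T : HodgeTheory ops}
  {E : PrimeNumber T} {X : 𝒱.Obj}

/-- An element of the Lie algebra of the Hodge group of `X`, with coefficients in `ℚ_ℓ`: derivations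
`δ n` of the algebras `H(X ^ (n + 1), ℚ_ℓ)`, with `δ 0` mapping `H^1(X)` to itself, which commute
with the pull-backs along the projections `X ^ (n + 1) → X`, and map all Hodge classes to zero. -/
def InHodgeLie (δ : ∀ n, E.H (pw X n) → E.H (pw X n)) : Prop :=
  (∀ a, IsDegE 1 a → IsDegE 1 (δ 0 a)) ∧
    ∀ n, IsDer mulE n (fun i => mapE (pr X n i)) IsHdg (0 : ℚ_[E.ℓ]) (δ n) (δ 0)

/-- The elements of the centre of the Lie algebra of the Hodge group (with coefficients in `ℚ_ℓ`)
map all Tate classes on all powers of `X` to zero. (The centre is contained in the Lie algebra of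
the `ℓ`-adic monodromy group; this is a theorem of Vasiu, and Ullmo and Yafaev, for abelian
varieties.) -/
def CentreInMonodromy {Γ : Type} [Group Γ] [TopologicalSpace Γ] (R : GaloisAction E X Γ) : Prop :=
  ∀ δ : ∀ n, E.H (pw X n) → E.H (pw X n), InHodgeLie δ →
    (∀ δ' : ∀ n, E.H (pw X n) → E.H (pw X n), InHodgeLie δ' →
      ∀ a, IsDegE 1 a → δ 0 (δ' 0 a) = δ' 0 (δ 0 a)) →
    ∀ n j a, IsTate R n j a → δ n a = 0

end Run7.h877.SQ
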