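import Pool.Agent.Run7.h877.TS.Conv2
import Pool.Agent.Run7.h877.TS.CenL
import Pool.Agent.Run7.h877.TS.SqCentre

/-!
# The Mumford-Tate conjecture and the square: conversions
-/

set_option autoImplicit false
set_option linter.unusedSectionVars false

open CategoryTheory AlgebraicGeometry TensorProduct

universe u

namespace Run7.h877.SQ

open Module Matrix
open Pool.Agent.H914 Pool.Agent.H914.VarClass Pool.Agent.H914.VarClass.Obj
  Pool.Agent.H914.WeilCohomology
open Pool.Agent.Y121.AHS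
open Pool.Agent.Y133.Half (pw prj prj_zero)
open Pool.Agent.Y121.AH (em em_gr)
open Pool.Agent.N996 Pool.Agent.N996.FP Pool.Agent.N996.BP.Geo Pool.Agent.N996.FP.Geo
open Run7.h226 Run7.h877.TX Run7.h877.TS
open Run7.h877.SD hiding IsAlgebraic isAlgebraic_eq IsDer

variable {k : Type u} [Field k] {𝒱 : VarClass k} {ops : CycleOps 𝒱} {T : HodgeTheory ops}
  {E : PrimeNumber T} {X Y Z : 𝒱.Obj} {Γ : Type} [Group Γ] [TopologicalSpace Γ]
  [IsTopologicalGroup Γ] [CompactSpace Γ]

lemma ccl_of {R : GaloisAction E X Γ} (h : CentreInMonodromy R) : CCL (toG R) := by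
  intro δ hδ hc n j c hcT
  refine h (fun n => δ n) ⟨fun a ha => hδ.deg a ha, fun n => ⟨fun c a b => ?_, fun a b =>
    hδ.mul n a b, fun i hi a => ?_, ?_⟩⟩ ?_ n j c hcT
  · exact ((δ n).map_add _ _).trans (congrArg (fun z => z + δ n b)
      ((δ n).map_smul (show (Pool.Agent.H914.baseW (toH T).W ℚ_[E.ℓ]).K from c) a))
  · have h1 := hδ.comp n ⟨i, by omega⟩ a
    rw [← pr_prj n hi] at h1
    exact h1
  · rintro j _ ⟨a, ha, rfl⟩
    exact hδ.tate n j _ ⟨a, ha, rfl⟩
  · intro δ' hδ' a ha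
    exact hc (fun n => toLin (δ' n) (hδ'.2 n).1) (gsys_of (T := T) (E := E)
      (S := fun n j c => IsHdg j c) hδ'.1 hδ'.2) a ha

/-- **The Tate classes in the middle degree on the square decide the Mumford-Tate conjecture.** -/
theorem final_mt {ψ : RForm T.W X}
    (hψ : IsPolarisation T X ψ) (hX : OfAbelianType T X) {R : GaloisAction E X Γ}
    (hD : ∀ n j (a : E.H (pw X n)), IsHdg j a → IsTate R n j a)
    (hF : ContRep.Semisimple (R.r 0)) (hP : HodgeCocharactersGenerate R)
    (hC : CentreInMonodromy R)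
    (h1 : TateIsHodgeIn R 1 1) (hg : TateIsHodgeIn R 1 X.dim) (n j : ℕ) :
    TateIsHodgeIn R n j := by
  rcases Nat.eq_zero_or_pos X.dim with h0 | h0
  · exact tateIsHodge_zero R h0 n j
  · refine of_th (tate_hodge_sqL (toG R) hψ.toBP.isPHS hX.1 hX.2 (ccl_of hC) h0 (ht_of hD)
      (semi_of hF) (semiAll_of hF) (th_of h1) (th_of hg) ?_ n j)
    intro r e f hf he1 hspan U hU hZ
    exact pinkC_of hP hf he1 hspan hZ

end Run7.h877.SQ
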