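import Mathlib

/-!
# Operators which commute with the commutant
-/

set_option autoImplicit false
set_option linter.unusedSectionVars false

namespace Run7.h877.TS

open Module

variable {K E : Type} [Field K] [AddCommGroup E] [Module K E] [FiniteDimensional K E]

/-- **The density theorem.** -/
theorem dens (𝒮 : Set (Module.End K E))
    (hss : ∀ W : Submodule K E, (∀ s ∈ 𝒮, ∀ x ∈ W, s x ∈ W) →
      ∃ W' : Submodule K E, IsCompl W W' ∧ ∀ s ∈ 𝒮, ∀ x ∈ W', s x ∈ W')
    (D : Module.End K E) (hD : ∀ F : Module.End K E, (∀ s ∈ 𝒮, F * s = s * F) → F * D = D * F) :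
    D ∈ Algebra.adjoin K 𝒮 := by
  have hstab : ∀ W : Submodule K E, (∀ s ∈ 𝒮, ∀ x ∈ W, s x ∈ W) →
      ∀ r ∈ Algebra.adjoin K 𝒮, ∀ x ∈ W, r x ∈ W := by
    intro W hW r hr
    induction hr using Algebra.adjoin_induction with
    | mem s hs => exact hW s hs
    | algebraMap c => intro x hx; exact W.smul_mem c hx
    | add a b _ _ ha hb => intro x hx; exact W.add_mem (ha x hx) (hb x hx)
    | mul a b _ _ ha hb => intro x hx; exact ha _ (hb x hx)
  have hsm : ∀ (r : Algebra.adjoin K 𝒮) (x : E), r • x = (r : Module.End K E) x := fun _ _ => rfl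
  have hsemi : IsSemisimpleModule (Algebra.adjoin K 𝒮) E := by
    refine { exists_isCompl := fun W => ?_ }
    let W0 : Submodule K E :=
      { carrier := W
        add_mem' := W.add_mem
        zero_mem' := W.zero_mem
        smul_mem' := fun c x hx =>
          W.smul_mem (algebraMap K (Algebra.adjoin K 𝒮) c) hx }
    obtain ⟨W', hc, hs⟩ := hss W0 fun s hs x hx =>
      W.smul_mem (⟨s, Algebra.subset_adjoin hs⟩ : Algebra.adjoin K 𝒮) hx
    let W1 : Submodule (Algebra.adjoin K 𝒮) E :=
      { carrier := W'
        add_mem' := W'.add_mem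
        zero_mem' := W'.zero_mem
        smul_mem' := fun r x hx => hstab W' hs r.1 r.2 x hx }
    refine ⟨W1, ?_⟩
    refine IsCompl.of_le ?_ ?_
    · rintro x ⟨hx, hx'⟩
      have h1 : x ∈ W0 ⊓ W' := ⟨hx, hx'⟩
      rw [hc.inf_eq_bot] at h1
      exact h1
    · intro x _
      have h1 : x ∈ W0 ⊔ W' := by rw [hc.sup_eq_top]; trivial
      obtain ⟨y, hy, z, hz, rfl⟩ := Submodule.mem_sup.1 h1
      exact Submodule.add_mem_sup (show y ∈ W from hy) (show z ∈ W1 from hz)
  -- the operator as an endomorphism over the commutant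
  let D' : Module.End (Module.End (Algebra.adjoin K 𝒮) E) E :=
    { toFun := D
      map_add' := D.map_add
      map_smul' := by
        intro F x
        let F0 : Module.End K E :=
          { toFun := F
            map_add' := F.map_add
            map_smul' := fun c x => F.map_smul (algebraMap K (Algebra.adjoin K 𝒮) c) x }
        have h1 := hD F0 fun s hs => LinearMap.ext fun x =>
          F.map_smul (⟨s, Algebra.subset_adjoin hs⟩ : Algebra.adjoin K 𝒮) x
        exact (LinearMap.congr_fun h1 x).symm }
  let b := Module.finBasis K E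
  classical
  obtain ⟨r, hr⟩ := jacobson_density (R := Algebra.adjoin K 𝒮) (M := E) D'
    (Finset.univ.image fun i => b i)
  have h1 : D = (r : Module.End K E) := by
    refine b.ext fun i => ?_
    exact hr (b i) (Finset.mem_image_of_mem _ (Finset.mem_univ i))
  rw [h1]
  exact r.2

end Run7.h877.TS
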