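import Pool.Agent.Run7.h877.TS.Top

/-!
# The determinant as a top form
-/

set_option autoImplicit false
set_option linter.unusedSectionVars false

namespace Run7.h877.TS

open Matrix Module
open Run7.h877.MT

variable {ι : Type} [Fintype ι] [DecidableEq ι] {F : Type} [Field F] {n : ℕ}

/-- the coefficients of a multilinear map -/
def coef (M : MultilinearMap F (fun _ : Fin n => ι → F) F) : (Fin n → ι) → F :=
  fun i => M fun j => Pi.single (i j) 1

lemma ev_coef (M : MultilinearMap F (fun _ : Fin n => ι → F) F) (v : Fin n → ι → F) :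
    ev (coef M) v = M v := by
  have key : evM (coef M) = M := by
    refine Module.Basis.ext_multilinear (fun _ => Pi.basisFun F ι) fun i => ?_
    have h0 : (fun j => (Pi.basisFun F ι) (i j)) = fun j => (Pi.single (i j) (1 : F) : ι → F) := by
      funext j; exact Pi.basisFun_apply _ _ _
    rw [evM_apply, h0, ev_single]
    rfl
  rw [← evM_apply, key]

lemma ev_perm {t : (Fin n → ι) → F} (ht : IsAlt t) (σ : Equiv.Perm (Fin n)) (v : Fin n → ι → F) :
    ev t (v ∘ σ) = sg F σ * ev t v := by
  rw [ev, ev, Finset.mul_sum]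
  symm
  refine Fintype.sum_equiv (Equiv.arrowCongr σ.symm (Equiv.refl ι)) _ _ fun u => ?_
  have h1 : (Equiv.arrowCongr σ.symm (Equiv.refl ι)) u = u ∘ σ := rfl
  rw [h1, ht σ u, mul_assoc]
  congr 2
  exact (Fintype.prod_equiv σ _ _ fun j => rfl).symm

lemma ev_alt_eq_zero [CharZero F] {t : (Fin n → ι) → F} (ht : IsAlt t) {v : Fin n → ι → F}
    {i j : Fin n} (h : v i = v j) (hij : i ≠ j) : ev t v = 0 := by
  have h1 := ev_perm ht (Equiv.swap i j) v
  have h2 : v ∘ Equiv.swap i j = v := by
    funext r
    rw [Function.comp_apply]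
    by_cases hr : r = i
    · subst hr
      rw [Equiv.swap_apply_left, h]
    · by_cases hr' : r = j
      · subst hr'
        rw [Equiv.swap_apply_right, h]
      · rw [Equiv.swap_apply_of_ne_of_ne hr hr']
  have h3 : sg F (Equiv.swap i j) = -1 := by
    rw [sg, Equiv.Perm.sign_swap hij]
    simp
  rw [h2, h3] at h1
  have h4 : (2 : F) * ev t v = 0 := by linear_combination h1
  exact (mul_eq_zero.1 h4).resolve_left two_ne_zero

lemma det_update {R : Type} [AddCommGroup R] [Module F R] (b : Basis (Fin n) F R) (i : Fin n)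
    (y : R) : b.det (Function.update b i y) = b.repr y i := by
  rw [Basis.det_apply, Basis.toMatrix_update, Basis.toMatrix_self, ← Matrix.cramer_apply,
    Matrix.cramer_one]
  rfl

/-- **The top form.** -/
theorem exists_top [CharZero F] {Φ : Matrix ι ι F} (hΦ : Φ * Φ = Φ)
    (L : Submodule F (Matrix ι ι F))
    (hr : Module.finrank F (LinearMap.range (Matrix.toLin' Φ)) = n) :
    ∃ a ∈ Wf n Φ L 0, (∀ t ∈ Wf n Φ L 0, ∃ c : F, t = c • a) ∧
      ∀ y : ι → F, Φ *ᵥ y = y → (∀ (i : Fin n) (u : Fin n → ι → F), (∀ s, Φ *ᵥ u s = u s) →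
        ev a (Function.update u i y) = 0) → y = 0 := by
  let b : Basis (Fin n) F (LinearMap.range (Matrix.toLin' Φ)) := finBasisOfFinrankEq F _ hr
  let p : (ι → F) →ₗ[F] LinearMap.range (Matrix.toLin' Φ) := (Matrix.toLin' Φ).rangeRestrict
  have hp : ∀ v : ι → F, (p v : ι → F) = Φ *ᵥ v := fun v => Matrix.toLin'_apply Φ v
  have hfix : ∀ y : LinearMap.range (Matrix.toLin' Φ), Φ *ᵥ (y : ι → F) = y := by
    rintro ⟨y, z, hz⟩
    change Φ *ᵥ y = y
    rw [← hz, Matrix.toLin'_apply, Matrix.mulVec_mulVec, hΦ]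
  have hpf : ∀ v : ι → F, p (Φ *ᵥ v) = p v := by
    intro v
    apply Subtype.ext
    rw [hp, hp, Matrix.mulVec_mulVec, hΦ]
  have hps : ∀ y : LinearMap.range (Matrix.toLin' Φ), p (y : ι → F) = y := by
    intro y
    apply Subtype.ext
    rw [hp, hfix]
  let A : (ι → F) [⋀^Fin n]→ₗ[F] F := b.det.compLinearMap p
  have hA : ∀ v, ev (coef A.toMultilinearMap) v = b.det fun j => p (v j) := by
    intro v
    rw [ev_coef]
    rfl
  refine ⟨coef A.toMultilinearMap, ⟨fun σ i => ?_, fun v => ?_⟩, ?_, ?_⟩
  · have h1 := A.map_perm (fun j => (Pi.single (i j) (1 : F) : ι → F)) σ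
    have h2 : coef A.toMultilinearMap (i ∘ σ) =
        A ((fun j => (Pi.single (i j) (1 : F) : ι → F)) ∘ σ) := rfl
    rw [h2, h1, sg]
    rcases Int.units_eq_one_or (Equiv.Perm.sign σ) with h | h
    · rw [h, one_smul]
      simp only [Units.val_one, Int.cast_one, one_mul]
      rfl
    · rw [h]
      simp only [Units.val_neg, Units.val_one, Int.cast_neg, Int.cast_one, neg_mul, one_mul,
        Units.neg_smul, one_smul]
      rfl
  · rw [hA, hA]
    congr 1
    funext j
    exact hpf _
  · rintro t ⟨ht, ht'⟩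
    let B : (LinearMap.range (Matrix.toLin' Φ)) [⋀^Fin n]→ₗ[F] F :=
      { (evM t).compLinearMap fun _ => (LinearMap.range (Matrix.toLin' Φ)).subtype with
        map_eq_zero_of_eq' := by
          intro v i j h hij
          have h1 : ((evM t).compLinearMap fun _ =>
              (LinearMap.range (Matrix.toLin' Φ)).subtype) v = ev t fun j => (v j : ι → F) := by
            rw [MultilinearMap.compLinearMap_apply, evM_apply]
            rfl
          exact h1.trans (ev_alt_eq_zero ht (congrArg Subtype.val h) hij) }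
    have hB : ∀ v, B v = ev t fun j => (v j : ι → F) := fun v => evM_apply t _
    refine ⟨B b, ev_inj fun v => ?_⟩
    have h1 := congrArg (fun f => f fun j => p (v j)) (B.eq_smul_basis_det b)
    rw [ev_smul_left, hA, ← ht']
    refine Eq.trans ?_ h1
    change _ = B fun j => p (v j)
    rw [hB]
    rfl
  · intro y hy h
    let y' : LinearMap.range (Matrix.toLin' Φ) := ⟨y, y, by rw [Matrix.toLin'_apply, hy]⟩
    have h1 : y' = 0 := by
      refine b.repr.injective (Finsupp.ext fun i => ?_)
      rw [← det_update, map_zero, Finsupp.zero_apply]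
      have h2 := h i (fun s => (b s : ι → F)) fun s => hfix _
      rw [hA] at h2
      rw [← h2]
      congr 1
      funext j
      by_cases hj : j = i
      · subst hj
        rw [Function.update_self, Function.update_self]
        exact (hps y').symm
      · rw [Function.update_of_ne hj, Function.update_of_ne hj]
        exact (hps _).symm
    exact congrArg Subtype.val h1

/-- the rank of an idempotent which is exchanged with its complement -/
lemma rank_idem {Φ β : Matrix ι ι F} (hΦ : Φ * Φ = Φ) (hβ : IsUnit β.det)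
    (h : Φᵀ * β + β * Φ = β) (hcard : Fintype.card ι = 2 * n) :
    Module.finrank F (LinearMap.range (Matrix.toLin' Φ)) = n := by
  have h1 : β * Φ = (1 - Φ)ᵀ * β := by
    rw [Matrix.transpose_sub, Matrix.transpose_one, Matrix.sub_mul, Matrix.one_mul,
      eq_sub_iff_add_eq, add_comm, h]
  have h2 : Φ.rank = (1 - Φ).rank := by
    have e1 : (β * Φ).rank = Φ.rank := Matrix.rank_mul_eq_right_of_isUnit_det β Φ hβ
    have e2 : ((1 - Φ)ᵀ * β).rank = (1 - Φ)ᵀ.rank :=
      Matrix.rank_mul_eq_left_of_isUnit_det β (1 - Φ)ᵀ hβ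
    rw [← e1, h1, e2, Matrix.rank_transpose]
  have h3 : LinearMap.ker (Matrix.toLin' Φ) = LinearMap.range (Matrix.toLin' (1 - Φ)) := by
    ext x
    rw [LinearMap.mem_ker, LinearMap.mem_range, Matrix.toLin'_apply]
    constructor
    · intro hx
      refine ⟨x, ?_⟩
      rw [Matrix.toLin'_apply, Matrix.sub_mulVec, Matrix.one_mulVec, hx, sub_zero]
    · rintro ⟨y, rfl⟩
      rw [Matrix.toLin'_apply, Matrix.mulVec_mulVec, mul_sub, mul_one, hΦ, sub_self,
        Matrix.zero_mulVec]
  have h4 := LinearMap.finrank_range_add_finrank_ker (Matrix.toLin' Φ)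
  have e3 : ∀ M : Matrix ι ι F, Module.finrank F (LinearMap.range (Matrix.toLin' M)) = M.rank :=
    fun M => rfl
  rw [h3, e3, e3, ← h2, Module.finrank_fintype_fun_eq_card, hcard] at h4
  rw [e3]
  omega

end Run7.h877.TS
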