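import Pool.Agent.Run7.h877.TS.Alt
import Pool.Agent.Run7.h877.TS.Dens

/-!
# Density for alternating forms over extension fields
-/

set_option autoImplicit false
set_option linter.unusedSectionVars false

namespace Run7.h877.TS

open Matrix Module
open Run7.h877.MT

variable {ι : Type} [Fintype ι] [DecidableEq ι] {K : Type} [Field K] {n : ℕ}

/-- The operator on the alternating forms. -/
def opE (n : ℕ) (Z : Matrix ι ι K) : Module.End K (altS ι K n) :=
  LinearMap.restrict (dvR Z) fun _ ha => IsAlt.dv ha Z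

lemma opE_apply (Z : Matrix ι ι K) (x : altS ι K n) : ((opE n Z x : altS ι K n) : (Fin n → ι) → K) =
    dv Z x.1 := rfl

/-- the antisymmetrizer with values in the alternating forms -/
def asE (ι : Type) [Fintype ι] [DecidableEq ι] (K : Type) [Field K] (n : ℕ) :
    ((Fin n → ι) → K) →ₗ[K] altS ι K n :=
  LinearMap.codRestrict (altS ι K n) (Matrix.toLin' (As ι K n)) fun a => by
    rw [Matrix.toLin'_apply]
    exact As_alt a

lemma asE_apply (a : (Fin n → ι) → K) : ((asE ι K n a : altS ι K n) : (Fin n → ι) → K) =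
    As ι K n *ᵥ a := rfl

lemma asE_alt (x : altS ι K n) : asE ι K n x.1 = ((Nat.factorial n : ℕ) : K) • x := by
  apply Subtype.ext
  rw [asE_apply, As_of_alt x.2]
  rfl

/-- the matrix of an operator on the alternating forms -/
def maE (F : Module.End K (altS ι K n)) : Matrix (Fin n → ι) (Fin n → ι) K :=
  LinearMap.toMatrix' ((altS ι K n).subtype ∘ₗ F ∘ₗ asE ι K n)

lemma maE_mulVec (F : Module.End K (altS ι K n)) (a : (Fin n → ι) → K) :
    maE F *ᵥ a = (F (asE ι K n a) : altS ι K n) := by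
  rw [maE, ← Matrix.toLin'_apply, Matrix.toLin'_toMatrix']
  rfl

lemma As_maE (F : Module.End K (altS ι K n)) :
    As ι K n * maE F = ((Nat.factorial n : ℕ) : K) • maE F := by
  refine matrix_ext_vec fun a => ?_
  rw [← Matrix.mulVec_mulVec, Matrix.smul_mulVec, maE_mulVec]
  exact As_of_alt (F (asE ι K n a)).2

lemma maE_As (F : Module.End K (altS ι K n)) :
    maE F * As ι K n = ((Nat.factorial n : ℕ) : K) • maE F := by
  refine matrix_ext_vec fun a => ?_
  rw [← Matrix.mulVec_mulVec, Matrix.smul_mulVec, maE_mulVec, maE_mulVec]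
  have h1 : asE ι K n (As ι K n *ᵥ a) = ((Nat.factorial n : ℕ) : K) • asE ι K n a := by
    apply Subtype.ext
    rw [asE_apply, As_of_alt (As_alt a)]
    rfl
  rw [h1, map_smul]
  rfl

lemma asE_dv (Z : Matrix ι ι K) (a : (Fin n → ι) → K) :
    asE ι K n (dv Z a) = opE n Z (asE ι K n a) := by
  apply Subtype.ext
  rw [asE_apply, opE_apply, asE_apply, ← dm_mulVec, ← dm_mulVec, Matrix.mulVec_mulVec,
    Matrix.mulVec_mulVec, As_dm]

lemma maE_dm {F : Module.End K (altS ι K n)} {Z : Matrix ι ι K} (h : F * opE n Z = opE n Z * F) :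
    maE F * dm n Z = dm n Z * maE F := by
  refine matrix_ext_vec fun a => ?_
  rw [← Matrix.mulVec_mulVec, ← Matrix.mulVec_mulVec, dm_mulVec, dm_mulVec, maE_mulVec,
    maE_mulVec, asE_dv]
  exact congrArg Subtype.val (LinearMap.congr_fun h (asE ι K n a))

lemma of_maE [CharZero K] {F : Module.End K (altS ι K n)} {Z : Matrix ι ι K}
    (h : maE F * dm n Z = dm n Z * maE F) : F * opE n Z = opE n Z * F := by
  refine LinearMap.ext fun x => ?_
  have h1 := congrArg (fun M => M *ᵥ x.1) h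
  simp only [← Matrix.mulVec_mulVec] at h1
  rw [dm_mulVec, dm_mulVec, maE_mulVec, maE_mulVec, asE_dv, asE_alt, map_smul, map_smul,
    map_smul] at h1
  have h2 : ((Nat.factorial n : ℕ) : K) ≠ 0 := by exact_mod_cast Nat.factorial_ne_zero n
  have h3 : ((Nat.factorial n : ℕ) : K) • (F (opE n Z x)) =
      ((Nat.factorial n : ℕ) : K) • (opE n Z (F x)) := by
    apply Subtype.ext
    refine h1.trans ?_
    have h4 : ((((Nat.factorial n : ℕ) : K) • F x : altS ι K n) : (Fin n → ι) → K) =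
        ((Nat.factorial n : ℕ) : K) • (F x : altS ι K n).1 := rfl
    rw [h4, dv_smul']
    rfl
  have h5 := congrArg (fun y => (((Nat.factorial n : ℕ) : K))⁻¹ • y) h3
  simp only [smul_smul, inv_mul_cancel₀ h2, one_smul] at h5
  exact h5

section ext

variable {Ω : Type} [Field Ω] [Algebra K Ω]

/-- extension of the coefficients -/
def mx (K : Type) [Field K] (Ω : Type) [Field Ω] [Algebra K Ω] {m : Type} (M : Matrix m m K) :
    Matrix m m Ω := M.map (algebraMap K Ω)

lemma mx_dm (Y : Matrix ι ι K) : mx K Ω (dm n Y) = dm n (mx K Ω Y) := by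
  ext i u
  have h1 : mx K Ω (dm n Y) i u = algebraMap K Ω (dm n Y i u) := rfl
  have h2 : ∀ x : Fin n → ι, algebraMap K Ω ((Pi.single u (1 : K) : (Fin n → ι) → K) x) =
      (Pi.single u (1 : Ω) : (Fin n → ι) → Ω) x := by
    intro x
    by_cases h : x = u
    · subst h; rw [Pi.single_eq_same, Pi.single_eq_same, map_one]
    · rw [Pi.single_eq_of_ne h, Pi.single_eq_of_ne h, map_zero]
  rw [h1, dm, dm, dv, dv, map_sum]
  refine Finset.sum_congr rfl fun j _ => ?_
  rw [map_sum]
  refine Finset.sum_congr rfl fun k _ => ?_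
  rw [map_mul, h2]
  rfl

lemma mx_As : mx K Ω (As ι K n) = As ι Ω n := by
  ext i u
  have h1 : mx K Ω (As ι K n) i u = algebraMap K Ω (As ι K n i u) := rfl
  rw [h1, As, As, map_sum]
  refine Finset.sum_congr rfl fun σ _ => ?_
  split_ifs
  · rw [sg, sg, map_intCast]
  · rw [map_zero]

lemma mx_mul {m : Type} [Fintype m] (A B : Matrix m m K) :
    mx K Ω (A * B) = mx K Ω A * mx K Ω B := Matrix.map_mul

lemma mx_add {m : Type} (A B : Matrix m m K) : mx K Ω (A + B) = mx K Ω A + mx K Ω B := by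
  ext i j
  exact (algebraMap K Ω).map_add _ _

lemma mx_sub {m : Type} (A B : Matrix m m K) : mx K Ω (A - B) = mx K Ω A - mx K Ω B := by
  ext i j
  exact (algebraMap K Ω).map_sub _ _

lemma mx_zero {m : Type} : mx K Ω (0 : Matrix m m K) = 0 := by
  ext i j
  exact (algebraMap K Ω).map_zero

/-- **Density over an extension field.** -/
theorem dens_ext [CharZero K] (L : Set (Matrix ι ι K))
    (hss : ∀ W : Submodule K ((Fin n → ι) → K), W ≤ altS ι K n →
      (∀ Z ∈ L, ∀ x ∈ W, dv Z x ∈ W) → ∃ W' : Submodule K ((Fin n → ι) → K),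
        W' ≤ altS ι K n ∧ W ⊓ W' = ⊥ ∧ altS ι K n ≤ W ⊔ W' ∧ ∀ Z ∈ L, ∀ x ∈ W', dv Z x ∈ W')
    (D : Matrix ι ι K)
    (hD : ∀ F : Matrix (Fin n → ι) (Fin n → ι) K,
      As ι K n * F = ((Nat.factorial n : ℕ) : K) • F →
      F * As ι K n = ((Nat.factorial n : ℕ) : K) • F →
      (∀ Z ∈ L, F * dm n Z = dm n Z * F) → F * dm n D = dm n D * F)
    {S : Submodule Ω ((Fin n → ι) → Ω)} (hS : S ≤ altS ι Ω n)
    (hSL : ∀ Z ∈ L, ∀ t ∈ S, dv (mx K Ω Z) t ∈ S) : ∀ t ∈ S, dv (mx K Ω D) t ∈ S := by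
  have hΩ : CharZero Ω := charZero_of_injective_algebraMap (algebraMap K Ω).injective
  have h1 : opE n D ∈ Algebra.adjoin K ((opE n) '' L) := by
    refine dens _ ?_ _ ?_
    · intro W hW
      obtain ⟨W', h1, h2, h3, h4⟩ := hss (W.map (altS ι K n).subtype)
        (by rintro _ ⟨x, -, rfl⟩; exact x.2) (by
          rintro Z hZ _ ⟨x, hx, rfl⟩
          exact ⟨opE n Z x, hW _ ⟨Z, hZ, rfl⟩ x hx, rfl⟩)
      refine ⟨W'.comap (altS ι K n).subtype, ?_, ?_⟩
      · refine IsCompl.of_le ?_ ?_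
        · rintro x ⟨hx, hx'⟩
          have h5 : x.1 ∈ W.map (altS ι K n).subtype ⊓ W' := ⟨⟨x, hx, rfl⟩, hx'⟩
          rw [h2, Submodule.mem_bot] at h5
          exact (Submodule.mem_bot K).2 (Subtype.ext h5)
        · intro x _
          obtain ⟨_, ⟨y, hy, rfl⟩, z, hz, h6⟩ := Submodule.mem_sup.1 (h3 x.2)
          refine Submodule.mem_sup.2 ⟨y, hy, ⟨z, h1 hz⟩, hz, Subtype.ext h6⟩
      · rintro _ ⟨Z, hZ, rfl⟩ x hx
        exact h4 Z hZ _ hx
    · intro F hF
      refine of_maE (hD _ (As_maE F) (maE_As F) fun Z hZ => maE_dm (hF _ ⟨Z, hZ, rfl⟩))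
  -- the matrix
  have h2 : ∀ r ∈ Algebra.adjoin K ((opE n) '' L), ∃ r' ∈ Algebra.adjoin K ((dm n) '' L),
      ∀ x : altS ι K n, ((r x : altS ι K n) : (Fin n → ι) → K) = r' *ᵥ x.1 := by
    intro r hr
    induction hr using Algebra.adjoin_induction with
    | mem s hs =>
      obtain ⟨Z, hZ, rfl⟩ := hs
      refine ⟨dm n Z, Algebra.subset_adjoin ⟨Z, hZ, rfl⟩, fun x => ?_⟩
      rw [dm_mulVec]
      rfl
    | algebraMap c =>
      refine ⟨algebraMap K _ c, Subalgebra.algebraMap_mem _ c, fun x => ?_⟩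
      rw [Algebra.algebraMap_eq_smul_one, Algebra.algebraMap_eq_smul_one, Matrix.smul_mulVec,
        Matrix.one_mulVec]
      rfl
    | add a b _ _ ha hb =>
      obtain ⟨a', ha', ha2⟩ := ha
      obtain ⟨b', hb', hb2⟩ := hb
      refine ⟨a' + b', Subalgebra.add_mem _ ha' hb', fun x => ?_⟩
      rw [Matrix.add_mulVec, ← ha2, ← hb2]
      rfl
    | mul a b _ _ ha hb =>
      obtain ⟨a', ha', ha2⟩ := ha
      obtain ⟨b', hb', hb2⟩ := hb
      refine ⟨a' * b', Subalgebra.mul_mem _ ha' hb', fun x => ?_⟩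
      rw [← Matrix.mulVec_mulVec, ← hb2, ← ha2]
      rfl
  obtain ⟨r, hr, hrD⟩ := h2 _ h1
  have h3 : dm n D * As ι K n = r * As ι K n := by
    refine matrix_ext_vec fun a => ?_
    rw [← Matrix.mulVec_mulVec, ← Matrix.mulVec_mulVec, dm_mulVec]
    exact hrD (asE ι K n a)
  have h4 : ∀ r ∈ Algebra.adjoin K ((dm n) '' L), ∀ t ∈ S, mx K Ω r *ᵥ t ∈ S := by
    intro r hr
    induction hr using Algebra.adjoin_induction with
    | mem s hs =>
      obtain ⟨Z, hZ, rfl⟩ := hs
      intro t ht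
      rw [mx_dm, dm_mulVec]
      exact hSL Z hZ t ht
    | algebraMap c =>
      intro t ht
      have h5 : mx K Ω (algebraMap K (Matrix (Fin n → ι) (Fin n → ι) K) c) =
          (algebraMap K Ω c) • 1 := by
        rw [Algebra.algebraMap_eq_smul_one]
        ext i j
        have h6 : mx K Ω (c • (1 : Matrix (Fin n → ι) (Fin n → ι) K)) i j =
          algebraMap K Ω ((c • (1 : Matrix (Fin n → ι) (Fin n → ι) K)) i j) := rfl
        rw [h6, Matrix.smul_apply, Matrix.smul_apply, smul_eq_mul, smul_eq_mul, map_mul,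
          Matrix.one_apply, Matrix.one_apply]
        split_ifs
        · rw [map_one]
        · rw [map_zero]
      rw [h5, Matrix.smul_mulVec, Matrix.one_mulVec]
      exact S.smul_mem _ ht
    | add a b _ _ ha hb =>
      intro t ht
      rw [mx_add, Matrix.add_mulVec]
      exact S.add_mem (ha t ht) (hb t ht)
    | mul a b _ _ ha hb =>
      intro t ht
      rw [mx_mul, ← Matrix.mulVec_mulVec]
      exact ha _ (hb t ht)
  intro t ht
  have h5 : mx K Ω (dm n D) * As ι Ω n = mx K Ω r * As ι Ω n := by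
    rw [← mx_As (K := K), ← mx_mul, ← mx_mul, h3]
  have h6 := congrArg (fun M => M *ᵥ t) h5
  simp only [← Matrix.mulVec_mulVec] at h6
  rw [As_of_alt (hS ht), Matrix.mulVec_smul, Matrix.mulVec_smul, mx_dm, dm_mulVec] at h6
  have h7 : ((Nat.factorial n : ℕ) : Ω) ≠ 0 := by exact_mod_cast Nat.factorial_ne_zero n
  have h8 : dv (mx K Ω D) t = mx K Ω r *ᵥ t := by
    have h9 := congrArg (fun y => (((Nat.factorial n : ℕ) : Ω))⁻¹ • y) h6
    simp only [smul_smul, inv_mul_cancel₀ h7, one_smul] at h9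
    exact h9
  rw [h8]
  exact h4 r hr t ht

end ext

end Run7.h877.TS
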