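import Pool.Agent.Run7.h877.TS.Det
import Pool.Agent.Run7.h877.TS.Ext
import Pool.Agent.Run7.h877.MT.Proj
import Pool.Agent.Run7.h877.MT.Core

/-!
# Operators orthogonal to the Lie algebra commute with the idempotents
-/

set_option autoImplicit false
set_option linter.unusedSectionVars false

namespace Run7.h877.TS

open Matrix Module
open Run7.h877.MT

variable {ι : Type} [Fintype ι] [DecidableEq ι] {K : Type} [Field K] {n : ℕ} {Ω : Type} [Field Ω]
  [Algebra K Ω]

/-- the span over the extension field -/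
def spL (Ω : Type) [Field Ω] [Algebra K Ω] (L : Submodule K (Matrix ι ι K)) :
    Submodule Ω (Matrix ι ι Ω) := Submodule.span Ω {x | ∃ l ∈ L, x = mx K Ω l}

lemma mx_mem {L : Submodule K (Matrix ι ι K)} {l : Matrix ι ι K} (h : l ∈ L) :
    mx K Ω l ∈ spL Ω L := Submodule.subset_span ⟨l, h, rfl⟩

lemma spL_lie {L : Submodule K (Matrix ι ι K)} (hlie : ∀ X ∈ L, ∀ Y ∈ L, X * Y - Y * X ∈ L) :
    ∀ X ∈ spL Ω L, ∀ Y ∈ spL Ω L, X * Y - Y * X ∈ spL Ω L := by
  intro X hX Y hY
  rw [spL] at hX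
  induction hX using Submodule.span_induction with
  | mem x hx =>
    obtain ⟨l, hl, rfl⟩ := hx
    rw [spL] at hY
    induction hY using Submodule.span_induction with
    | mem y hy =>
      obtain ⟨l', hl', rfl⟩ := hy
      rw [← mx_mul, ← mx_mul, ← mx_sub]
      exact mx_mem (hlie l hl l' hl')
    | zero => rw [mul_zero, zero_mul, sub_zero]; exact Submodule.zero_mem _
    | add a b _ _ ha hb =>
      have e : mx K Ω l * (a + b) - (a + b) * mx K Ω l =
          (mx K Ω l * a - a * mx K Ω l) + (mx K Ω l * b - b * mx K Ω l) := by noncomm_ring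
      rw [e]
      exact Submodule.add_mem _ ha hb
    | smul c a _ ha =>
      rw [Matrix.mul_smul, Matrix.smul_mul, ← smul_sub]
      exact Submodule.smul_mem _ _ ha
  | zero => rw [mul_zero, zero_mul, sub_zero]; exact Submodule.zero_mem _
  | add a b _ _ ha hb =>
    have e : (a + b) * Y - Y * (a + b) = (a * Y - Y * a) + (b * Y - Y * b) := by noncomm_ring
    rw [e]
    exact Submodule.add_mem _ ha hb
  | smul c a _ ha =>
    rw [Matrix.mul_smul, Matrix.smul_mul, ← smul_sub]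
    exact Submodule.smul_mem _ _ ha

/-- the matrix of the values of a functional -/
def fx (φ : Ω →ₗ[K] K) (M : Matrix ι ι Ω) : Matrix ι ι K := M.map φ

/-- the multiplication followed by a functional -/
def muf (φ : Ω →ₗ[K] K) (c : Ω) : Ω →ₗ[K] K := φ ∘ₗ LinearMap.mulLeft K c

lemma fx_mem {L : Submodule K (Matrix ι ι K)} {y : Matrix ι ι Ω} (hy : y ∈ spL Ω L) :
    ∀ φ : Ω →ₗ[K] K, fx φ y ∈ L := by
  rw [spL] at hy
  induction hy using Submodule.span_induction with
  | mem x hx =>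
    obtain ⟨l, hl, rfl⟩ := hx
    intro φ
    have h1 : fx φ (mx K Ω l) = φ 1 • l := by
      ext i j
      have h2 : fx φ (mx K Ω l) i j = φ (algebraMap K Ω (l i j)) := rfl
      rw [h2, Algebra.algebraMap_eq_smul_one, map_smul, Matrix.smul_apply, smul_eq_mul,
        smul_eq_mul, mul_comm]
    rw [h1]
    exact L.smul_mem _ hl
  | zero =>
    intro φ
    have h1 : fx φ (0 : Matrix ι ι Ω) = 0 := by
      ext i j
      exact map_zero φ
    rw [h1]
    exact L.zero_mem
  | add a b _ _ ha hb =>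
    intro φ
    have h1 : fx φ (a + b) = fx φ a + fx φ b := by
      ext i j
      exact map_add φ _ _
    rw [h1]
    exact L.add_mem (ha φ) (hb φ)
  | smul c a _ ha =>
    intro φ
    exact ha (muf φ c)

lemma trace_fx (φ : Ω →ₗ[K] K) (y : Matrix ι ι Ω) (l : Matrix ι ι K) :
    (fx φ y * l).trace = φ ((y * mx K Ω l).trace) := by
  rw [Matrix.trace, Matrix.trace, map_sum]
  refine Finset.sum_congr rfl fun i _ => ?_
  rw [Matrix.diag_apply, Matrix.diag_apply, Matrix.mul_apply, Matrix.mul_apply, map_sum]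
  refine Finset.sum_congr rfl fun j _ => ?_
  have h1 : fx φ y i j = φ (y i j) := rfl
  have h2 : mx K Ω l j i = algebraMap K Ω (l j i) := rfl
  rw [h1, h2, mul_comm (y i j), ← Algebra.smul_def, map_smul, smul_eq_mul, mul_comm]

lemma eq_zero_of_fx {y : Matrix ι ι Ω} (h : ∀ φ : Ω →ₗ[K] K, fx φ y = 0) : y = 0 := by
  ext i j
  rw [Matrix.zero_apply, ← Module.forall_dual_apply_eq_zero_iff K]
  intro φ
  exact congrFun (congrFun (h φ) i) j

lemma nd_ext {L : Submodule K (Matrix ι ι K)} (hnd : ND L) {y : Matrix ι ι Ω} (hy : y ∈ spL Ω L)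
    (h : ∀ l ∈ L, (y * mx K Ω l).trace = 0) : y = 0 := by
  refine eq_zero_of_fx (K := K) fun φ => hnd _ (fx_mem hy φ) fun l hl => ?_
  rw [trace_fx, h l hl, map_zero]

lemma mx_transpose (A : Matrix ι ι K) : mx K Ω Aᵀ = (mx K Ω A)ᵀ := rfl

lemma mx_det {β : Matrix ι ι K} (hβ : IsUnit β.det) : IsUnit (mx K Ω β).det := by
  have h3 : (mx K Ω β).det = algebraMap K Ω β.det := ((algebraMap K Ω).map_det β).symm
  rw [h3]
  exact hβ.map _

lemma spL_skew {β : Matrix ι ι K} {L : Submodule K (Matrix ι ι K)} (hsk : ∀ X ∈ L, Skew β X) :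
    ∀ X ∈ spL Ω L, Skew (mx K Ω β) X := by
  intro X hX
  rw [spL] at hX
  induction hX using Submodule.span_induction with
  | mem x hx =>
    obtain ⟨l, hl, rfl⟩ := hx
    have h1 : lᵀ * β + β * l = 0 := hsk l hl
    rw [Skew, ← mx_transpose, ← mx_mul, ← mx_mul, ← mx_add, h1, mx_zero]
  | zero => rw [Skew, Matrix.transpose_zero, Matrix.zero_mul, Matrix.mul_zero, add_zero]
  | add a b _ _ ha hb =>
    rw [Skew] at *
    rw [Matrix.transpose_add, Matrix.add_mul, Matrix.mul_add, add_add_add_comm, ha, hb, add_zero]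
  | smul c a _ ha =>
    rw [Skew] at *
    rw [Matrix.transpose_smul, Matrix.smul_mul, Matrix.mul_smul, ← smul_add, ha, smul_zero]

/-- **Operators orthogonal to the Lie algebra commute with the idempotents.** -/
theorem comm_idem [CharZero K] (hcard : Fintype.card ι = 2 * n) {β : Matrix ι ι K}
    (hβ : IsUnit β.det) {L : Submodule K (Matrix ι ι K)} (hnd : ND L)
    (hlie : ∀ X ∈ L, ∀ Y ∈ L, X * Y - Y * X ∈ L) (hsk : ∀ X ∈ L, Skew β X) {b : Matrix ι ι K}
    (hb : ∀ S : Submodule Ω ((Fin n → ι) → Ω), S ≤ altS ι Ω n →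
      (∀ Z ∈ L, ∀ t ∈ S, dv (mx K Ω Z) t ∈ S) → ∀ t ∈ S, dv (mx K Ω b) t ∈ S)
    (hbt : ∀ l ∈ L, (b * l).trace = 0) {Φ Z0 : Matrix ι ι Ω} {c : Ω} (hΦ : Φ * Φ = Φ)
    (hZ0 : Z0 ∈ spL Ω L) (hΦZ : Φ = Z0 + c • 1) : Φ * mx K Ω b = mx K Ω b * Φ := by
  have hΩ : CharZero Ω := charZero_of_injective_algebraMap (algebraMap K Ω).injective
  have hβ' : IsUnit (mx K Ω β).det := mx_det hβ
  have hs : Φᵀ * mx K Ω β + mx K Ω β * Φ = (2 * c) • mx K Ω β := by
    have h1 : Z0ᵀ * mx K Ω β + mx K Ω β * Z0 = 0 := spL_skew hsk Z0 hZ0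
    rw [hΦZ, Matrix.transpose_add, Matrix.transpose_smul, Matrix.transpose_one, Matrix.add_mul,
      Matrix.mul_add, add_add_add_comm, h1, zero_add, Matrix.smul_mul, Matrix.mul_smul,
      Matrix.one_mul, Matrix.mul_one, ← add_smul, two_mul]
  by_cases hc : 2 * c = 1
  · -- the main case
    rw [hc, one_smul] at hs
    have hΦL : ∀ X ∈ spL Ω L, Φ * X - X * Φ ∈ spL Ω L := by
      intro X hX
      have h1 : Φ * X - X * Φ = Z0 * X - X * Z0 := by
        rw [hΦZ, add_mul, mul_add, Matrix.smul_mul, Matrix.mul_smul, one_mul, mul_one]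
        abel
      rw [h1]
      exact spL_lie hlie Z0 hZ0 X hX
    obtain ⟨c1, c2, c3⟩ := comp_zero hΦ
    have hΦL' : ∀ X ∈ spL Ω L, (1 - Φ) * X - X * (1 - Φ) ∈ spL Ω L := by
      intro X hX
      have h1 : (1 - Φ) * X - X * (1 - Φ) = -(Φ * X - X * Φ) := by noncomm_ring
      rw [h1]
      exact Submodule.neg_mem _ (hΦL X hX)
    have hs' : (1 - Φ)ᵀ * mx K Ω β + mx K Ω β * (1 - Φ) = mx K Ω β := by
      rw [Matrix.transpose_sub, Matrix.transpose_one, Matrix.sub_mul, Matrix.mul_sub,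
        Matrix.one_mul, Matrix.mul_one]
      have h1 : mx K Ω β - Φᵀ * mx K Ω β + (mx K Ω β - mx K Ω β * Φ) =
          mx K Ω β + (mx K Ω β - (Φᵀ * mx K Ω β + mx K Ω β * Φ)) := by abel
      rw [h1, hs, sub_self, add_zero]
    have hD : ∀ S : Submodule Ω ((Fin n → ι) → Ω), S ≤ altS ι Ω n →
        (∀ Z ∈ spL Ω L, ∀ t ∈ S, dv Z t ∈ S) → ∀ t ∈ S, dv (mx K Ω b) t ∈ S :=
      fun S hS h => hb S hS fun Z hZ => h _ (mx_mem hZ)
    have hbt' : ∀ z ∈ spL Ω L, (mx K Ω b * z).trace = 0 := by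
      intro z hz
      rw [spL] at hz
      induction hz using Submodule.span_induction with
      | mem x hx =>
        obtain ⟨l, hl, rfl⟩ := hx
        rw [← mx_mul]
        have h1 : (mx K Ω (b * l)).trace = algebraMap K Ω (b * l).trace := by
          rw [Matrix.trace, Matrix.trace, map_sum]
          rfl
        rw [h1, hbt l hl, map_zero]
      | zero => rw [mul_zero, Matrix.trace_zero]
      | add x y _ _ hx hy => rw [mul_add, Matrix.trace_add, hx, hy, add_zero]
      | smul r x _ hx => rw [Matrix.mul_smul, Matrix.trace_smul, hx, smul_zero]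
    have key : ∀ P : Matrix ι ι Ω, P * P = P → (∀ X ∈ spL Ω L, P * X - X * P ∈ spL Ω L) →
        Pᵀ * mx K Ω β + mx K Ω β * P = mx K Ω β → P * mx K Ω b * (1 - P) = 0 := by
      intro P hP hPL hPs
      obtain ⟨a, ha, ha1, ha2⟩ := exists_top hP (spL Ω L) (rank_idem hP hβ' hPs hcard)
      have h1 : P * mx K Ω b * (1 - P) ∈ spL Ω L := by
        rcases Nat.eq_zero_or_pos n with h0 | h0
        · subst h0
          have : IsEmpty ι := Fintype.card_eq_zero_iff.1 (by rw [hcard])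
          have h2 : P * mx K Ω b * (1 - P) = 0 := Subsingleton.elim _ _
          rw [h2]
          exact Submodule.zero_mem _
        · exact lower_mem hP (spL_lie hlie) hPL h0 ha ha1 ha2 hD
      refine nd_ext hnd h1 fun l hl => ?_
      have h2 := (pl_mem hP hPL (mx_mem (Ω := Ω) hl)).2
      have h3 := hbt' _ h2
      have h4 : (P * mx K Ω b * (1 - P) * mx K Ω l).trace =
          (mx K Ω b * ((1 - P) * mx K Ω l * P)).trace := by
        have e1 : P * mx K Ω b * (1 - P) * mx K Ω l = P * (mx K Ω b * (1 - P) * mx K Ω l) := by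
          simp only [Matrix.mul_assoc]
        rw [e1, Matrix.trace_mul_comm]
        simp only [Matrix.mul_assoc]
      rw [h4, h3]
    have h1 := key Φ hΦ hΦL hs
    have h2 := key (1 - Φ) c3 hΦL' hs'
    rw [mul_sub, mul_one, sub_eq_zero] at h1
    have h3 : (1 : Matrix ι ι Ω) - (1 - Φ) = Φ := by abel
    rw [h3, sub_mul, sub_mul, one_mul, sub_eq_zero] at h2
    rw [h1, h2]
  · -- the scalar case
    have h1 : Φᵀ * mx K Ω β = mx K Ω β * ((2 * c) • 1 - Φ) := by
      rw [mul_sub, Matrix.mul_smul, mul_one, ← hs]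
      abel
    have h2 : Φᵀ * (Φᵀ * mx K Ω β) = Φᵀ * mx K Ω β := by
      rw [← Matrix.mul_assoc, ← Matrix.transpose_mul, hΦ]
    have h3 : mx K Ω β * (((2 * c) • 1 - Φ) * ((2 * c) • 1 - Φ)) =
        mx K Ω β * ((2 * c) • 1 - Φ) := by
      rw [← Matrix.mul_assoc, ← h1, Matrix.mul_assoc, ← h1, h2]
    have h4 : ((2 * c) • (1 : Matrix ι ι Ω) - Φ) * ((2 * c) • 1 - Φ) = (2 * c) • 1 - Φ := by
      have h5 := congrArg ((mx K Ω β)⁻¹ * ·) h3
      simp only [← Matrix.mul_assoc, Matrix.nonsing_inv_mul _ hβ', Matrix.one_mul] at h5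
      exact h5
    have h5 : (2 * (2 * c - 1)) • Φ = ((2 * c) * (2 * c - 1)) • (1 : Matrix ι ι Ω) := by
      rw [sub_mul, mul_sub, mul_sub, hΦ, Matrix.smul_mul, Matrix.mul_smul, Matrix.mul_smul,
        Matrix.smul_mul, one_mul, mul_one, one_mul, smul_smul] at h4
      have e1 : (2 * (2 * c - 1)) • Φ = (2 * c) • Φ + (2 * c) • Φ - Φ - Φ := by
        rw [← add_smul, show 2 * (2 * c - 1) = 2 * c + 2 * c - 1 - 1 by ring, sub_smul, sub_smul,
          one_smul]
      have e2 : ((2 * c) * (2 * c - 1)) • (1 : Matrix ι ι Ω) =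
          (2 * c * (2 * c)) • 1 - (2 * c) • 1 := by
        rw [← sub_smul]
        congr 1
        ring
      rw [e1, e2]
      have e3 : (2 * c * (2 * c)) • (1 : Matrix ι ι Ω) - (2 * c) • 1 -
          ((2 * c) • Φ + (2 * c) • Φ - Φ - Φ) =
          ((2 * c * (2 * c)) • 1 - (2 * c) • Φ - ((2 * c) • Φ - Φ)) - ((2 * c) • 1 - Φ) := by abel
      rw [h4, sub_self] at e3
      exact (sub_eq_zero.1 e3).symm
    have h6 : Φ = c • 1 := by
      have h7 : (2 * (2 * c - 1)) ≠ 0 := mul_ne_zero two_ne_zero (sub_ne_zero.2 hc)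
      have h8 := congrArg (fun M => (2 * (2 * c - 1))⁻¹ • M) h5
      simp only [smul_smul, inv_mul_cancel₀ h7, one_smul] at h8
      rw [h8]
      congr 1
      have h9 : 2 * c - 1 ≠ 0 := sub_ne_zero.2 hc
      field_simp
    rw [h6, Matrix.smul_mul, Matrix.mul_smul, one_mul, mul_one]

end Run7.h877.TS
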