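import Pool.Agent.Run7.h877.TS.Two
import Pool.Agent.Run7.h877.TS.Blk
import Pool.Agent.Run7.h877.TS.Lin
import Pool.Agent.Run7.h877.MT.SemiT

/-!
# Operators which kill the alternating Tate forms in both halves of the variables
-/

set_option autoImplicit false
set_option linter.unusedSectionVars false

namespace Run7.h877.TS

open Matrix Module Filter Topology
open Run7.h877.MT

variable {ι : Type} [Fintype ι] [DecidableEq ι] {p : ℕ} [hp : Fact p.Prime] {n : ℕ}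
  {Γ : Type} [Group Γ] [TopologicalSpace Γ] [IsTopologicalGroup Γ] [CompactSpace Γ]
  {ρ : Γ →* Matrix ι ι ℚ_[p]} {ν : Γ →* ℚ_[p]}

lemma dm_one' {K : Type} [Field K] (s : K) : dm n (s • (1 : Matrix ι ι K)) = (s * n) • 1 := by
  refine matrix_ext_vec fun a => ?_
  rw [dm_mulVec, dv_smul, dv_one, smul_smul, Matrix.smul_mulVec, Matrix.one_mulVec]

lemma dv_neg {K : Type} [Field K] (B : Matrix ι ι K) (a : (Fin n → ι) → K) :
    dv (-B) a = -dv B a := by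
  have h := dv_smul (-1 : K) B a
  rw [neg_one_smul, neg_one_smul] at h
  exact h

lemma dm_sub {K : Type} [Field K] (A B : Matrix ι ι K) : dm n (A - B) = dm n A - dm n B := by
  refine matrix_ext_vec fun a => ?_
  rw [dm_mulVec, Matrix.sub_mulVec, dm_mulVec, dm_mulVec, sub_eq_add_neg, dv_add, dv_neg,
    ← sub_eq_add_neg]

/-- Operators which commute with the derivatives commute with the group. -/
lemma comm_tm {F : Matrix (Fin n → ι) (Fin n → ι) ℚ_[p]}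
    (hF : ∀ Z ∈ LT 1 ρ ν, F * dm n Z = dm n Z * F) :
    ∀ g ∈ nearGroup ρ ν, F * tm n (ρ g) = tm n (ρ g) * F := by
  intro g hg
  obtain ⟨Y, y, φ, hφ, hY, hy⟩ := exists_limit ρ ν hg
  have h1 := hF _ (fun n k a hk ha => limit_kills ρ ν hφ hY hy hk ha)
  have hr : (0 : ℝ) ≤ ((p : ℝ)⁻¹) ^ 2 := by positivity
  have hr1 : ((p : ℝ)⁻¹) ^ 2 ≤ 1 := pow_le_one₀ (inv_pos.2 p_pos).le p_inv_lt.le
  refine comm_of_limit (tm_near hr hr1 hg.1.1 n) (tm_limit hφ hY n) ?_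
  rw [dm_sub, dm_one', mul_sub, sub_mul, Matrix.mul_smul, Matrix.smul_mul, mul_one, one_mul] at h1
  exact sub_left_injective h1

/-- Subspaces which are stable under the derivatives are stable under a subgroup of finite
index. -/
lemma stab_tm (hρ : Continuous ρ) (hν : Continuous ν)
    {W : Submodule ℚ_[p] ((Fin n → ι) → ℚ_[p])} (hW : ∀ Z ∈ LT 1 ρ ν, ∀ x ∈ W, dv Z x ∈ W) :
    ∃ Δ : Subgroup Γ, Δ.FiniteIndex ∧ ∀ g ∈ Δ, ∀ x ∈ W, tm n (ρ g) *ᵥ x ∈ W := by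
  obtain ⟨W', hc⟩ := W.exists_isCompl
  let P0 : End ℚ_[p] ((Fin n → ι) → ℚ_[p]) := W.subtype ∘ₗ Submodule.projectionOnto W W' hc
  let P := LinearMap.toMatrix' P0
  have hPv : ∀ v, P *ᵥ v = P0 v := fun v => LinearMap.toMatrix'_mulVec P0 v
  have hPm : ∀ v, P *ᵥ v ∈ W := by
    intro v
    rw [hPv]
    exact (Submodule.projectionOnto W W' hc v).2
  have hPf : ∀ v ∈ W, P *ᵥ v = v := by
    intro v hv
    rw [hPv]
    exact congrArg Subtype.val (Submodule.projectionOnto_apply_left hc ⟨v, hv⟩)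
  have hPP : P * P = P := by
    refine matrix_ext_vec fun a => ?_
    rw [← Matrix.mulVec_mulVec, hPf _ (hPm a)]
  have hst : ∀ M : Matrix (Fin n → ι) (Fin n → ι) ℚ_[p],
      (1 - P) * M * P = 0 ↔ ∀ x ∈ W, M *ᵥ x ∈ W := by
    intro M
    constructor
    · intro h x hx
      have h1 := congrArg (fun N => N *ᵥ x) h
      simp only [← Matrix.mulVec_mulVec] at h1
      rw [hPf x hx, Matrix.sub_mulVec, Matrix.one_mulVec, Matrix.zero_mulVec, sub_eq_zero] at h1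
      rw [h1]
      exact hPm _
    · intro h
      refine matrix_ext_vec fun a => ?_
      rw [← Matrix.mulVec_mulVec, ← Matrix.mulVec_mulVec, Matrix.sub_mulVec, Matrix.one_mulVec,
        hPf _ (h _ (hPm a)), sub_self, Matrix.zero_mulVec]
  obtain ⟨C1, hC1, hb1⟩ := exists_bd P
  obtain ⟨C2, hC2, hb2⟩ := exists_bd (1 - P)
  obtain ⟨C, hC⟩ : ∃ C, C = max C1 C2 := ⟨_, rfl⟩
  have hC0 : 0 ≤ C := by rw [hC]; exact le_max_of_le_left hC1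
  have hbP : Bd C P := hb1.mono (by rw [hC]; exact le_max_left _ _)
  have hbP' : Bd C (1 - P) := hb2.mono (by rw [hC]; exact le_max_right _ _)
  have hpi : (0 : ℝ) < (p : ℝ)⁻¹ := inv_pos.2 p_pos
  obtain ⟨r, hr⟩ : ∃ r, r = (p : ℝ)⁻¹ / (C + 1) := ⟨_, rfl⟩
  have hC1' : 0 < C + 1 := by linarith
  have hr0 : 0 < r := by rw [hr]; exact div_pos hpi hC1'
  have hr1 : r ≤ 1 := by
    rw [hr, div_le_one hC1']
    have := p_inv_lt (p := p)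
    linarith
  have hCr : C * r < (p : ℝ)⁻¹ := by
    rw [hr, mul_div_assoc', div_lt_iff₀ hC1', mul_comm]
    exact mul_lt_mul_of_pos_left (by linarith) hpi
  obtain ⟨Δ, hΔ, hΔn, hΔr⟩ := exists_near ρ hρ ν hν hr0
  refine ⟨Δ, hΔ, fun g hg => (hst _).1 ?_⟩
  obtain ⟨Y, y, φ, hφ, hY, hy⟩ := exists_limit ρ ν (hΔn hg)
  refine stab_of_limit hr0.le hr1 hC0 hCr hPP hbP hbP' (tm_near hr0.le hr1 (hΔr g hg) n)
    (tm_limit hφ hY n) ((hst _).2 fun x hx => ?_)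
  have h1 := hW _ (fun n k a hk ha => limit_kills ρ ν hφ hY hy hk ha) x hx
  rw [← dm_mulVec, dm_sub, dm_one', Matrix.sub_mulVec, Matrix.smul_mulVec, Matrix.one_mulVec] at h1
  have h2 := W.add_mem h1 (W.smul_mem ((((1 : ℕ) : ℚ_[p]) * y () () / 2) * (n : ℚ_[p])) hx)
  rwa [sub_add_cancel] at h2

section main

variable {β : Matrix ι ι ℚ_[p]} (hρ : Continuous ρ) (hν : Continuous ν)
  (hβ : IsUnit β.det) (hsim : ∀ g, (ρ g)ᵀ * β * ρ g = ν g ^ 1 • β)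
  (hsemi : ∀ Δ : Subgroup Γ, Δ.FiniteIndex → ∀ W : Submodule ℚ_[p] ((Fin n → ι) → ℚ_[p]),
    W ≤ altS ι ℚ_[p] n → (∀ g ∈ Δ, ∀ x ∈ W, tm n (ρ g) *ᵥ x ∈ W) →
      ∃ W' : Submodule ℚ_[p] ((Fin n → ι) → ℚ_[p]), W' ≤ altS ι ℚ_[p] n ∧ W ⊓ W' = ⊥ ∧
        altS ι ℚ_[p] n ≤ W ⊔ W' ∧ ∃ Δ' : Subgroup Γ, Δ'.FiniteIndex ∧
          ∀ g ∈ Δ', ∀ x ∈ W', tm n (ρ g) *ᵥ x ∈ W')

include hsim in
/-- Equivariant operators give Tate forms. -/
lemma opf_tate {F : Matrix (Fin n → ι) (Fin n → ι) ℚ_[p]} {Δ : Subgroup Γ} (hΔ : Δ.FiniteIndex)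
    (h : ∀ g ∈ Δ, F * tm n (ρ g) = tm n (ρ g) * F) : IsTate ρ ν n (opf β F) := by
  refine ⟨Δ, hΔ, fun g hg v => ?_⟩
  have h1 := hsim g
  rw [pow_one] at h1
  rw [ev_ga, ga_opf h1 (h g hg), ev_smul_left]

include hβ hsim in
/-- Equivariant operators commute with the derivatives. -/
lemma comm_dm {F : Matrix (Fin n → ι) (Fin n → ι) ℚ_[p]} {Δ : Subgroup Γ} (hΔ : Δ.FiniteIndex)
    (h : ∀ g ∈ Δ, F * tm n (ρ g) = tm n (ρ g) * F) :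
    ∀ Z ∈ LT 1 ρ ν, F * dm n Z = dm n Z * F := fun Z hZ =>
  comm_of_opf hβ (LT_skew hsim hZ) (hZ (n + n) n _ (by ring) (opf_tate hsim hΔ h))

include hρ hν hβ hsim hsemi in
/-- The alternating forms are semisimple for the derivatives. -/
lemma semi_dv (W : Submodule ℚ_[p] ((Fin n → ι) → ℚ_[p])) (hWa : W ≤ altS ι ℚ_[p] n)
    (hW : ∀ Z ∈ LT 1 ρ ν, ∀ x ∈ W, dv Z x ∈ W) :
    ∃ W' : Submodule ℚ_[p] ((Fin n → ι) → ℚ_[p]), W' ≤ altS ι ℚ_[p] n ∧ W ⊓ W' = ⊥ ∧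
      altS ι ℚ_[p] n ≤ W ⊔ W' ∧ ∀ Z ∈ LT 1 ρ ν, ∀ x ∈ W', dv Z x ∈ W' := by
  obtain ⟨Δ, hΔ, hst⟩ := stab_tm hρ hν hW
  obtain ⟨W', hW'a, hdis, hcod, Δ', hΔ', hst'⟩ := hsemi Δ hΔ W hWa hst
  refine ⟨W', hW'a, hdis, hcod, ?_⟩
  have hn0 : ((Nat.factorial n : ℕ) : ℚ_[p]) ≠ 0 := by exact_mod_cast Nat.factorial_ne_zero n
  -- the projector
  let U := W.comap (altS ι ℚ_[p] n).subtype
  let U' := W'.comap (altS ι ℚ_[p] n).subtype
  have hc : IsCompl U U' := by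
    refine IsCompl.of_le ?_ ?_
    · rintro x ⟨hx, hx'⟩
      have h5 : x.1 ∈ W ⊓ W' := ⟨hx, hx'⟩
      rw [hdis, Submodule.mem_bot] at h5
      exact (Submodule.mem_bot _).2 (Subtype.ext h5)
    · intro x _
      obtain ⟨y, hy, z, hz, h6⟩ := Submodule.mem_sup.1 (hcod x.2)
      exact Submodule.mem_sup.2 ⟨⟨y, hWa hy⟩, hy, ⟨z, hW'a hz⟩, hz, Subtype.ext h6⟩
  let Q : Module.End ℚ_[p] (altS ι ℚ_[p] n) := U.subtype ∘ₗ Submodule.projectionOnto U U' hc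
  have hQ : ∀ a ∈ U, ∀ b ∈ U', Q (a + b) = a := by
    intro a ha b hb
    change ((Submodule.projectionOnto U U' hc (a + b) : U) : altS ι ℚ_[p] n) = a
    rw [map_add, Submodule.projectionOnto_apply_of_mem_right hc hb, add_zero]
    exact congrArg Subtype.val (Submodule.projectionOnto_apply_left hc ⟨a, ha⟩)
  have hex : ∀ v, ∃ a ∈ U, ∃ b ∈ U', a + b = v := fun v =>
    Submodule.mem_sup.1 (by rw [hc.sup_eq_top]; trivial)
  have hcomm : ∀ g ∈ Δ ⊓ Δ', maE Q * tm n (ρ g) = tm n (ρ g) * maE Q := by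
    intro g hg
    refine matrix_ext_vec fun x => ?_
    rw [← Matrix.mulVec_mulVec, ← Matrix.mulVec_mulVec, maE_mulVec, maE_mulVec]
    obtain ⟨a, ha, b, hb, hab⟩ := hex (asE ι ℚ_[p] n x)
    have h1 : asE ι ℚ_[p] n (tm n (ρ g) *ᵥ x) =
        (⟨tm n (ρ g) *ᵥ a.1, hWa (hst g hg.1 _ ha)⟩ : altS ι ℚ_[p] n) +
          ⟨tm n (ρ g) *ᵥ b.1, hW'a (hst' g hg.2 _ hb)⟩ := by
      apply Subtype.ext
      have h2 : As ι ℚ_[p] n *ᵥ x = a.1 + b.1 := congrArg Subtype.val hab.symm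
      rw [asE_apply, Matrix.mulVec_mulVec, As_tm, ← Matrix.mulVec_mulVec, h2, Matrix.mulVec_add]
      rfl
    rw [h1, ← hab, hQ a ha b hb, hQ _ (hst g hg.1 _ ha) _ (hst' g hg.2 _ hb)]
  have hfi : (Δ ⊓ Δ').FiniteIndex := inferInstance
  have hL := comm_dm hβ hsim hfi hcomm
  intro Z hZ x hx
  have hxa : IsAlt x := hW'a hx
  have h1 := congrArg (fun M => M *ᵥ x) (hL Z hZ)
  simp only [← Matrix.mulVec_mulVec] at h1
  rw [dm_mulVec, maE_mulVec, maE_mulVec] at h1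
  have h2 : asE ι ℚ_[p] n x = ((Nat.factorial n : ℕ) : ℚ_[p]) • (⟨x, hxa⟩ : altS ι ℚ_[p] n) :=
    asE_alt ⟨x, hxa⟩
  have h3 : asE ι ℚ_[p] n (dv Z x) =
      ((Nat.factorial n : ℕ) : ℚ_[p]) • (⟨dv Z x, IsAlt.dv hxa Z⟩ : altS ι ℚ_[p] n) :=
    asE_alt ⟨dv Z x, IsAlt.dv hxa Z⟩
  have h4 : Q (⟨x, hxa⟩ : altS ι ℚ_[p] n) = 0 := by
    have h5 := hQ 0 (Submodule.zero_mem _) ⟨x, hxa⟩ hx
    rwa [zero_add] at h5
  rw [h2, h3, map_smul, map_smul, h4, smul_zero] at h1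
  have h5 : ((((Nat.factorial n : ℕ) : ℚ_[p]) • Q ⟨dv Z x, IsAlt.dv hxa Z⟩ : altS ι ℚ_[p] n) :
      (Fin n → ι) → ℚ_[p]) = 0 := by
    rw [h1]
    exact Matrix.mulVec_zero _
  have h6 : Q ⟨dv Z x, IsAlt.dv hxa Z⟩ = 0 := by
    have h7 : ((Nat.factorial n : ℕ) : ℚ_[p]) • Q ⟨dv Z x, IsAlt.dv hxa Z⟩ = 0 := Subtype.ext h5
    exact (smul_eq_zero.1 h7).resolve_left hn0
  obtain ⟨a, ha, b, hb, hab⟩ := hex ⟨dv Z x, IsAlt.dv hxa Z⟩
  rw [← hab, hQ a ha b hb] at h6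
  rw [h6, zero_add] at hab
  have h8 : dv Z x = b.1 := congrArg Subtype.val hab.symm
  rw [h8]
  exact hb

include hρ hν hβ hsim hsemi in
/-- **Density.** -/
theorem dens_group {Ω : Type} [Field Ω] [Algebra ℚ_[p] Ω] {D : Matrix ι ι ℚ_[p]}
    (hDs : Skew β D) (hD : ∀ f : (Fin (n + n) → ι) → ℚ_[p], BiAlt f → IsTate ρ ν n f → Kills D f)
    {S : Submodule Ω ((Fin n → ι) → Ω)} (hS : S ≤ altS ι Ω n)
    (hSL : ∀ Z ∈ LT 1 ρ ν, ∀ t ∈ S, dv (mx ℚ_[p] Ω Z) t ∈ S) :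
    ∀ t ∈ S, dv (mx ℚ_[p] Ω D) t ∈ S := by
  refine dens_ext (LT 1 ρ ν : Set (Matrix ι ι ℚ_[p]))
    (fun W hWa hW => semi_dv hρ hν hβ hsim hsemi W hWa hW) D (fun F h1 h2 h3 => ?_) hS hSL
  refine comm_of_opf hβ hDs (hD _ (biAlt_opf h1 h2) ?_)
  exact opf_tate hsim (nearGroup_finiteIndex ρ hρ ν hν) (comm_tm h3)

include hρ hν hβ hsim hsemi in
/-- **The decomposition.** -/
theorem split (hcard : Fintype.card ι = 2 * n) (hss : SemisimpleRep ρ)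
    (hpink : ∀ b : Matrix ι ι ℚ_[p], (∀ (Ω : Type) [Field Ω] [Algebra ℚ_[p] Ω]
      (Φ Z0 : Matrix ι ι Ω) (c : Ω), Φ * Φ = Φ → Z0 ∈ spL Ω (LT 1 ρ ν) → Φ = Z0 + c • 1 →
        Φ * mx ℚ_[p] Ω b = mx ℚ_[p] Ω b * Φ) →
      ∃ Δ : Subgroup Γ, Δ.FiniteIndex ∧ ∀ g ∈ Δ, b * ρ g = ρ g * b)
    {D : Matrix ι ι ℚ_[p]} (hDs : Skew β D)
    (hD : ∀ f : (Fin (n + n) → ι) → ℚ_[p], BiAlt f → IsTate ρ ν n f → Kills D f) :
    ∃ l ∈ LT 1 ρ ν, ∃ c, D = l + c ∧ ∃ Δ : Subgroup Γ, Δ.FiniteIndex ∧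
      ∀ g ∈ Δ, c * ρ g = ρ g * c := by
  have hnd := LT_nd hβ hsim hss
  obtain ⟨Q, hQ1, -, hQ3⟩ := exists_proj hnd
  refine ⟨Q D, hQ1 D, D - Q D, by abel, hpink _ fun Ω _ _ Φ Z0 c hΦ hZ0 hΦZ => ?_⟩
  have hsk : ∀ X ∈ LT 1 ρ ν, Skew β X := fun X hX => LT_skew hsim hX
  have hbs : Skew β (D - Q D) := by
    have h1 := hsk _ (hQ1 D)
    rw [Skew] at *
    rw [Matrix.transpose_sub, Matrix.sub_mul, Matrix.mul_sub]
    have h2 : Dᵀ * β - (Q D)ᵀ * β + (β * D - β * Q D) =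
        (Dᵀ * β + β * D) - ((Q D)ᵀ * β + β * Q D) := by abel
    rw [h2, hDs, h1, sub_zero]
  refine comm_idem (n := n) hcard hβ hnd (LT_lie 1 ρ ν) hsk (b := D - Q D) ?_ ?_ hΦ hZ0 hΦZ
  · intro S hS hSL
    refine dens_group hρ hν hβ hsim hsemi hbs (fun f hf hft => (hD f hf hft).sub ?_) hS hSL
    exact hQ1 D (n + n) n f (by ring) hft
  · intro l hl
    rw [sub_mul, Matrix.trace_sub, hQ3 D l hl, sub_self]

end main

end Run7.h877.TS
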