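import Pool.Agent.Run7.h877.TS.Sem
import Pool.Agent.Run7.h877.TS.Grp

/-!
# Tate classes on the square decide the Mumford-Tate conjecture
-/

set_option autoImplicit false
set_option linter.unusedSectionVars false

open CategoryTheory AlgebraicGeometry TensorProduct

universe u

namespace Run7.h877.TS

open Module Matrix
open Pool.Agent.H914 hiding ev
open Pool.Agent.H914.VarClass Pool.Agent.H914.VarClass.Obj
  Pool.Agent.H914.WeilCohomology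
open Pool.Agent.Y133.Half (pw prj)
open Pool.Agent.Y121.AH hiding IsHodge
open Pool.Agent.N996.BP (IsPHS)
open Pool.Agent.N996.BP.Geo (tauT Fx lop cc)
open Pool.Agent.N996.FP.Geo (End1 Cen1)
open Run7.h877.MT Run7.h877.TX

variable {k : Type u} [Field k] {𝒱 : VarClass k} {ops : CycleOps 𝒱}

variable {T : Pool.Agent.Y121.AH.HodgeTheory ops} {X : 𝒱.Obj} {ℓ : ℕ} [Fact ℓ.Prime]
  [Algebra T.W.K ℚ_[ℓ]] {Γ : Type} [Group Γ] [TopologicalSpace Γ] [IsTopologicalGroup Γ]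
  [CompactSpace Γ] (G : GAct T X ℓ Γ) {ι : Type} [Fintype ι] [DecidableEq ι]

section Main

variable {e f x : ι → T.W.H X} {D : X.Cycles} {ψ : LinearMap.BilinForm T.W.K (T.W.H X)} {d : ℕ}
  (hP : IsPHS (tauT T) (Fx T X) ψ d)
  (hf : ∀ a b, T.W.tr X (e a * f b) = if a = b then 1 else 0)
  (he1 : ∀ a, e a ∈ T.W.gr X 1) (hspan : ∀ z ∈ T.W.gr X 1, ∃ v, vec e v = z)
  (hG : G.HT) (hnt : ∀ n, Nontrivial (T.W.H (pw X n)))
  (h0 : 0 < X.dim) (hD : X.IsCyc 1 D)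
  (hd : IsDual T.W X x (fun a => lam T.W X D (e a)) (2 * (X.dim - 1) + 1))
  (hxs : ∀ z ∈ T.W.gr X 1, ∃ v, vec x v = z)

/-- The Lie algebra of the Tate forms of the open subgroup. -/
noncomputable def LU (U : Subgroup Γ) : Submodule ℚ_[ℓ] (Matrix ι ι ℚ_[ℓ]) :=
  LT 1 ((G.rep hf he1 hspan).comp U.subtype) (G.χ.comp U.subtype)

/-- **The idempotents of the Lie algebra generate it**, in coordinates. -/
def PinkC (U : Subgroup Γ) : Prop :=
  ∀ b : Matrix ι ι ℚ_[ℓ], (∀ (Ω : Type) [Field Ω] [Algebra ℚ_[ℓ] Ω]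
    (Φ Z0 : Matrix ι ι Ω) (c : Ω), Φ * Φ = Φ → Z0 ∈ spL Ω (LU G hf he1 hspan U) →
      Φ = Z0 + c • 1 → Φ * mx ℚ_[ℓ] Ω b = mx ℚ_[ℓ] Ω b * Φ) →
    ∃ Δ : Subgroup Γ, Δ.FiniteIndex ∧ ∀ g ∈ Δ, b * G.mat e f g = G.mat e f g * b

variable {U : Subgroup Γ}
    (hsim : ∀ g ∈ U, (G.mat e f g)ᵀ * cM ℚ_[ℓ] (psiM T ψ e) * G.mat e f g =
      G.χ g ^ 1 • cM ℚ_[ℓ] (psiM T ψ e))

include hG hnt h0 hD hd hxs hsim in
/-- **The theorem in coordinates.** -/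
theorem conj_sq (hgen : Algebra.adjoin T.W.K (T.W.gr X 1 : Set (T.W.H X)) = ⊤)
    (hcard : Fintype.card ι = 2 * X.dim) (hU : IsOpen (U : Set Γ)) (hS : G.Semi)
    (hS' : SemiAll G) (hT1 : G.TH 1 1) (hTg : G.TH 1 X.dim) (hpink : PinkC G hf he1 hspan U)
    (hcen : ∀ z : Matrix ι ι ℚ, IsHodge (HS hP hf he1 hspan) 1 (bil (psiM T ψ e) z) →
      (∀ ε : Matrix ι ι ℚ, IsHodge (HS hP hf he1 hspan) 1 (bil (psiM T ψ e) ε) →
        z * ε = ε * z) → KH' hP hf he1 hspan z → ∀ (n m : ℕ), n + 1 = 2 * m →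
      ∀ (t : (Fin (n + 1) → ι) → ℚ_[ℓ]) (Δ : Subgroup Γ), Δ.FiniteIndex →
        (∀ g ∈ Δ, ∀ v : Fin (n + 1) → ι → ℚ_[ℓ],
          ev t (fun s => G.mat e f g *ᵥ v s) = G.χ g ^ m * ev t v) →
        MT.Kills (cM ℚ_[ℓ] z) t) (n m : ℕ) (hm : 2 * m = n * 1)
    {t : (Fin n → ι) → ℚ_[ℓ]} (ht : G.Opn e f m t) :
    t ∈ Submodule.span ℚ_[ℓ] (cst ℚ_[ℓ] '' {a | IsHodge (HS hP hf he1 hspan) m a}) := by
  have hcs := compact_sub hU
  let R := reaL G hP hf he1 hspan hsim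
  let A : ∀ n : ℕ, Set ((Fin n → ι) → ℚ) := fun n => {a | ∀ m : ℕ, 2 * m = n * 1 →
    IsHodge (HS hP hf he1 hspan) m a ∧ IsTate R.ρ R.μ m (cst ℚ_[ℓ] a)}
  have hA : ∀ {n m : ℕ}, n + 1 = 2 * m → ∀ a : (Fin (n + 1) → ι) → ℚ,
      IsHodge (HS hP hf he1 hspan) m a → a ∈ A (n + 1) := by
    intro n m hnm a ha m' hm'
    have h1 : m' = m := by omega
    subst h1
    exact ⟨ha, isTate_of_opn G hP hf he1 hspan hsim
      (hodge_opn G hP hf he1 hspan hG hnt h0 hD hd hxs hnm ha)⟩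
  have hβA : bil (HS hP hf he1 hspan).β 1 ∈ A 2 :=
    hA (n := 1) (m := 1) rfl _ (beta_hodge (HS hP hf he1 hspan))
  have hAH : ∀ n m : ℕ, 2 * m = n * (HS hP hf he1 hspan).w → ∀ a ∈ A n,
      IsHodge (HS hP hf he1 hspan) m a := fun n m hm a ha => (ha m hm).1
  have hAT : ∀ n m : ℕ, 2 * m = n * (HS hP hf he1 hspan).w → ∀ a ∈ A n,
      IsTate R.ρ R.μ m (cst ℚ_[ℓ] a) := fun n m hm a ha => (ha m hm).2
  have hsimU : ∀ g, (R.ρ g)ᵀ * cM ℚ_[ℓ] (HS hP hf he1 hspan).β * R.ρ g =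
      R.μ g ^ 1 • cM ℚ_[ℓ] (HS hP hf he1 hspan).β := fun g => hsim g g.2
  have h2 : ∀ t : (Fin 2 → ι) → ℚ_[ℓ], IsTate R.ρ R.μ 1 t →
      t ∈ Submodule.span ℚ_[ℓ] (cst ℚ_[ℓ] '' (A 2)) := by
    intro t ht
    obtain ⟨Δ, hΔ, h1⟩ := of_isTate G hP hf he1 hspan hsim hU ht
    have h2 := form_span G hP hf he1 hspan hG hnt h0 hD hd hxs (n := 1) (m := 1) rfl hT1 hΔ h1
    refine Submodule.span_mono ?_ h2
    rintro _ ⟨a, ha, rfl⟩
    exact ⟨a, hA (n := 1) (m := 1) rfl a ha.1, rfl⟩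
  have hLT : ∀ Z ∈ LT 1 R.ρ R.μ, Z ∈ KF ℚ_[ℓ] 1 A := fun Z hZ =>
    LT_le (H := HS hP hf he1 hspan) hAT hZ
  have hKL : ∀ B ∈ KF ℚ_[ℓ] 1 A, KL hP hf he1 hspan ℓ B := by
    intro B hB n m hm a ha
    rcases n with _ | n
    · intro v
      exact Finset.sum_eq_zero fun s _ => s.elim0
    · exact hB (n + 1) m hm a (hA (n := n) (m := m) (by omega) a ha)
  have hKF : ∀ B ∈ KF ℚ_[ℓ] 1 A, B ∈ LT 1 R.ρ R.μ := by
    intro B hB
    have hBs : Skew (cM ℚ_[ℓ] (HS hP hf he1 hspan).β) B :=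
      skew_of_KF (H := HS hP hf he1 hspan) hβA hB
    obtain ⟨l, hl, c, hc, Δ, hΔ, hcΔ⟩ := split (n := X.dim) R.continuous_rho R.continuous_mu
      (beta_unit' ℚ_[ℓ] (HS hP hf he1 hspan)) hsimU (by
        intro Δ hΔ W hWa hWs
        obtain ⟨W', h3, h4, h5, Δ', hΔ', h6⟩ := semi_alt G hf he1 hspan hnt hgen hG rfl hcard hS'
          (finiteIndex_map hU hΔ) W (by
            rintro _ ⟨g, hg, rfl⟩ x hx
            exact hWs g hg x hx)
        refine ⟨W', h3, h4, h5, Δ'.subgroupOf U, inferInstance, fun g hg x hx => ?_⟩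
        exact h6 g (Subgroup.mem_subgroupOf.1 hg) x hx) hcard
      (semi_of G hP hf he1 hspan hsim hU hS) (by
        intro b hb
        obtain ⟨Δ', hΔ', h6⟩ := hpink b (fun Ω _ _ Φ Z0 c h7 h8 h9 => hb Ω Φ Z0 c h7 h8 h9)
        refine ⟨Δ'.subgroupOf U, inferInstance, fun g hg => ?_⟩
        exact h6 g (Subgroup.mem_subgroupOf.1 hg)) hBs (by
        intro t ht htt
        obtain ⟨Δ, hΔ, h1⟩ := of_isTate G hP hf he1 hspan hsim hU htt
        exact tate_kills G hP hf he1 hspan hnt hgen hG rfl hcard hTg hU hsim (hKL B hB) ht hΔ h1)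
    subst hc
    refine (LT 1 R.ρ R.μ).add_mem hl ?_
    have hcK : c ∈ KF ℚ_[ℓ] 1 A := by
      have h3 := (KF ℚ_[ℓ] 1 A).sub_mem hB (hLT l hl)
      rwa [add_sub_cancel_left] at h3
    have hcb : bil (cM ℚ_[ℓ] (HS hP hf he1 hspan).β) c ∈
        Submodule.span ℚ_[ℓ] (cst ℚ_[ℓ] '' (A 2)) := h2 _ (bil_tate hsimU hΔ hcΔ)
    have h1 : c ∈ spM ℚ_[ℓ] (ZA (HS hP hf he1 hspan).β A ⊓ KQ 1 A) := by
      refine mem_of_fM fun φ => ⟨⟨?_, fun e he => ?_⟩, fun n m hm a ha => ?_⟩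
      · rw [← fn_bil]
        exact fn_mem (span_cst_le _ hcb) φ
      · have h3 : bil (cM ℚ_[ℓ] (HS hP hf he1 hspan).β) (cM ℚ_[ℓ] e) ∈
            Submodule.span ℚ_[ℓ] (cst ℚ_[ℓ] '' (A 2)) := by
          rw [← cst_bil]
          exact spF_le _ (Submodule.subset_span ⟨_, he, rfl⟩)
        have h4 := comm_of_span' (H := HS hP hf he1 hspan) hβA hcK h3
        have h5 := congrArg (fM φ) h4
        rwa [fM_mul_cM, fM_cM_mul] at h5
      · exact kills_fM (hcK n m hm a ha) φ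
    rw [spM] at h1
    refine (Submodule.span_le.2 ?_) h1
    rintro _ ⟨z, ⟨hz1, hz2⟩, rfl⟩
    have hAS : Submodule.span ℚ (A 2) ≤ HF (HS hP hf he1 hspan) 1 2 := by
      rw [Submodule.span_le]
      intro a ha
      exact (ha 1 rfl).1
    have hzk' : KH' hP hf he1 hspan z := by
      intro m l a hl ha
      rcases m with _ | m
      · intro v
        exact Finset.sum_eq_zero fun s _ => s.elim0
      · exact hz2 (m + 1) l hl a (hA (n := m) (m := l) (by omega) a ha)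
    intro n m a hm ha
    rcases n with _ | n
    · intro v
      exact Finset.sum_eq_zero fun s _ => s.elim0
    · obtain ⟨Δ, hΔ, h1⟩ := of_isTate G hP hf he1 hspan hsim hU ha
      exact hcen z (hAS hz1.1) (fun ε hε => hz1.2 ε
        (Submodule.subset_span (hA (n := 1) (m := 1) rfl _ hε))) hzk' n m (by omega) a Δ hΔ h1
  have hH : ∀ Z ∈ KQ (HS hP hf he1 hspan).w A, Z ∈ KH (HS hP hf he1 hspan) := by
    intro Z hZ n m a hm ha
    rcases n with _ | n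
    · intro v
      exact Finset.sum_eq_zero fun s _ => s.elim0
    · have hm' : 2 * m = (n + 1) * 1 := hm
      exact hZ (n + 1) m hm a (hA (n := n) (m := m) (by omega) a ha)
  exact (both (H := HS hP hf he1 hspan) hAH hH hKF hLT R.continuous_rho R.continuous_mu hm).2 t
    (isTate_of_opn G hP hf he1 hspan hsim ht)

end Main

end Run7.h877.TS
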