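import Pool.Agent.Run7.h877.TS.SqDefs
import Pool.Agent.Run7.h877.TS.Lin

/-!
# Idempotents with extended coefficients in coordinates
-/

set_option autoImplicit false
set_option linter.unusedSectionVars false

namespace Run7.h877.TS

open Module Matrix TensorProduct
open Run7.h877.MT Run7.h877.SQ

variable {K : Type} [Field K] {V : Type} [AddCommGroup V] [Module K V] {ι : Type} [Fintype ι]
  [DecidableEq ι] {E : (ι → K) →ₗ[K] V} {C : V →ₗ[K] (ι → K)}
  {Ω : Type} [Field Ω] [Algebra K Ω]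

/-- The vectors with extended coefficients. -/
noncomputable def eo (E : (ι → K) →ₗ[K] V) (Ω : Type) [Field Ω] [Algebra K Ω] :
    (ι → Ω) →ₗ[Ω] Ω ⊗[K] V where
  toFun u := ∑ a, u a ⊗ₜ[K] E (Pi.single a 1)
  map_add' u w := by
    rw [← Finset.sum_add_distrib]
    exact Finset.sum_congr rfl fun a _ => TensorProduct.add_tmul _ _ _
  map_smul' c u := by
    rw [RingHom.id_apply, Finset.smul_sum]
    exact Finset.sum_congr rfl fun a _ => (TensorProduct.smul_tmul' c (u a) _).symm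

lemma eo_apply (u : ι → Ω) : eo E Ω u = ∑ a, u a ⊗ₜ[K] E (Pi.single a 1) := rfl

lemma E_sum (u : ι → K) : E u = ∑ a, u a • E (Pi.single a 1) := by
  have h1 : u = ∑ a, u a • (Pi.single a (1 : K) : ι → K) := by
    funext x
    rw [Finset.sum_apply, Finset.sum_eq_single x]
    · simp
    · intro z _ hz
      simp [Ne.symm hz]
    · intro h; exact absurd (Finset.mem_univ _) h
  conv_lhs => rw [h1]
  rw [map_sum]
  exact Finset.sum_congr rfl fun a _ => map_smul _ _ _

/-- the extension of the coefficients -/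
def alg (Ω : Type) [Field Ω] [Algebra K Ω] (u : ι → K) : ι → Ω := fun a => algebraMap K Ω (u a)

lemma alg_mulVec (M : Matrix ι ι K) (u : ι → K) : alg Ω (M *ᵥ u) = mx K Ω M *ᵥ alg Ω u := by
  funext a
  rw [alg, Matrix.mulVec, dotProduct, map_sum, Matrix.mulVec, dotProduct]
  exact Finset.sum_congr rfl fun x _ => map_mul _ _ _

lemma tmul_E (w : Ω) (u : ι → K) : w ⊗ₜ[K] E u = eo E Ω (w • alg Ω u) := by
  rw [eo_apply, E_sum u, TensorProduct.tmul_sum]
  refine Finset.sum_congr rfl fun a _ => ?_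
  rw [TensorProduct.tmul_smul, TensorProduct.smul_tmul', Algebra.smul_def, Pi.smul_apply,
    smul_eq_mul, mul_comm]
  rfl

lemma eo_inj (hC : ∀ u, C (E u) = u) {u w : ι → Ω} (h : eo E Ω u = eo E Ω w) : u = w := by
  have key : ∀ (u : ι → Ω) (b : ι), TensorProduct.AlgebraTensorModule.rid K Ω Ω
      (((LinearMap.proj b : (ι → K) →ₗ[K] K) ∘ₗ C).baseChange Ω (eo E Ω u)) = u b := by
    intro u b
    rw [eo_apply, map_sum, map_sum, Finset.sum_eq_single b]
    · rw [LinearMap.baseChange_tmul, TensorProduct.AlgebraTensorModule.rid_tmul,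
        LinearMap.comp_apply, hC, LinearMap.proj_apply, Pi.single_eq_same, one_smul]
    · intro a _ ha
      rw [LinearMap.baseChange_tmul, TensorProduct.AlgebraTensorModule.rid_tmul,
        LinearMap.comp_apply, hC, LinearMap.proj_apply, Pi.single_eq_of_ne (Ne.symm ha), zero_smul]
    · intro h; exact absurd (Finset.mem_univ _) h
  funext b
  rw [← key u b, h, key]

/-- **The idempotents in coordinates.** -/
theorem comm_if (hC : ∀ u, C (E u) = u) {P : V → Prop} (hP : ∀ v, P v → ∃ u, E u = v)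
    (hEP : ∀ u, P (E u)) {L : Submodule K (Matrix ι ι K)} {r : ℕ} {ω : Fin r → Ω}
    {d : Fin r → V → V}
    (hd : ∀ a, ∃ Z ∈ L, ∃ c : K, ∀ u, d a (E u) = E ((Z + c • 1) *ᵥ u))
    {b : Matrix ι ι K} (hb : ∀ (Φ Z0 : Matrix ι ι Ω) (c : Ω),
      Φ * Φ = Φ → Z0 ∈ spL Ω L → Φ = Z0 + c • 1 → Φ * mx K Ω b = mx K Ω b * Φ)
    {b' : V → V} (hb' : ∀ u, b' (E u) = E (b *ᵥ u)) :
    CommutesIfIdempotent (K := K) P ω d b' := by
  choose Z hZ c h using hd
  let Φ : Matrix ι ι Ω := ∑ a, ω a • mx K Ω (Z a + c a • 1)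
  have hΦ : ∀ x, Φ *ᵥ x = ∑ a, ω a • (mx K Ω (Z a + c a • 1) *ᵥ x) := by
    intro x
    have h1 : Φ *ᵥ x = ∑ a, (ω a • mx K Ω (Z a + c a • 1)) *ᵥ x := by
      change (∑ a, ω a • mx K Ω (Z a + c a • 1)) *ᵥ x = _
      rw [Matrix.sum_mulVec]
    rw [h1]
    exact Finset.sum_congr rfl fun a _ => Matrix.smul_mulVec _ _ _
  have h1 : ∀ u, ∑ a, ω a ⊗ₜ[K] d a (E u) = eo E Ω (Φ *ᵥ alg Ω u) := by
    intro u
    rw [hΦ, map_sum]
    refine Finset.sum_congr rfl fun a _ => ?_
    rw [h, tmul_E, alg_mulVec]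
  intro hid
  have h2 : Φ * Φ = Φ := by
    ext i j
    have h3 := hid (E (Pi.single j 1)) (hEP _)
    rw [h1] at h3
    have h4 : ∑ a, ∑ e, (ω a * ω e) ⊗ₜ[K] d a (d e (E (Pi.single j 1))) =
        eo E Ω (Φ *ᵥ (Φ *ᵥ alg Ω (Pi.single j (1 : K) : ι → K))) := by
      rw [hΦ, map_sum]
      refine Finset.sum_congr rfl fun a _ => ?_
      have h5 : ω a • (mx K Ω (Z a + c a • 1) *ᵥ (Φ *ᵥ alg Ω (Pi.single j (1 : K) : ι → K))) =
          ∑ e, (ω a * ω e) • alg Ω ((Z a + c a • 1) *ᵥ ((Z e + c e • 1) *ᵥ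
            (Pi.single j (1 : K) : ι → K))) := by
        rw [hΦ, Matrix.mulVec_sum, Finset.smul_sum]
        refine Finset.sum_congr rfl fun e _ => ?_
        rw [Matrix.mulVec_smul, smul_smul, alg_mulVec, alg_mulVec]
      rw [h5, map_sum]
      refine Finset.sum_congr rfl fun e _ => ?_
      rw [h, h, tmul_E]
    rw [h4] at h3
    have h5 := congrFun (eo_inj hC h3) i
    have h6 : alg Ω (Pi.single j (1 : K) : ι → K) = (Pi.single j (1 : Ω) : ι → Ω) := by
      funext a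
      rw [alg]
      by_cases ha : a = j
      · subst ha
        rw [Pi.single_eq_same, Pi.single_eq_same, map_one]
      · rw [Pi.single_eq_of_ne ha, Pi.single_eq_of_ne ha, map_zero]
    rw [h6, Matrix.mulVec_mulVec, Matrix.mulVec_single_one, Matrix.mulVec_single_one] at h5
    exact h5
  have h3 : Φ = (∑ a, ω a • mx K Ω (Z a)) + (∑ a, ω a * algebraMap K Ω (c a)) • 1 := by
    change ∑ a, ω a • mx K Ω (Z a + c a • 1) = _
    rw [Finset.sum_smul, ← Finset.sum_add_distrib]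
    refine Finset.sum_congr rfl fun a _ => ?_
    rw [mx_add, smul_add, mul_smul]
    congr 2
    ext i j
    have h2 : mx K Ω (c a • (1 : Matrix ι ι K)) i j =
      algebraMap K Ω (c a * (1 : Matrix ι ι K) i j) := rfl
    rw [h2, map_mul, Matrix.smul_apply, smul_eq_mul, Matrix.one_apply, Matrix.one_apply]
    split_ifs
    · rw [map_one]
    · rw [map_zero]
  have h4 := hb Φ _ _ h2 (Submodule.sum_mem _ fun a _ => Submodule.smul_mem _ _
    (mx_mem (hZ a))) h3
  intro v hv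
  obtain ⟨u, rfl⟩ := hP v hv
  rw [hb', h1, alg_mulVec, Matrix.mulVec_mulVec, h4, ← Matrix.mulVec_mulVec, hΦ,
    Matrix.mulVec_sum, map_sum]
  refine Finset.sum_congr rfl fun a _ => ?_
  rw [h, hb', tmul_E, alg_mulVec, alg_mulVec, Matrix.mulVec_smul]

end Run7.h877.TS
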