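import Pool.Agent.Run7.h877.TS.Pk
import Pool.Agent.Run7.h877.TS.Idm
import Pool.Agent.Run7.h877.TX.Conv

/-!
# The square decides the Tate conjecture for all powers
-/

set_option autoImplicit false
set_option linter.unusedSectionVars false

open CategoryTheory AlgebraicGeometry TensorProduct

universe u

namespace Run7.h877.TS

open Module Matrix
open Pool.Agent.H914 hiding ev
open Pool.Agent.H914.VarClass Pool.Agent.H914.VarClass.Obj
  Pool.Agent.H914.WeilCohomology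
open Pool.Agent.Y133.Half (pw prj)
open Pool.Agent.Y121.AH hiding IsHodge
open Pool.Agent.N996.BP (IsPHS)
open Pool.Agent.N996.BP.Geo (tauT Fx lop cc)
open Pool.Agent.N996.FP.Geo (End1 Cen1)
open Run7.h877.MT Run7.h877.TX

variable {k : Type u} [Field k] {𝒱 : VarClass k} {ops : CycleOps 𝒱}

variable {T : Pool.Agent.Y121.AH.HodgeTheory ops} {X : 𝒱.Obj} {ℓ : ℕ} [Fact ℓ.Prime]
  [Algebra T.W.K ℚ_[ℓ]] {Γ : Type} [Group Γ] [TopologicalSpace Γ] [IsTopologicalGroup Γ]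
  [CompactSpace Γ] (G : GAct T X ℓ Γ)

/-- **Tate classes are Hodge classes.** -/
theorem tate_hodge_sq {ψ : LinearMap.BilinForm T.W.K (T.W.H X)} {d : ℕ}
    (hP : IsPHS (tauT T) (Fx T X) ψ d)
    (hgen : Algebra.adjoin T.W.K (T.W.gr X 1 : Set (T.W.H X)) = ⊤)
    (hdim : finrank T.W.K (T.W.gr X 1) = 2 * X.dim)
    (hself : (∀ φ : T.W.H X →ₗ[T.W.K] T.W.H X, Cen1 T X φ →
      ∀ c ∈ T.W.gr X 1, ∀ d ∈ T.W.gr X 1, ψ (φ c) d = ψ c (φ d)) ∨ G.CC)
    (h0 : 0 < X.dim) (hG : G.HT) (hS : G.Semi) (hS' : SemiAll G) (hT1 : G.TH 1 1)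
    (hTg : G.TH 1 X.dim)
    (hpk : ∀ (r : ℕ) (e f : Fin r → T.W.H X)
      (hf : ∀ a b, T.W.tr X (e a * f b) = if a = b then 1 else 0)
      (he1 : ∀ a, e a ∈ T.W.gr X 1) (hspan : ∀ z ∈ T.W.gr X 1, ∃ v, vec e v = z)
      (U : Subgroup Γ), IsOpen (U : Set Γ) →
      (∀ s δ, GSys G.IsT s δ → ∃ Z ∈ LU G hf he1 hspan U,
        ∀ v, δ 0 (vecL ℓ e v) = vecL ℓ e ((Z + (s / 2) • 1) *ᵥ v)) →
        PinkC G hf he1 hspan U) (n j : ℕ) : G.TH n j := by
  intro c hc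
  by_cases hnt0 : Nontrivial (T.W.H X)
  · have hnt : ∀ n, Nontrivial (T.W.H (pw X n)) := fun n => nontrivial_pw' n
    obtain ⟨r, e, he, he1, hspan⟩ := exists_bas T.W X 1
    have hcard : Fintype.card (Fin r) = 2 * X.dim := by
      have hse : Submodule.span T.W.K (Set.range e) = T.W.gr X 1 := by
        refine le_antisymm ?_ ?_
        · rw [Submodule.span_le]
          rintro _ ⟨a, rfl⟩
          exact he1 a
        · intro z hz
          obtain ⟨v, rfl⟩ := hspan z hz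
          exact Submodule.sum_mem _ fun a _ => Submodule.smul_mem _ _
            (Submodule.subset_span ⟨a, rfl⟩)
      rw [← hdim, ← hse, finrank_span_eq_card he]
    obtain ⟨f, hf⟩ := exists_co T.W he
    obtain ⟨D, hD, hL, -⟩ := T.dec.polar X
    obtain ⟨x, hd, hxs⟩ := exists_dual hD hL h0 he he1 hspan
    obtain ⟨U, hU, hsim⟩ := exists_sim G hP hf he1 hspan hG hnt h0 hD hd hxs
    refine mem_HSp hP hf he1 hspan hgen hc.1 fun m l hm hl i => ?_
    obtain ⟨V, hV, hVt⟩ := G.frm_tate hf he1 hspan hG (hnt n) hc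
    refine conj_sq G hP hf he1 hspan hG hnt h0 hD hd hxs hsim hgen hcard hU hS hS' hT1 hTg
      (hpk r e f hf he1 hspan U hU fun s δ h =>
        exists_Z G hf he1 hspan hG hnt h0 hD hd hxs h hgen hU)
      (fun z hz hc hk n m hm t Δ hΔ ht => ?_) m l hl
      ⟨V, hV, fun g hg v => hVt g hg m l (by omega) i v⟩
    rcases hself with hself | hC
    · have h2 := selfAdjoint_of hP hf he1 hspan hself hz hc
      have h3 : Skew (psiM T ψ e) z := kills_bil_one.1 (hk 2 1 _ rfl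
        (beta_hodge (HS hP hf he1 hspan)))
      have h4 : z = 0 := eq_zero_of_selfAdjoint (beta_unit (HS hP hf he1 hspan)) h2 h3
      subst h4
      rw [cM_zero]
      exact Kills.zero
    · exact kills_tate G hP hf he1 hspan hG hnt h0 hD hd hxs hC hgen hz hc hk hm hΔ ht
  · have h1 : (1 : T.W.H X) = 0 := by
      have := not_nontrivial_iff_subsingleton.1 hnt0
      exact Subsingleton.elim _ _
    have h2 : (1 : (baseW T.W ℚ_[ℓ]).H (pw X n)) = 0 := by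
      have h3 : (baseW T.W ℚ_[ℓ]).map (prj X n 0) (em T.W ℚ_[ℓ] (1 : T.W.H X)) =
          em T.W ℚ_[ℓ] (T.W.map (prj X n 0) 1) := em_map _ _
      rw [h1, map_zero, em_zero, map_zero] at h3
      have h4 : em T.W ℚ_[ℓ] (T.W.map (prj X n 0) (1 : T.W.H X)) =
          (1 : (baseW T.W ℚ_[ℓ]).H (pw X n)) := by rw [map_one]; rfl
      rw [← h4, h1, map_zero, em_zero]
    have h5 : c = 0 := by
      rw [← mul_one c, h2, mul_zero]
    rw [h5]
    exact Submodule.zero_mem _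

end Run7.h877.TS

namespace Run7.h877.SQ

open Module Matrix
open Pool.Agent.H914 Pool.Agent.H914.VarClass Pool.Agent.H914.VarClass.Obj
  Pool.Agent.H914.WeilCohomology
open Pool.Agent.Y121.AHS
open Pool.Agent.Y133.Half (pw prj prj_zero)
open Pool.Agent.Y121.AH (em em_gr)
open Pool.Agent.N996 Pool.Agent.N996.FP Pool.Agent.N996.BP.Geo Pool.Agent.N996.FP.Geo
open Run7.h226 Run7.h877.TX Run7.h877.TS Run7.h877.SD

variable {k : Type u} [Field k] {𝒱 : VarClass k} {ops : CycleOps 𝒱} {T : HodgeTheory ops}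
  {E : PrimeNumber T} {X Y Z : 𝒱.Obj} {Γ : Type} [Group Γ] [TopologicalSpace Γ]
  [IsTopologicalGroup Γ] [CompactSpace Γ]

/-- the linear map -/
def toLin {K V : Type} [Field K] [AddCommGroup V] [Module K V] (d : V → V)
    (h : ∀ (c : K) a b, d (c • a + b) = c • d a + d b) : V →ₗ[K] V where
  toFun := d
  map_add' a b := by
    have h1 := h 1 a b
    rwa [one_smul, one_smul] at h1
  map_smul' c a := by
    have h1 := h 1 0 0
    rw [one_smul, one_smul, add_zero] at h1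
    have h0 : d 0 = 0 := left_eq_add.1 h1
    have h2 := h c a 0
    rw [add_zero, h0, add_zero] at h2
    exact h2

lemma gsys_of {s : ℚ_[E.ℓ]}
    {δ : ∀ n, E.H (pw X n) → E.H (pw X n)} {S : ∀ n, ℕ → E.H (pw X n) → Prop}
    (hd : ∀ a, IsDegE 1 a → IsDegE 1 (δ 0 a))
    (h : ∀ n, IsDer mulE n (fun i => mapE (pr X n i)) (S n) s (δ n) (δ 0)) :
    GSys (T := toH T) S s fun n => toLin (δ n) (h n).1 where
  deg a ha := hd a ha
  mul n a b := (h n).2.1 a b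
  comp n i a := by
    have h1 : δ n (mapE (pr X n i.1) a) = mapE (pr X n i.1) (δ 0 a) :=
      (h n).2.2.1 i.1 (by omega) a
    rw [pr_prj n (i := i.1) (by omega)] at h1
    exact h1
  tate n j c hc := (h n).2.2.2 j c hc

lemma semiAll_of {R : GaloisAction E X Γ} (h : ContRep.Semisimple (R.r 0)) : SemiAll (toG R) :=
  fun U hU V hV => h U hU V hV

/-- the operator with the given matrix -/
noncomputable def opb {r : ℕ} (T : Pool.Agent.Y121.AH.HodgeTheory ops) (ℓ : ℕ) [Fact ℓ.Prime]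
    [Algebra T.W.K ℚ_[ℓ]] (e f : Fin r → T.W.H X) (b : Matrix (Fin r) (Fin r) ℚ_[ℓ]) :
    (Pool.Agent.H914.baseW T.W ℚ_[ℓ]).H X →ₗ[(Pool.Agent.H914.baseW T.W ℚ_[ℓ]).K]
      (Pool.Agent.H914.baseW T.W ℚ_[ℓ]).H X :=
  vecLin (W := Pool.Agent.H914.baseW T.W ℚ_[ℓ]) (fun a => em T.W ℚ_[ℓ] (e a)) ∘ₗ
    (Matrix.toLin' (R := (Pool.Agent.H914.baseW T.W ℚ_[ℓ]).K) b) ∘ₗ
    (LinearMap.pi fun a => (Pool.Agent.H914.baseW T.W ℚ_[ℓ]).tr X ∘ₗ
      LinearMap.mulRight (Pool.Agent.H914.baseW T.W ℚ_[ℓ]).K (em T.W ℚ_[ℓ] (f a)))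

/-- **The theorem of Pink in coordinates.** -/
theorem pinkC_of {R : GaloisAction E X Γ} (h : HodgeCocharactersGenerate R) {r : ℕ}
    {e f : Fin r → (toH T).W.H X}
    (hf : ∀ a b, (toH T).W.tr X (e a * f b) = if a = b then 1 else 0)
    (he1 : ∀ a, e a ∈ (toH T).W.gr X 1)
    (hspan : ∀ z ∈ (toH T).W.gr X 1, ∃ v, TX.vec e v = z) {U : Subgroup Γ}
    (hZ : ∀ s δ, GSys (toG R).IsT s δ → ∃ Z ∈ LU (toG R) hf he1 hspan U,
      ∀ v, δ 0 (vecL E.ℓ e v) = vecL E.ℓ e ((Z + (s / 2) • 1) *ᵥ v)) :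
    PinkC (toG R) hf he1 hspan U := by
  intro b hb
  have hbv : ∀ v, opb (toH T) E.ℓ e f b (vecL E.ℓ e v) = vecL E.ℓ e (b *ᵥ v) := by
    intro v
    have h1 : (LinearMap.pi fun a => (Pool.Agent.H914.baseW (toH T).W ℚ_[E.ℓ]).tr X ∘ₗ
      LinearMap.mulRight (Pool.Agent.H914.baseW (toH T).W ℚ_[E.ℓ]).K
        (em (toH T).W ℚ_[E.ℓ] (f a))) (vecL E.ℓ e v) = v := by
      funext a
      exact vec_co (W := Pool.Agent.H914.baseW (toH T).W ℚ_[E.ℓ]) (co_base hf) v a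
    have h2 := congrArg (fun w => vecLin (W := Pool.Agent.H914.baseW (toH T).W ℚ_[E.ℓ])
      (fun a => em (toH T).W ℚ_[E.ℓ] (e a))
      (Matrix.toLin' (R := (Pool.Agent.H914.baseW (toH T).W ℚ_[E.ℓ]).K) b w)) h1
    exact h2
  obtain ⟨V, hV, hVb⟩ := h (opb (toH T) E.ℓ e f b) (fun a _ =>
      vec_mem (W := Pool.Agent.H914.baseW (toH T).W ℚ_[E.ℓ]) (fun a => em_gr (he1 a)) _)
    (fun Ω _ _ r' ω d hd => comm_if (K := ℚ_[E.ℓ]) (V := E.H (pw X 0))
      (E := vecLin (W := Pool.Agent.H914.baseW (toH T).W ℚ_[E.ℓ])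
        (fun a => em (toH T).W ℚ_[E.ℓ] (e a)))
      (C := LinearMap.pi fun a => (Pool.Agent.H914.baseW (toH T).W ℚ_[E.ℓ]).tr X ∘ₗ
        LinearMap.mulRight (Pool.Agent.H914.baseW (toH T).W ℚ_[E.ℓ]).K
          (em (toH T).W ℚ_[E.ℓ] (f a)))
      (fun u => funext fun a =>
        vec_co (W := Pool.Agent.H914.baseW (toH T).W ℚ_[E.ℓ]) (co_base hf) u a)
      (fun v hv => span_base (L := ℚ_[E.ℓ]) hspan v hv)
      (fun u => vec_mem (W := Pool.Agent.H914.baseW (toH T).W ℚ_[E.ℓ])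
        (fun a => em_gr (he1 a)) u)
      (L := LU (toG R) hf he1 hspan U)
      (by
        intro a
        obtain ⟨⟨s, δ, hδ0, hδ⟩, hdeg⟩ := hd a
        rw [← hδ0] at hδ hdeg
        obtain ⟨Z, hZL, hZv⟩ := hZ s _ (gsys_of hdeg hδ)
        refine ⟨Z, hZL, s / 2, fun u => ?_⟩
        rw [← hδ0]
        exact hZv u) (hb Ω) hbv)
  have hfi := finiteIndex_of_open hV
  refine ⟨V, hfi, fun g hg => ?_⟩
  refine Matrix.toLin'.injective (LinearMap.ext fun v => ?_)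
  rw [Matrix.toLin'_apply, Matrix.toLin'_apply, ← Matrix.mulVec_mulVec, ← Matrix.mulVec_mulVec]
  refine vecL_inj hf ?_
  rw [← hbv, ← (toG R).mat_eq hf he1 hspan, ← (toG R).mat_eq hf he1 hspan, ← hbv]
  exact hVb g hg (vecL E.ℓ e v) (vec_mem (W := Pool.Agent.H914.baseW (toH T).W ℚ_[E.ℓ])
    (fun a => em_gr (he1 a)) v)

end Run7.h877.SQ
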