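import Pool.Agent.Run7.h877.TS.Om
import Pool.Agent.Run7.h877.TX.Frm
import Mathlib.LinearAlgebra.ExteriorAlgebra.Basic

/-!
# Products of classes of degree one
-/

set_option autoImplicit false
set_option linter.unusedSectionVars false

open CategoryTheory AlgebraicGeometry

universe u

namespace Run7.h877.TS

open Module Matrix
open Pool.Agent.H914 hiding ev
open Pool.Agent.H914.VarClass Pool.Agent.H914.VarClass.Obj
  Pool.Agent.H914.WeilCohomology
open Pool.Agent.Y133.Half (pw prj pfst psnd prj_zero prj_last prj_castSucc)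
open Run7.h877.MT Run7.h877.TX

variable {k : Type u} [Field k] {𝒱 : VarClass k} {ops : CycleOps 𝒱}

variable {W : WeilCohomology.{u, 0} ops} {X : 𝒱.Obj} {ι : Type} [Fintype ι] [DecidableEq ι]

lemma sq_zero {a : W.H X} (ha : a ∈ W.gr X 1) : a * a = 0 := by
  have h1 := W.comm ha ha
  rw [mul_one, pow_one, neg_smul, one_smul, eq_neg_iff_add_eq_zero, ← two_smul W.K] at h1
  exact (smul_eq_zero.1 h1).resolve_left two_ne_zero

/-- the linear map `v ↦ vec e v` -/
noncomputable def vecLin (e : ι → W.H X) : (ι → W.K) →ₗ[W.K] W.H X where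
  toFun := vec e
  map_add' v w := vec_add e v w
  map_smul' c v := vec_smul e c v

/-- The product of the classes of degree one as an alternating map. -/
noncomputable def al (e : ι → W.H X) (he : ∀ a, e a ∈ W.gr X 1) (m : ℕ) :
    (ι → W.K) [⋀^Fin m]→ₗ[W.K] W.H X :=
  (ExteriorAlgebra.lift W.K (A := W.H X)
    ⟨vecLin e, fun v => sq_zero (vec_mem he v)⟩).toLinearMap.compAlternatingMap
      (ExteriorAlgebra.ιMulti W.K m)

lemma al_apply (e : ι → W.H X) (he : ∀ a, e a ∈ W.gr X 1) (m : ℕ) (v : Fin m → ι → W.K) :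
    al e he m v = (List.ofFn fun s => vec e (v s)).prod := by
  rw [al, LinearMap.compAlternatingMap_apply, ExteriorAlgebra.ιMulti_apply,
    AlgHom.toLinearMap_apply, map_list_prod, List.map_ofFn]
  refine congrArg List.prod (congrArg List.ofFn (funext fun s => ?_))
  rw [Function.comp_apply, ExteriorAlgebra.lift_ι_apply]
  rfl

/-- The product of the classes. -/
noncomputable def pr (e : ι → W.H X) {m : ℕ} (u : Fin m → ι) : W.H X :=
  (List.ofFn fun s => e (u s)).prod

lemma al_single (e : ι → W.H X) (he : ∀ a, e a ∈ W.gr X 1) {m : ℕ} (u : Fin m → ι) :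
    al e he m (fun s => Pi.single (u s) 1) = pr e u := by
  rw [al_apply, pr]
  refine congrArg List.prod (congrArg List.ofFn (funext fun s => ?_))
  exact vec_single e (u s)

lemma pr_perm (e : ι → W.H X) (he : ∀ a, e a ∈ W.gr X 1) {m : ℕ} (u : Fin m → ι)
    (σ : Equiv.Perm (Fin m)) : pr e (u ∘ σ) = sg W.K σ • pr e u := by
  rw [← al_single e he, ← al_single e he]
  have h := (al e he m).map_perm (fun s => Pi.single (u s) 1) σ
  refine (h.trans ?_)
  rw [sg]
  rcases Int.units_eq_one_or (Equiv.Perm.sign σ) with h1 | h1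
  · rw [h1]; simp
  · rw [h1]; simp

lemma pr_inj (e : ι → W.H X) (he : ∀ a, e a ∈ W.gr X 1) {m : ℕ} (u : Fin m → ι)
    (hu : ¬ Function.Injective u) : pr e u = 0 := by
  rw [← al_single e he]
  refine (al e he m).map_eq_zero_of_not_injective _ fun h => hu fun s t hst => h ?_
  change (Pi.single (u s) 1 : ι → W.K) = Pi.single (u t) 1
  rw [hst]

lemma pr_mem (e : ι → W.H X) (he : ∀ a, e a ∈ W.gr X 1) {m : ℕ} (u : Fin m → ι) :
    pr e u ∈ W.gr X m := by
  have h := mon_mem W 0 (fun _ : Fin m => (0 : Fin 1)) (v := fun s => e (u s)) (d := 1)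
    fun s => he _
  rw [mul_one, mon_apply] at h
  have h1 : (List.ofFn fun s : Fin m => W.map (prj X 0 0) (e (u s))).prod = pr e u := by
    rw [pr]
    exact congrArg List.prod (congrArg List.ofFn (funext fun s => W.map_id X _))
  rw [← h1]
  exact h

lemma pr_append (e : ι → W.H X) {m n : ℕ} (u : Fin m → ι) (w : Fin n → ι) :
    pr e (Fin.append u w) = pr e u * pr e w := by
  rw [pr, pr, pr, ← List.prod_append, ← List.ofFn_fin_append]
  refine congrArg List.prod (congrArg List.ofFn (funext fun s => ?_))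
  refine Fin.addCases (fun s => ?_) (fun s => ?_) s
  · rw [Fin.append_left, Fin.append_left]
  · rw [Fin.append_right, Fin.append_right]

/-- **The trace of the product of all classes is not zero.** -/
lemma tr_pr_ne [Nontrivial (W.H X)] (e : ι → W.H X) (he : ∀ a, e a ∈ W.gr X 1)
    (hspan : ∀ z ∈ W.gr X 1, ∃ v, vec e v = z)
    (hgen : Algebra.adjoin W.K (W.gr X 1 : Set (W.H X)) = ⊤) {m : ℕ}
    (hm : 2 * X.dim = m) (hcard : Fintype.card ι = m) {u : Fin m → ι}
    (hu : Function.Injective u) : W.tr X (pr e u) ≠ 0 := by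
  intro h0
  have hb : ∀ v : Fin m → ι, Function.Injective v → Function.Bijective v := fun v hv =>
    (Fintype.bijective_iff_injective_and_card v).2 ⟨hv, by rw [Fintype.card_fin, hcard]⟩
  have h1 : ∀ v : Fin m → ι, Function.Injective v → W.tr X (pr e v) = 0 := by
    intro v hv
    let σ : Equiv.Perm (Fin m) :=
      (Equiv.ofBijective v (hb v hv)).trans (Equiv.ofBijective u (hb u hu)).symm
    have h2 : v = u ∘ σ := by
      funext s
      have h3 := (Equiv.ofBijective u (hb u hu)).apply_symm_apply (v s)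
      exact h3.symm
    rw [h2, pr_perm e he, map_smul, h0, smul_zero]
  have h2 : (W.tr X).compAlternatingMap (al e he m) = 0 := by
    refine Module.Basis.ext_alternating (Pi.basisFun W.K ι) fun v hv => ?_
    have h3 : (fun i => (Pi.basisFun W.K ι) (v i)) = fun s => Pi.single (v s) 1 := by
      funext s
      rw [Pi.basisFun_apply]
    rw [h3, LinearMap.compAlternatingMap_apply, al_single, h1 v hv]
    rfl
  have h3 : ∀ z : W.H X, W.tr X z = 0 := by
    intro z
    refine mon_induction W hgen 0 (P := fun z => W.tr X z = 0) (map_zero _)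
      (fun a b ha hb => ?_) (fun c a ha => ?_) (fun l i v hv => ?_) z
    · have h4 : W.tr X (a + b) = W.tr X a + W.tr X b := map_add _ _ _
      exact h4.trans (by rw [ha, hb, add_zero])
    · have h4 : W.tr X (c • a) = c • W.tr X a := map_smul _ _ _
      exact h4.trans (by rw [ha, smul_zero])
    · by_cases hl : l = 2 * X.dim
      · subst hm
        subst hl
        choose w hw using fun s => hspan (v s) (hv s)
        have h4 : mon W 0 i v = al e he (2 * X.dim) w := by
          rw [al_apply, mon_apply]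
          refine congrArg List.prod (congrArg List.ofFn (funext fun s => ?_))
          rw [hw]
          exact W.map_id X _
        rw [h4]
        exact AlternatingMap.congr_fun h2 w
      · have h4 := mon_mem W 0 i (v := v) (d := 1) hv
        rw [mul_one] at h4
        exact W.tr_eq_zero h4 hl
  have h4 : (1 : W.H X) = 0 := W.nondeg _ fun b => h3 _
  exact one_ne_zero h4

/-- The pairing of the monomials. -/
noncomputable def omM (e : ι → W.H X) (n : ℕ) : Matrix (Fin n → ι) (Fin n → ι) W.K :=
  fun u w => W.tr X (pr e u * pr e w)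

/-- The form of the trace of the product. -/
noncomputable def omF (e : ι → W.H X) (n : ℕ) : (Fin (n + n) → ι) → W.K :=
  fun b => W.tr X (pr e b)

lemma mt_omF (e : ι → W.H X) (n : ℕ) : mt (omF e n) = omM e n := by
  ext u w
  rw [mt, omF, pr_append]
  rfl

lemma isOm [Nontrivial (W.H X)] (e : ι → W.H X) (he : ∀ a, e a ∈ W.gr X 1)
    (hspan : ∀ z ∈ W.gr X 1, ∃ v, vec e v = z)
    (hgen : Algebra.adjoin W.K (W.gr X 1 : Set (W.H X)) = ⊤) {n : ℕ}
    (hn : X.dim = n) (hcard : Fintype.card ι = 2 * n) : IsOm n (omM e n) where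
  card := hcard
  h0 u w := by
    rintro ⟨s, t, hst⟩
    rw [omM, ← pr_append, pr_inj e he, map_zero]
    intro h
    have h1 : Fin.append u w (Fin.castAdd n s) = Fin.append u w (Fin.natAdd n t) := by
      rw [Fin.append_left, Fin.append_right, hst]
    have h2 := congrArg Fin.val (h h1)
    simp only [Fin.val_natAdd, Fin.val_castAdd] at h2
    have := s.isLt
    omega
  h0' u w hu := by
    rw [omM, pr_inj e he u hu, zero_mul, map_zero]
  h1 u w σ := by
    rw [omM, omM, pr_perm e he, smul_mul_assoc, map_smul, smul_eq_mul]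
  h2 u w hu hw huw := by
    rw [omM, ← pr_append]
    refine tr_pr_ne e he hspan hgen (m := n + n) (by rw [hn]; ring) (by rw [hcard]; ring) ?_
    intro s t
    refine Fin.addCases (fun s => ?_) (fun s => ?_) s
    · refine Fin.addCases (fun t => ?_) (fun t => ?_) t
      · intro h
        rw [Fin.append_left, Fin.append_left] at h
        rw [hu h]
      · intro h
        rw [Fin.append_left, Fin.append_right] at h
        exact absurd h (huw s t)
    · refine Fin.addCases (fun t => ?_) (fun t => ?_) t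
      · intro h
        rw [Fin.append_left, Fin.append_right] at h
        exact absurd h.symm (huw t s)
      · intro h
        rw [Fin.append_right, Fin.append_right] at h
        rw [hw h]

/-! ### The square -/

/-- The first `n` variables on the first factor, the others on the second factor. -/
def ii (n : ℕ) : Fin (n + n) → Fin 2 := Fin.append (fun _ => 0) fun _ => 1

lemma tr_two (a b : W.H X) :
    W.tr (pw X 1) (W.map (prj X 1 0) a * W.map (prj X 1 1) b) = W.tr X a * W.tr X b := by
  have h1 : W.map (prj X 1 0) a = W.map (pfst X 0) a := by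
    have h1 : prj X 1 0 = pfst X 0 ≫ prj X 0 0 := prj_castSucc 0 0
    rw [h1, W.map_comp]
    congr 1
    exact W.map_id X a
  have h2 : prj X 1 1 = psnd X 0 := prj_last 0
  rw [h1, h2]
  exact tr_pw W (n := 0) a b

lemma mon_ii (e : ι → W.H X) {n : ℕ} (b : Fin (n + n) → ι) :
    mon W 1 (ii n) (fun s => e (b s)) =
      W.map (prj X 1 0) (pr e fun j => b (Fin.castAdd n j)) *
        W.map (prj X 1 1) (pr e fun j => b (Fin.natAdd n j)) := by
  rw [mon_apply]
  have h1 : (fun s => W.map (prj X 1 (ii n s)) (e (b s))) =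
      Fin.append (fun j => W.map (prj X 1 0) (e (b (Fin.castAdd n j))))
        fun j => W.map (prj X 1 1) (e (b (Fin.natAdd n j))) := by
    funext s
    refine Fin.addCases (fun s => ?_) (fun s => ?_) s
    · rw [Fin.append_left, ii, Fin.append_left]
    · rw [Fin.append_right, ii, Fin.append_right]
  rw [h1, List.ofFn_fin_append, List.prod_append, pr, pr, map_list_prod, map_list_prod,
    List.map_ofFn, List.map_ofFn]
  rfl

lemma tr_mon_ii (e : ι → W.H X) (he : ∀ a, e a ∈ W.gr X 1) {n : ℕ} (b w : Fin (n + n) → ι) :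
    W.tr (pw X 1) (mon W 1 (ii n) (fun s => e (b s)) * mon W 1 (ii n) (fun s => e (w s))) =
      (-1) ^ (n * n) * (omM e n (fun j => b (Fin.castAdd n j)) (fun j => w (Fin.castAdd n j)) *
        omM e n (fun j => b (Fin.natAdd n j)) fun j => w (Fin.natAdd n j)) := by
  rw [mon_ii, mon_ii]
  have h1 := W.comm (W.map_mem (prj X 1 1) (pr_mem e he fun j => b (Fin.natAdd n j)))
    (W.map_mem (prj X 1 0) (pr_mem e he fun j => w (Fin.castAdd n j)))
  have h2 : ∀ a b c d : W.H (pw X 1), a * b * (c * d) = a * (b * c) * d := by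
    intro a b c d
    simp only [mul_assoc]
  rw [h2, h1, mul_smul_comm, smul_mul_assoc, map_smul, smul_eq_mul]
  have h3 : ∀ a b c d : W.H (pw X 1), a * (b * c) * d = a * b * (c * d) := by
    intro a b c d
    simp only [mul_assoc]
  rw [h3, ← map_mul, ← map_mul, tr_two]
  rfl

/-- The class on the square with the coefficients `t`. -/
noncomputable def cl2 (e : ι → W.H X) {n : ℕ} (t : (Fin (n + n) → ι) → W.K) : W.H (pw X 1) :=
  ∑ b, t b • mon W 1 (ii n) fun s => e (b s)

lemma cl2_mem {e : ι → W.H X} (he : ∀ a, e a ∈ W.gr X 1) {n : ℕ}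
    (t : (Fin (n + n) → ι) → W.K) : cl2 e t ∈ W.gr (pw X 1) (2 * n) := by
  refine Submodule.sum_mem _ fun b _ => Submodule.smul_mem _ _ ?_
  have h := mon_mem W 1 (ii n) (v := fun s => e (b s)) (d := 1) fun s => he _
  have h1 : (n + n) * 1 = 2 * n := by ring
  rwa [h1] at h

/-- **The form of the class.** -/
lemma mt_frm_cl2 (e : ι → W.H X) (he : ∀ a, e a ∈ W.gr X 1) {n : ℕ}
    (t : (Fin (n + n) → ι) → W.K) :
    mt (frm e 1 (ii n) (cl2 e t)) =
      ((-1 : W.K) ^ (n * n)) • ((omM e n)ᵀ * mt t * omM e n) := by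
  ext u w
  rw [mt, frm, cl2, Finset.sum_mul, map_sum, sum_append, Matrix.smul_apply, Matrix.mul_apply,
    smul_eq_mul]
  simp only [Matrix.mul_apply, Matrix.transpose_apply, Finset.sum_mul, Finset.mul_sum]
  rw [Finset.sum_comm]
  refine Finset.sum_congr rfl fun y _ => Finset.sum_congr rfl fun x _ => ?_
  rw [smul_mul_assoc, map_smul, smul_eq_mul, tr_mon_ii e he]
  simp only [Fin.append_left, Fin.append_right]
  rw [mt]
  ring

variable {χ : W.K}

/-- The transformed class. -/
lemma op_cl2 (F : Op W X 1 χ) {e : ι → W.H X} {g : Matrix ι ι W.K}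
    (hg : ∀ v, F.φ0 (vec e v) = vec e (g *ᵥ v)) {n : ℕ} (t : (Fin (n + n) → ι) → W.K) :
    F.φ (cl2 e t) = cl2 e (ga gᵀ t) := by
  rw [cl2, map_sum, cl2]
  have h1 : ∀ b : Fin (n + n) → ι, F.φ (t b • mon W 1 (ii n) fun s => e (b s)) =
      ∑ c : Fin (n + n) → ι, (t b * ∏ s, gᵀ (b s) (c s)) • mon W 1 (ii n) fun s => e (c s) := by
    intro b
    rw [map_smul, F.mon_eq]
    have h2 : ∀ s, F.φ0 (e (b s)) = vec e (fun a => g a (b s)) := by
      intro s
      rw [← vec_single e (b s), hg]
      congr 1
      funext a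
      rw [Matrix.mulVec_single_one]
      rfl
    simp only [h2]
    rw [mon_vec, Finset.smul_sum]
    refine Finset.sum_congr rfl fun c _ => ?_
    rw [smul_smul]
    rfl
  rw [Finset.sum_congr rfl fun b _ => h1 b, Finset.sum_comm]
  refine Finset.sum_congr rfl fun c _ => ?_
  rw [ga, Finset.sum_smul]

lemma cl2_smul (e : ι → W.H X) {n : ℕ} (r : W.K) (t : (Fin (n + n) → ι) → W.K) :
    cl2 e (r • t) = r • cl2 e t := by
  rw [cl2, cl2, Finset.smul_sum]
  refine Finset.sum_congr rfl fun w _ => ?_
  rw [Pi.smul_apply, smul_assoc]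

end Run7.h877.TS
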