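import Pool.Agent.Run7.h877.TS.Ind
import Pool.Agent.Run7.h877.TX.Fin2

/-!
# Alternating Tate forms and the Tate classes on the square
-/

set_option autoImplicit false
set_option linter.unusedSectionVars false

open CategoryTheory AlgebraicGeometry TensorProduct

universe u

namespace Run7.h877.TS

open Module Matrix
open Pool.Agent.H914 hiding ev
open Pool.Agent.H914.VarClass Pool.Agent.H914.VarClass.Obj
  Pool.Agent.H914.WeilCohomology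
open Pool.Agent.Y133.Half (pw prj)
open Pool.Agent.Y121.AH hiding IsHodge
open Pool.Agent.N996.BP (IsPHS)
open Pool.Agent.N996.BP.Geo (tauT Fx lop cc)
open Run7.h877.MT Run7.h877.TX

variable {k : Type u} [Field k] {𝒱 : VarClass k} {ops : CycleOps 𝒱}

variable {T : Pool.Agent.Y121.AH.HodgeTheory ops} {X : 𝒱.Obj} {ℓ : ℕ} [Fact ℓ.Prime]
  [Algebra T.W.K ℚ_[ℓ]] {Γ : Type} [Group Γ] [TopologicalSpace Γ] [IsTopologicalGroup Γ]
  [CompactSpace Γ] (G : GAct T X ℓ Γ) {ι : Type} [Fintype ι] [DecidableEq ι]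

/-- the pairing of the monomials with `ℓ`-adic coefficients -/
noncomputable def omL (ℓ : ℕ) [Fact ℓ.Prime] [Algebra T.W.K ℚ_[ℓ]] (e : ι → T.W.H X) (n : ℕ) :
    Matrix (Fin n → ι) (Fin n → ι) ℚ_[ℓ] :=
  omM (W := baseW T.W ℚ_[ℓ]) (fun a => em T.W ℚ_[ℓ] (e a)) n

/-- the class on the square -/
noncomputable def clT (ℓ : ℕ) [Fact ℓ.Prime] [Algebra T.W.K ℚ_[ℓ]] (e : ι → T.W.H X) {n : ℕ}
    (t : (Fin (n + n) → ι) → ℚ_[ℓ]) : (baseW T.W ℚ_[ℓ]).H (pw X 1) :=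
  cl2 (W := baseW T.W ℚ_[ℓ]) (fun a => em T.W ℚ_[ℓ] (e a)) t

lemma clT_smul (e : ι → T.W.H X) {n : ℕ} (r : ℚ_[ℓ]) (t : (Fin (n + n) → ι) → ℚ_[ℓ]) :
    clT ℓ e (r • t) = (show (baseW T.W ℚ_[ℓ]).K from r) • clT ℓ e t :=
  cl2_smul (W := baseW T.W ℚ_[ℓ]) _ r t

lemma mt_frm_clT {e : ι → T.W.H X} (he1 : ∀ a, e a ∈ T.W.gr X 1) {n : ℕ}
    (t : (Fin (n + n) → ι) → ℚ_[ℓ]) :
    mt (frmL ℓ e 1 (ii n) (clT ℓ e t)) =
      ((-1 : ℚ_[ℓ]) ^ (n * n)) • ((omL ℓ e n)ᵀ * mt t * omL ℓ e n) :=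
  mt_frm_cl2 (W := baseW T.W ℚ_[ℓ]) _ (fun a => em_gr (he1 a)) t

section Main

variable {e f x : ι → T.W.H X} {D : X.Cycles} {ψ : LinearMap.BilinForm T.W.K (T.W.H X)} {d : ℕ}
  (hP : IsPHS (tauT T) (Fx T X) ψ d)
  (hf : ∀ a b, T.W.tr X (e a * f b) = if a = b then 1 else 0)
  (he1 : ∀ a, e a ∈ T.W.gr X 1) (hspan : ∀ z ∈ T.W.gr X 1, ∃ v, vec e v = z)
  (hG : G.HT) (hnt : ∀ n, Nontrivial (T.W.H (pw X n)))

/-- The operator kills all Hodge forms. -/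
def KL (ℓ : ℕ) [Fact ℓ.Prime] (B : Matrix ι ι ℚ_[ℓ]) : Prop :=
  ∀ (n m : ℕ), 2 * m = n * 1 → ∀ a : (Fin n → ι) → ℚ,
    IsHodge (HS hP hf he1 hspan) m a → Kills B (cst ℚ_[ℓ] a)

include hf he1 hspan hnt in
lemma isOmL (hgen : Algebra.adjoin T.W.K (T.W.gr X 1 : Set (T.W.H X)) = ⊤) {n : ℕ}
    (hn : X.dim = n) (hcard : Fintype.card ι = 2 * n) : IsOm n (omL ℓ e n) := by
  have hnt' : Nontrivial ((baseW T.W ℚ_[ℓ]).H X) := by
    refine ⟨em T.W ℚ_[ℓ] (1 : T.W.H X), 0, fun h => ?_⟩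
    have h0 : Nontrivial (T.W.H X) := hnt 0
    have h1 : (1 : T.W.H X) ≠ 0 := one_ne_zero
    obtain ⟨z, hz⟩ : ∃ z, T.W.tr X ((1 : T.W.H X) * z) ≠ 0 := by
      by_contra hcon
      push Not at hcon
      exact h1 (T.W.nondeg _ hcon)
    rw [one_mul] at hz
    have h2 : (baseW T.W ℚ_[ℓ]).tr X (em T.W ℚ_[ℓ] (1 : T.W.H X) * em T.W ℚ_[ℓ] z) = 0 := by
      rw [h, zero_mul, map_zero]
    rw [← em_mul, one_mul, em_tr] at h2
    exact hz ((map_eq_zero (algebraMap T.W.K ℚ_[ℓ])).1 h2)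
  exact isOm (W := baseW T.W ℚ_[ℓ]) (fun a => em T.W ℚ_[ℓ] (e a)) (fun a => em_gr (he1 a))
    (span_base hspan) (gen_base hgen) hn hcard

/-- the form of the unit -/
lemma omL_kill {B : Matrix ι ι ℚ_[ℓ]} (hB : KL hP hf he1 hspan ℓ B) (n : ℕ) :
    dm n B * omL ℓ e n + omL ℓ e n * (dm n B)ᵀ = 0 := by
  have h1 : omL ℓ e n = mt (cst ℚ_[ℓ] (frmQ T e 0 (fun _ : Fin (n + n) => (0 : Fin 1))
      (1 : T.W.H X))) := by
    rw [← frmL_em]
    ext u w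
    have h2 : frmL ℓ e 0 (fun _ : Fin (n + n) => (0 : Fin 1)) (em T.W ℚ_[ℓ] (1 : T.W.H X)) =
        omF (W := baseW T.W ℚ_[ℓ]) (fun a => em T.W ℚ_[ℓ] (e a)) n := by
      funext b
      rw [frmL, frm, mon_apply, omF, pr]
      have h3 : ∀ z : (baseW T.W ℚ_[ℓ]).H X, em T.W ℚ_[ℓ] (1 : T.W.H X) * z = z := fun z =>
        one_mul z
      have h4 : (List.ofFn fun s : Fin (n + n) => (baseW T.W ℚ_[ℓ]).map (prj X 0 (0 : Fin 1))
          (em T.W ℚ_[ℓ] (e (b s)))).prod =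
          (List.ofFn fun s => em T.W ℚ_[ℓ] (e (b s))).prod :=
        congrArg List.prod (congrArg List.ofFn (funext fun s => (baseW T.W ℚ_[ℓ]).map_id X _))
      exact congrArg ((baseW T.W ℚ_[ℓ]).tr X) ((h3 _).trans h4)
    rw [h2]
    exact (congrFun (congrFun (mt_omF (W := baseW T.W ℚ_[ℓ])
      (fun a => em T.W ℚ_[ℓ] (e a)) n) u) w).symm
  have h2 := hB (n + n) n (by ring) _ (isHodge_frmQ hP hf he1 hspan
    (fun _ : Fin (n + n) => (0 : Fin 1)) (l := n) (by ring)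
    (Pool.Agent.N996.BP.Geo.isHodge_one (T := T) (X := X)))
  rw [kills_iff] at h2
  have h3 := congrArg mt h2
  rw [mt_dv, ← h1] at h3
  exact h3

include hnt in
/-- **Alternating Tate forms are killed.** -/
theorem tate_kills (hgen : Algebra.adjoin T.W.K (T.W.gr X 1 : Set (T.W.H X)) = ⊤)
    (hG : G.HT) {n : ℕ} (hn : n = X.dim) (hcard : Fintype.card ι = 2 * n) (hT : G.TH 1 n)
    {U : Subgroup Γ} (hU : IsOpen (U : Set Γ))
    (hsim : ∀ g ∈ U, (G.mat e f g)ᵀ * cM ℚ_[ℓ] (psiM T ψ e) * G.mat e f g =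
      G.χ g ^ 1 • cM ℚ_[ℓ] (psiM T ψ e)) {B : Matrix ι ι ℚ_[ℓ]}
    (hB : KL hP hf he1 hspan ℓ B) {t : (Fin (n + n) → ι) → ℚ_[ℓ]} (ht : BiAlt t)
    {Δ : Subgroup Γ} (hΔ : Δ.FiniteIndex)
    (htt : ∀ g ∈ Δ, ∀ v : Fin (n + n) → ι → ℚ_[ℓ],
      ev t (fun s => G.mat e f g *ᵥ v s) = G.χ g ^ n * ev t v) : Kills B t := by
  have hβ := beta_unit' ℚ_[ℓ] (HS hP hf he1 hspan)
  have hBs : Skew (cM ℚ_[ℓ] (HS hP hf he1 hspan).β) B := by
    have h1 := hB 2 1 rfl _ (beta_hodge (HS hP hf he1 hspan))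
    rw [cst_bil, cM_one] at h1
    exact kills_bil_one.1 h1
  refine kills_of_om (isOmL hf he1 hspan hnt hgen hn.symm hcard) hβ hBs
    (omL_kill hP hf he1 hspan hB n) ht ?_
  obtain ⟨C, hC⟩ : ∃ C, C = tm n ((cM ℚ_[ℓ] (HS hP hf he1 hspan).β)⁻¹)ᵀ := ⟨_, rfl⟩
  obtain ⟨t', ht'⟩ : ∃ t', t' = two (C * mt t * Cᵀ) := ⟨_, rfl⟩
  have hcl : G.IsT 1 n (clT ℓ e t') := by
    obtain ⟨V, hV, hVF⟩ := G.exists_op' hG 1 (hnt 1)
    have h1 := finiteIndex_of_open hU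
    have h2 := finiteIndex_of_open hV
    have hfi : (Δ ⊓ (U ⊓ V)).FiniteIndex := inferInstance
    refine GAct.IsT.closed (cl2_mem (W := baseW T.W ℚ_[ℓ]) (fun a => em_gr (he1 a)) t') hfi
      fun g hg => ?_
    obtain ⟨F, hF0, hF⟩ := hVF g hg.2.2
    rw [← hF]
    have h3 : F.φ (clT ℓ e t') = clT ℓ e (ga (G.mat e f g)ᵀ t') :=
      op_cl2 F (e := fun a => em T.W ℚ_[ℓ] (e a)) (g := G.mat e f g)
        (fun v => by
          rw [hF0]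
          exact G.mat_eq hf he1 hspan g v) t'
    have h4 : ga (G.mat e f g) t = G.χ g ^ n • t := by
      refine ev_inj fun v => ?_
      rw [← ev_ga, htt g hg.1, ev_smul_left]
    have h5 : ga (G.mat e f g)ᵀ t' = G.χ g ^ n • t' := by
      rw [ht', hC]
      refine tate_T (G.ch_ne g) hβ ?_ h4
      have h6 := hsim g hg.2.1
      rw [pow_one] at h6
      exact h6
    rw [h3, h5, clT_smul]
    rfl
  have h1 := hT _ hcl
  have h2 : ∀ c ∈ HSp T ℚ_[ℓ] (pw X 1) n, Kills B (frmL ℓ e 1 (ii n) c) := by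
    intro c hc
    rw [HSp] at hc
    induction hc using Submodule.span_induction with
    | mem w hw =>
      obtain ⟨c, hc, rfl⟩ := hw
      rw [frmL_em]
      exact hB _ n (by ring) _ (isHodge_frmQ hP hf he1 hspan (ii n) (l := n) (by ring) hc)
    | zero =>
      rw [frmL_zero, kills_iff]
      have h3 : dvR B (0 : (Fin (n + n) → ι) → ℚ_[ℓ]) = 0 := map_zero _
      exact h3
    | add x y _ _ hx hy =>
      rw [frmL_add, kills_iff, dv_add', kills_iff.1 hx, kills_iff.1 hy, add_zero]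
    | smul r x _ hx =>
      rw [frmL_smul, kills_iff, dv_smul', kills_iff.1 hx, smul_zero]
  have h3 := kills_iff.1 (h2 _ h1)
  have h4 := congrArg mt h3
  rw [mt_dv, mt_frm_clT he1, Matrix.mul_smul, Matrix.smul_mul, ← smul_add] at h4
  have h5 : ((-1 : ℚ_[ℓ]) ^ (n * n)) ≠ 0 := pow_ne_zero _ (neg_ne_zero.2 one_ne_zero)
  have h6 := (smul_eq_zero.1 h4).resolve_left h5
  rw [ht', mt_two, hC] at h6
  exact h6

end Main

end Run7.h877.TS
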