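import Pool.Agent.Run7.h877.TS.Two

/-!
# Forms in both halves of the variables and the pairing of the monomials
-/

set_option autoImplicit false
set_option linter.unusedSectionVars false

namespace Run7.h877.TS

open Matrix Module
open Run7.h877.MT

variable {ι : Type} [Fintype ι] [DecidableEq ι] {K : Type} [Field K] {n : ℕ}

/-- the pairing of the monomials -/
structure IsOm (n : ℕ) (Om : Matrix (Fin n → ι) (Fin n → ι) K) : Prop where
  card : Fintype.card ι = 2 * n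
  h0 : ∀ u w, (∃ s t, u s = w t) → Om u w = 0
  h0' : ∀ u w, ¬ Function.Injective u → Om u w = 0
  h1 : ∀ u w (σ : Equiv.Perm (Fin n)), Om (u ∘ σ) w = sg K σ * Om u w
  h2 : ∀ u w, Function.Injective u → Function.Injective w → (∀ s t, u s ≠ w t) → Om u w ≠ 0

/-- alternating in the columns -/
def Al {κ : Type} (M : Matrix (Fin n → ι) κ K) : Prop :=
  As ι K n * M = ((Nat.factorial n : ℕ) : K) • M

lemma IsOm.left [CharZero K] {Om : Matrix (Fin n → ι) (Fin n → ι) K} (h : IsOm n Om)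
    {κ : Type} {Y : Matrix (Fin n → ι) κ K} (hY : Al Y) (h0 : Omᵀ * Y = 0) : Y = 0 := by
  ext u c
  have h3 : (fun u => Y u c) = 0 := by
    refine alt_indep h.card h.h0 h.h0' h.h1 h.h2 (S := fun u => Y u c) ?_ fun w => ?_
    · refine alt_of_As ?_
      funext u
      exact congrFun (congrFun hY u) c
    · have h4 : ∑ j, Omᵀ w j * Y j c = 0 := by
        rw [← Matrix.mul_apply, h0]
        rfl
      rw [← h4]
      refine Finset.sum_congr rfl fun u _ => ?_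
      rw [Matrix.transpose_apply, mul_comm]
  exact congrFun h3 u

/-- **Both sides.** -/
lemma IsOm.both [CharZero K] {Om : Matrix (Fin n → ι) (Fin n → ι) K} (h : IsOm n Om)
    {Y : Matrix (Fin n → ι) (Fin n → ι) K} (hY : Al Y) (hY' : Al Yᵀ)
    (h0 : Omᵀ * Y * Om = 0) : Y = 0 := by
  have h1 : Y * Om = 0 := by
    refine h.left (Y := Y * Om) ?_ ?_
    · rw [Al, ← Matrix.mul_assoc, hY, Matrix.smul_mul]
    · rw [← Matrix.mul_assoc, h0]
  have h2 : Yᵀ = 0 := by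
    refine h.left hY' ?_
    rw [← Matrix.transpose_mul, h1, Matrix.transpose_zero]
  have h3 := congrArg Matrix.transpose h2
  rwa [Matrix.transpose_transpose, Matrix.transpose_zero] at h3

lemma al_of_biAlt {f : (Fin (n + n) → ι) → K} (hf : BiAlt f) : Al (mt f) ∧ Al (mt f)ᵀ := by
  constructor
  · ext u w
    exact congrFun (As_of_alt (hf.1 w)) u
  · ext w u
    exact congrFun (As_of_alt (hf.2 u)) w

lemma As_dmT (D : Matrix ι ι K) : As ι K n * (dm n D)ᵀ = (dm n D)ᵀ * As ι K n := by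
  have h := congrArg Matrix.transpose (As_dm (n := n) D)
  rw [Matrix.transpose_mul, Matrix.transpose_mul, As_symm] at h
  exact h.symm

/-- the transformed form -/
lemma al_tm {M : Matrix (Fin n → ι) (Fin n → ι) K} (B : Matrix ι ι K) (h : Al M) (h' : Al Mᵀ) :
    Al (tm n B * M * (tm n B)ᵀ) ∧ Al (tm n B * M * (tm n B)ᵀ)ᵀ := by
  have key : ∀ M : Matrix (Fin n → ι) (Fin n → ι) K, Al M → Al (tm n B * M * (tm n B)ᵀ) := by
    intro M h
    rw [Al, ← Matrix.mul_assoc, ← Matrix.mul_assoc, As_tm, Matrix.mul_assoc (tm n B), h,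
      Matrix.mul_smul, Matrix.smul_mul]
  refine ⟨key M h, ?_⟩
  rw [Matrix.transpose_mul, Matrix.transpose_mul, Matrix.transpose_transpose, ← Matrix.mul_assoc]
  exact key _ h'

/-- **Derivations and the pairing.** -/
lemma kills_of_om [CharZero K] {Om : Matrix (Fin n → ι) (Fin n → ι) K} (h : IsOm n Om)
    {β D : Matrix ι ι K} (hβ : IsUnit β.det) (hD : Skew β D)
    (hOm : dm n D * Om + Om * (dm n D)ᵀ = 0) {f : (Fin (n + n) → ι) → K} (hf : BiAlt f)
    (hk : dm n D * (Omᵀ * (tm n (β⁻¹)ᵀ * mt f * (tm n (β⁻¹)ᵀ)ᵀ) * Om) +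
      Omᵀ * (tm n (β⁻¹)ᵀ * mt f * (tm n (β⁻¹)ᵀ)ᵀ) * Om * (dm n D)ᵀ = 0) : Kills D f := by
  obtain ⟨hf1, hf2⟩ := al_of_biAlt hf
  obtain ⟨C, hC⟩ : ∃ C, C = tm n (β⁻¹)ᵀ := ⟨_, rfl⟩
  obtain ⟨hT1, hT2⟩ := al_tm (β⁻¹)ᵀ hf1 hf2
  rw [← hC] at hk hT1 hT2
  have hC1 : (tm n β)ᵀ * C = 1 := by
    rw [hC, tm_transpose, ← tm_mul, ← Matrix.transpose_mul, Matrix.mul_nonsing_inv β hβ,
      Matrix.transpose_one, tm_one]
  have hC2 : C * (tm n β)ᵀ = 1 := by
    rw [hC, tm_transpose, ← tm_mul, ← Matrix.transpose_mul, Matrix.nonsing_inv_mul β hβ,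
      Matrix.transpose_one, tm_one]
  obtain ⟨T, hT⟩ : ∃ T, T = C * mt f * Cᵀ := ⟨_, rfl⟩
  rw [← hT] at hk hT1 hT2
  obtain ⟨E, hE⟩ : ∃ E, E = dm n D := ⟨_, rfl⟩
  have hAE : As ι K n * Eᵀ = Eᵀ * As ι K n := by rw [hE]; exact As_dmT D
  have hAE' : As ι K n * E = E * As ι K n := by rw [hE]; exact As_dm D
  rw [← hE] at hk hOm
  have h1 : Om * Eᵀ = -(E * Om) := by
    rw [eq_neg_iff_add_eq_zero, add_comm]
    exact hOm
  have h2 : E * Omᵀ = -(Omᵀ * Eᵀ) := by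
    have h3 := congrArg Matrix.transpose h1
    rw [Matrix.transpose_mul, Matrix.transpose_transpose, Matrix.transpose_neg,
      Matrix.transpose_mul] at h3
    exact h3
  have h3 : Omᵀ * (Eᵀ * T + T * E) * Om = 0 := by
    have h4 : E * (Omᵀ * T * Om) + Omᵀ * T * Om * Eᵀ = -(Omᵀ * (Eᵀ * T + T * E) * Om) := by
      have h5 : E * (Omᵀ * T * Om) = (E * Omᵀ) * (T * Om) := by
        simp only [Matrix.mul_assoc]
      have h6 : Omᵀ * T * Om * Eᵀ = Omᵀ * T * (Om * Eᵀ) := by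
        simp only [Matrix.mul_assoc]
      rw [h5, h6, h2, h1]
      simp only [Matrix.neg_mul, Matrix.mul_neg, Matrix.mul_add, Matrix.add_mul, Matrix.mul_assoc,
        neg_add]
    rw [h4] at hk
    exact neg_eq_zero.1 hk
  have h4 : Eᵀ * T + T * E = 0 := by
    refine h.both ?_ ?_ h3
    · rw [Al, Matrix.mul_add, ← Matrix.mul_assoc, ← Matrix.mul_assoc, hAE, Matrix.mul_assoc, hT1,
        Matrix.mul_smul, Matrix.smul_mul, ← smul_add]
    · rw [Al, Matrix.transpose_add, Matrix.transpose_mul, Matrix.transpose_mul,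
        Matrix.transpose_transpose, Matrix.mul_add, ← Matrix.mul_assoc _ Tᵀ E,
        ← Matrix.mul_assoc _ Eᵀ Tᵀ, hAE, Matrix.mul_assoc Eᵀ, hT2, Matrix.mul_smul,
        Matrix.smul_mul, ← smul_add]
  have h5 : C * E = -(Eᵀ * C) := by
    have h6 : E * (tm n β)ᵀ + (tm n β)ᵀ * Eᵀ = 0 := by rw [hE]; exact dm_tm_skew hD
    have h7 : C * (E * (tm n β)ᵀ + (tm n β)ᵀ * Eᵀ) * C = 0 := by
      rw [h6, Matrix.mul_zero, Matrix.zero_mul]
    have h8 : C * (E * (tm n β)ᵀ + (tm n β)ᵀ * Eᵀ) * C =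
        C * E * ((tm n β)ᵀ * C) + (C * (tm n β)ᵀ) * (Eᵀ * C) := by
      simp only [Matrix.mul_add, Matrix.add_mul, Matrix.mul_assoc]
    rw [h8, hC1, hC2, Matrix.mul_one, Matrix.one_mul] at h7
    rw [eq_neg_iff_add_eq_zero]
    exact h7
  have h6 : Eᵀ * Cᵀ = -(Cᵀ * E) := by
    have h7 := congrArg Matrix.transpose h5
    rw [Matrix.transpose_mul, Matrix.transpose_neg, Matrix.transpose_mul,
      Matrix.transpose_transpose] at h7
    exact h7
  have h7 : C * (E * mt f + mt f * Eᵀ) * Cᵀ = 0 := by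
    have h8 : C * (E * mt f + mt f * Eᵀ) * Cᵀ =
        (C * E) * (mt f * Cᵀ) + C * mt f * (Eᵀ * Cᵀ) := by
      simp only [Matrix.mul_add, Matrix.add_mul, Matrix.mul_assoc]
    rw [h8, h5, h6]
    rw [hT] at h4
    have h9 : -(Eᵀ * C) * (mt f * Cᵀ) + C * mt f * -(Cᵀ * E) =
        -(Eᵀ * (C * mt f * Cᵀ) + C * mt f * Cᵀ * E) := by
      simp only [Matrix.neg_mul, Matrix.mul_neg, Matrix.mul_assoc, neg_add]
    rw [h9, h4, neg_zero]
  have h8 : E * mt f + mt f * Eᵀ = 0 := by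
    have h9 : (tm n β)ᵀ * (C * (E * mt f + mt f * Eᵀ) * Cᵀ) * (tm n β) = 0 := by
      rw [h7, Matrix.mul_zero, Matrix.zero_mul]
    have h10 : Cᵀ * tm n β = 1 := by
      have h11 := congrArg Matrix.transpose hC1
      rwa [Matrix.transpose_mul, Matrix.transpose_transpose, Matrix.transpose_one] at h11
    have h12 : (tm n β)ᵀ * (C * (E * mt f + mt f * Eᵀ) * Cᵀ) * (tm n β) =
        ((tm n β)ᵀ * C) * (E * mt f + mt f * Eᵀ) * (Cᵀ * tm n β) := by
      simp only [Matrix.mul_assoc]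
    rw [h12, hC1, h10, Matrix.one_mul, Matrix.mul_one] at h9
    exact h9
  rw [kills_iff]
  have h9 : mt (dv D f) = 0 := by
    rw [mt_dv, ← hE, h8]
  rw [← two_mt (dv D f), h9]
  rfl

/-- **The class of a Tate form.** -/
lemma tate_T {β g : Matrix ι ι K} {χ : K} (hχ : χ ≠ 0) (hβ : IsUnit β.det)
    (hg : gᵀ * β * g = χ • β) {f : (Fin (n + n) → ι) → K} (hf : ga g f = χ ^ n • f) :
    ga gᵀ (two (tm n (β⁻¹)ᵀ * mt f * (tm n (β⁻¹)ᵀ)ᵀ)) =
      χ ^ n • two (tm n (β⁻¹)ᵀ * mt f * (tm n (β⁻¹)ᵀ)ᵀ) := by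
  have h1 : g * β⁻¹ * gᵀ = χ • β⁻¹ := by
    have h2 : (χ⁻¹ • (β⁻¹ * gᵀ * β)) * g = 1 := by
      rw [Matrix.smul_mul, Matrix.mul_assoc, Matrix.mul_assoc, ← Matrix.mul_assoc gᵀ, hg,
        Matrix.mul_smul, Matrix.nonsing_inv_mul β hβ, smul_smul, inv_mul_cancel₀ hχ, one_smul]
    have h3 := mul_eq_one_comm.1 h2
    rw [Matrix.mul_smul] at h3
    have h4 : g * (β⁻¹ * gᵀ * β) = χ • 1 := by
      have h5 := congrArg (fun M => χ • M) h3
      simp only [smul_smul, mul_inv_cancel₀ hχ, one_smul] at h5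
      exact h5
    have h6 := congrArg (fun M => M * β⁻¹) h4
    simp only [Matrix.mul_assoc, Matrix.mul_nonsing_inv β hβ, Matrix.mul_one, Matrix.smul_mul,
      Matrix.one_mul] at h6
    rw [Matrix.mul_assoc]
    exact h6
  have h2 : (tm n g)ᵀ * tm n (β⁻¹)ᵀ * tm n g = χ ^ n • tm n (β⁻¹)ᵀ := by
    rw [tm_transpose, ← tm_mul, ← tm_mul, ← tm_smul]
    congr 1
    rw [← Matrix.transpose_smul, ← h1]
    simp only [Matrix.transpose_mul, Matrix.transpose_transpose, Matrix.mul_assoc]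
  obtain ⟨C, hC⟩ : ∃ C, C = tm n (β⁻¹)ᵀ := ⟨_, rfl⟩
  rw [← hC] at h2 ⊢
  have h3 : mt f = (χ ^ n)⁻¹ • (tm n g * mt f * (tm n g)ᵀ) := by
    rw [← mt_ga, hf]
    have h4 : mt (χ ^ n • f) = χ ^ n • mt f := rfl
    rw [h4, smul_smul, inv_mul_cancel₀ (pow_ne_zero _ hχ), one_smul]
  have h4 : (tm n g)ᵀ * Cᵀ * tm n g = χ ^ n • Cᵀ := by
    have h5 := congrArg Matrix.transpose h2
    rw [Matrix.transpose_mul, Matrix.transpose_mul, Matrix.transpose_transpose,
      Matrix.transpose_smul, ← Matrix.mul_assoc] at h5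
    exact h5
  have h5 : mt (ga gᵀ (two (C * mt f * Cᵀ))) = χ ^ n • (C * mt f * Cᵀ) := by
    rw [mt_ga, mt_two, ← tm_transpose, Matrix.transpose_transpose]
    have h6 : (tm n g)ᵀ * (C * mt f * Cᵀ) * tm n g =
        (χ ^ n)⁻¹ • (((tm n g)ᵀ * C * tm n g) * mt f * ((tm n g)ᵀ * Cᵀ * tm n g)) := by
      conv_lhs => rw [h3]
      simp only [Matrix.mul_smul, Matrix.smul_mul, Matrix.mul_assoc]
    rw [h6, h2, h4]
    simp only [Matrix.mul_smul, Matrix.smul_mul, Matrix.mul_assoc, smul_smul]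
    congr 1
    rw [← mul_assoc, inv_mul_cancel₀ (pow_ne_zero _ hχ), one_mul]
  have h6 := congrArg two h5
  rw [two_mt] at h6
  rw [h6]
  rfl

end Run7.h877.TS
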