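import Pool.Agent.Run7.h877.TS.Fin3

/-!
# Derivations which multiply the Tate classes by numbers
-/

set_option autoImplicit false
set_option linter.unusedSectionVars false

open CategoryTheory AlgebraicGeometry TensorProduct

universe u

namespace Run7.h877.TS

open Module Matrix
open Pool.Agent.H914 hiding ev
open Pool.Agent.H914.VarClass Pool.Agent.H914.VarClass.Obj
  Pool.Agent.H914.WeilCohomology
open Pool.Agent.Y133.Half (pw prj)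
open Pool.Agent.Y121.AH hiding IsHodge
open Pool.Agent.N996.BP (IsPHS)
open Pool.Agent.N996.BP.Geo (tauT Fx lop cc)
open Run7.h877.MT Run7.h877.TX

variable {k : Type u} [Field k] {𝒱 : VarClass k} {ops : CycleOps 𝒱}

section

variable (W : WeilCohomology.{u, 0} ops) (X : 𝒱.Obj)

/-- A natural derivation of the cohomology of `X` and `X ^ (n + 1)` which multiplies the traces by
numbers. -/
structure SOp (n : ℕ) (s : W.K) where
  φ0 : W.H X →ₗ[W.K] W.H X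
  φ : W.H (pw X n) →ₗ[W.K] W.H (pw X n)
  mul0 : ∀ a b, φ0 (a * b) = φ0 a * b + a * φ0 b
  mul : ∀ a b, φ (a * b) = φ a * b + a * φ b
  comp : ∀ i a, φ (W.map (prj X n i) a) = W.map (prj X n i) (φ0 a)
  tr : ∀ c, W.tr (pw X n) (φ c) = s * ((pw X n).dim : W.K) * W.tr (pw X n) c

variable {W X} {n : ℕ} {s : W.K} (F : SOp W X n s)

lemma SOp.one : F.φ 1 = 0 := by
  have h := F.mul 1 1
  rw [mul_one, mul_one, one_mul] at h
  exact left_eq_add.1 h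

lemma SOp.lw_eq (w : List (Fin (n + 1) × W.H X)) : F.φ (lw W n w) = dw W F.φ0 n w := by
  induction w with
  | nil => rw [lw, dw, F.one]
  | cons p w ih => rw [lw, dw, F.mul, F.comp, ih]

lemma SOp.mon_eq {m : ℕ} (i : Fin m → Fin (n + 1)) (v : Fin m → W.H X) :
    F.φ (mon W n i v) = ∑ s, mon W n i (Function.update v s (F.φ0 (v s))) := by
  rw [mon_lw, F.lw_eq, dw_mon]

variable {ι : Type} [Fintype ι] [DecidableEq ι]

/-- **The form of an eigenclass.** -/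
lemma SOp.dv_frm {y : ι → W.H X} {Z : Matrix ι ι W.K} (hy : ∀ v, F.φ0 (vec y v) = vec y (Z *ᵥ v))
    {m : ℕ} (i : Fin m → Fin (n + 1)) {c : W.H (pw X n)} {r : W.K} (hc : F.φ c = r • c) :
    dv Z (frm y n i c) = (s * ((pw X n).dim : W.K) - r) • frm y n i c := by
  refine ev_inj fun v => ?_
  rw [← sum_update_eq, ev_smul_left, sum_ev hy, ← F.mon_eq i fun s => vec y (v s), ev_frm]
  have h1 := F.tr (c * mon W n i fun s => vec y (v s))
  rw [F.mul, hc, smul_mul_assoc, map_add, map_smul, smul_eq_mul] at h1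
  linear_combination h1

/-- Multiplication by an eigenclass. -/
lemma SOp.pow_mul {L : W.H X} {q : W.K} (hL : F.φ0 L = q • L) (r : ℕ) (z : W.H X) :
    F.φ0 (L ^ r * z) = (q * (r : W.K)) • (L ^ r * z) + L ^ r * F.φ0 z := by
  induction r with
  | zero => rw [pow_zero, one_mul, one_mul, Nat.cast_zero, mul_zero, zero_smul, zero_add]
  | succ r ih =>
    rw [pow_succ', mul_assoc, mul_assoc, F.mul0, hL, ih, smul_mul_assoc, mul_add, mul_smul_comm,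
      ← add_assoc, ← add_smul]
    congr 2
    push_cast
    ring

end

variable {T : Pool.Agent.Y121.AH.HodgeTheory ops} {X : 𝒱.Obj} {ℓ : ℕ} [Fact ℓ.Prime]
  [Algebra T.W.K ℚ_[ℓ]] {Γ : Type} [Group Γ] [TopologicalSpace Γ] [IsTopologicalGroup Γ]
  [CompactSpace Γ] (G : GAct T X ℓ Γ) {ι : Type} [Fintype ι] [DecidableEq ι]

section

variable {W : WeilCohomology.{u, 0} ops} {X : 𝒱.Obj} {n : ℕ} {z : W.H X → W.H X}

lemma lw_mem {w : List (Fin (n + 1) × W.H X)} (hw : Deg1 W w) :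
    lw W n w ∈ W.gr (pw X n) w.length := by
  induction w with
  | nil => exact W.one_mem _
  | cons p w ih =>
    rw [lw, List.length_cons, add_comm]
    exact W.mul_mem (map_pr_mem W (hw p List.mem_cons_self))
      (ih fun q hq => hw q (List.mem_cons_of_mem _ hq))

lemma dw_mem (hz : ∀ a ∈ W.gr X 1, z a ∈ W.gr X 1) {w : List (Fin (n + 1) × W.H X)}
    (hw : Deg1 W w) : dw W z n w ∈ W.gr (pw X n) w.length := by
  induction w with
  | nil => exact Submodule.zero_mem _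
  | cons p w ih =>
    have hw' : Deg1 W w := fun q hq => hw q (List.mem_cons_of_mem _ hq)
    rw [dw, List.length_cons, add_comm w.length]
    exact Submodule.add_mem _
      (W.mul_mem (map_pr_mem W (hz _ (hw p List.mem_cons_self))) (lw_mem hw'))
      (W.mul_mem (map_pr_mem W (hw p List.mem_cons_self)) (ih hw'))

/-- the top degree -/
lemma top_eq {Z : 𝒱.Obj} {l : W.H Z} (hl : l ∈ W.gr Z (2 * Z.dim)) (hl1 : W.tr Z l = 1)
    {x : W.H Z} (hx : x ∈ W.gr Z (2 * Z.dim)) : x = W.tr Z x • l := by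
  rw [← sub_eq_zero]
  refine W.nondeg _ fun b => ?_
  refine gr_induction (W.isInternal Z) (p := fun b =>
    W.tr Z ((x - W.tr Z x • l) * b) = 0) ?_ ?_ b
  · intro j b hb
    have h2 : x - W.tr Z x • l ∈ W.gr Z (2 * Z.dim) :=
      Submodule.sub_mem _ hx (Submodule.smul_mem _ _ hl)
    by_cases hj : j = 0
    · subst hj
      rw [W.gr_zero] at hb
      obtain ⟨s, rfl⟩ := Submodule.mem_span_singleton.1 hb
      rw [mul_smul_comm, mul_one, map_smul, map_sub, map_smul, hl1, smul_eq_mul, smul_eq_mul,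
        mul_one, sub_self, mul_zero]
    · exact W.tr_eq_zero (W.mul_mem h2 hb) (by omega)
  · intro a b ha hb
    rw [mul_add, map_add, ha, hb, add_zero]

end

/-- An element of a Lie algebra, acting on the cohomology of the powers by derivations, which
multiplies the classes of codimension `j` in the set `S` by `s * j`. -/
structure GSys (S : ∀ n, ℕ → (baseW T.W ℚ_[ℓ]).H (pw X n) → Prop) (s : ℚ_[ℓ])
    (δ : ∀ n, (baseW T.W ℚ_[ℓ]).H (pw X n) →ₗ[(baseW T.W ℚ_[ℓ]).K]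
      (baseW T.W ℚ_[ℓ]).H (pw X n)) : Prop where
  deg : ∀ a : (baseW T.W ℚ_[ℓ]).H X, a ∈ (baseW T.W ℚ_[ℓ]).gr X 1 →
    δ 0 a ∈ (baseW T.W ℚ_[ℓ]).gr X 1
  mul : ∀ n a b, δ n (a * b) = δ n a * b + a * δ n b
  comp : ∀ n (i : Fin (n + 1)) (a : (baseW T.W ℚ_[ℓ]).H X),
    δ n ((baseW T.W ℚ_[ℓ]).map (prj X n i) a) = (baseW T.W ℚ_[ℓ]).map (prj X n i) (δ 0 a)
  tate : ∀ n j c, S n j c → δ n c = (show (baseW T.W ℚ_[ℓ]).K from s * (j : ℚ_[ℓ])) • c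

variable {S : ∀ n, ℕ → (baseW T.W ℚ_[ℓ]).H (pw X n) → Prop} {s : ℚ_[ℓ]}
    {δ : ∀ n, (baseW T.W ℚ_[ℓ]).H (pw X n) →ₗ[(baseW T.W ℚ_[ℓ]).K]
      (baseW T.W ℚ_[ℓ]).H (pw X n)}

lemma GSys.lw_eq (h : GSys S s δ) (n : ℕ)
    (w : List (Fin (n + 1) × (baseW T.W ℚ_[ℓ]).H X)) :
    δ n (lw (baseW T.W ℚ_[ℓ]) n w) = dw (baseW T.W ℚ_[ℓ]) (δ 0) n w := by
  induction w with
  | nil =>
    have h1 := h.mul n 1 1
    rw [mul_one, mul_one, one_mul] at h1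
    exact left_eq_add.1 h1
  | cons p w ih =>
    have h1 := h.mul n ((baseW T.W ℚ_[ℓ]).map (prj X n p.1) p.2) (lw (baseW T.W ℚ_[ℓ]) n w)
    rw [h.comp, ih] at h1
    exact h1

/-- the derivation of `X` and of one power -/
lemma GSys.exists_op (h : GSys S s δ)
    (hSH : ∀ n j (a : T.W.H (pw X n)), Pool.Agent.Y121.AH.IsHodge T (pw X n) j a →
      S n j (em T.W ℚ_[ℓ] a))
    (hgen : Algebra.adjoin T.W.K (T.W.gr X 1 : Set (T.W.H X)) = ⊤) (n : ℕ)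
    (hnt : Nontrivial (T.W.H (pw X n))) :
    ∃ F : SOp (baseW T.W ℚ_[ℓ]) X n s, F.φ0 = δ 0 ∧ F.φ = δ n := by
  obtain ⟨l, hl, hl1⟩ := exists_tr_hodge T (pw X n)
  have hlT := h.tate n _ _ (hSH n _ l hl)
  have hlg : em T.W ℚ_[ℓ] l ∈ (baseW T.W ℚ_[ℓ]).gr (pw X n) (2 * (pw X n).dim) := em_gr hl.1
  have hl1' : (baseW T.W ℚ_[ℓ]).tr (pw X n) (em T.W ℚ_[ℓ] l) = 1 := by
    rw [em_tr, hl1]
    exact map_one (algebraMap T.W.K ℚ_[ℓ])
  refine ⟨{ φ0 := δ 0, φ := δ n, mul0 := h.mul 0, mul := h.mul n, comp := h.comp n, tr := ?_ },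
    rfl, rfl⟩
  intro c
  refine wd_ind (baseW T.W ℚ_[ℓ]) (gen_base hgen) (n := n) (P := fun c =>
    (baseW T.W ℚ_[ℓ]).tr (pw X n) (δ n c) = (show (baseW T.W ℚ_[ℓ]).K from s) *
      ((pw X n).dim : (baseW T.W ℚ_[ℓ]).K) * (baseW T.W ℚ_[ℓ]).tr (pw X n) c) ?_ ?_ ?_ ?_ c
  · rw [map_zero, map_zero, mul_zero]
  · intro a b ha hb
    rw [map_add, map_add, ha, hb, map_add, mul_add]
  · intro r a ha
    rw [map_smul, map_smul, ha, map_smul, smul_eq_mul, smul_eq_mul]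
    ring
  · intro w
    by_cases hw : w.1.length = 2 * (pw X n).dim
    · have h1 := lw_mem w.2
      rw [hw] at h1
      have h2 := top_eq hlg hl1' h1
      have h3 : δ n (lw (baseW T.W ℚ_[ℓ]) n w.1) =
          (baseW T.W ℚ_[ℓ]).tr (pw X n) (lw (baseW T.W ℚ_[ℓ]) n w.1) •
            ((show (baseW T.W ℚ_[ℓ]).K from s * ((pw X n).dim : ℚ_[ℓ])) • em T.W ℚ_[ℓ] l) := by
        conv_lhs => rw [h2]
        rw [map_smul, hlT]
      rw [h3, map_smul, map_smul, hl1', smul_eq_mul, smul_eq_mul, mul_one, mul_comm]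
      rfl
    · rw [(baseW T.W ℚ_[ℓ]).tr_eq_zero (lw_mem w.2) hw, mul_zero]
      exact (congrArg ((baseW T.W ℚ_[ℓ]).tr (pw X n)) (h.lw_eq n w.1)).trans
        ((baseW T.W ℚ_[ℓ]).tr_eq_zero (dw_mem h.deg w.2) hw)

section Main

variable {e f x : ι → T.W.H X} {D : X.Cycles}
  (hf : ∀ a b, T.W.tr X (e a * f b) = if a = b then 1 else 0)
  (he1 : ∀ a, e a ∈ T.W.gr X 1) (hspan : ∀ z ∈ T.W.gr X 1, ∃ v, vec e v = z)
  (hG : G.HT) (hnt : ∀ n, Nontrivial (T.W.H (pw X n)))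
  (h0 : 0 < X.dim) (hD : X.IsCyc 1 D)
  (hd : IsDual T.W X x (fun a => lam T.W X D (e a)) (2 * (X.dim - 1) + 1))
  (hxs : ∀ z ∈ T.W.gr X 1, ∃ v, vec x v = z)

include he1 hspan hnt h0 hD hd in
/-- **The matrix of an element of the Lie algebra.** -/
theorem exists_M (h : GSys S s δ)
    (hSH : ∀ n j (a : T.W.H (pw X n)), Pool.Agent.Y121.AH.IsHodge T (pw X n) j a →
      S n j (em T.W ℚ_[ℓ] a))
    (hgen : Algebra.adjoin T.W.K (T.W.gr X 1 : Set (T.W.H X)) = ⊤) :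
    ∃ M : Matrix ι ι ℚ_[ℓ], (∀ v, δ 0 (vecL ℓ e v) = vecL ℓ e (M *ᵥ v)) ∧
      ∀ (n m : ℕ) (t : (Fin (n + 1) → ι) → ℚ_[ℓ]), n + 1 = 2 * m → S n m (clsL ℓ x n t) →
        MT.Kills (M - (s / 2) • 1) t := by
  obtain ⟨M, hM'⟩ : ∃ M : Matrix ι ι ℚ_[ℓ], ∀ v, δ 0 (vecL ℓ e v) = vecL ℓ e (M *ᵥ v) :=
    exists_mat (W := baseW T.W ℚ_[ℓ]) (span_base hspan)
      (fun a => em_gr (he1 a)) (φ := δ 0) fun z hz => h.deg z hz
  refine ⟨M, hM', fun n m t hnm hS => ?_⟩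
  have h2 := h.tate n m _ hS
  obtain ⟨F, hF0, hF⟩ := h.exists_op hSH hgen n (hnt n)
  have hL : F.φ0 ((baseW T.W ℚ_[ℓ]).cl X D) =
      (show (baseW T.W ℚ_[ℓ]).K from s) • (baseW T.W ℚ_[ℓ]).cl X D := by
    have h3 := h.tate 0 1 _ (hSH 0 1 (T.W.cl X D) (IsHodge.cl hD))
    rw [Nat.cast_one, mul_one] at h3
    rw [hF0]
    exact h3
  have hy : ∀ v : ι → ℚ_[ℓ], F.φ0 (vec (W := baseW T.W ℚ_[ℓ])
      (fun a => em T.W ℚ_[ℓ] (lam T.W X D (e a))) v) = vec (W := baseW T.W ℚ_[ℓ])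
      (fun a => em T.W ℚ_[ℓ] (lam T.W X D (e a)))
        ((M + (s * ((X.dim - 1 : ℕ) : ℚ_[ℓ])) • 1) *ᵥ v) := by
    intro v
    rw [vec_lam, vec_lam]
    have h4 := F.pow_mul hL (X.dim - 1) (vecL ℓ e v)
    have h5 : F.φ0 (vecL ℓ e v) = vecL ℓ e (M *ᵥ v) := by rw [hF0]; exact hM' v
    rw [h5] at h4
    have h6 : vecL ℓ e ((M + (s * ((X.dim - 1 : ℕ) : ℚ_[ℓ])) • 1) *ᵥ v) =
        (show (baseW T.W ℚ_[ℓ]).K from s * ((X.dim - 1 : ℕ) : ℚ_[ℓ])) • vecL ℓ e v +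
          vecL ℓ e (M *ᵥ v) := by
      rw [Matrix.add_mulVec, Matrix.smul_mulVec, Matrix.one_mulVec, add_comm (M *ᵥ v)]
      exact (vec_add (W := baseW T.W ℚ_[ℓ]) _ _ _).trans
        (congrArg (fun z => z + vecL ℓ e (M *ᵥ v)) (vec_smul (W := baseW T.W ℚ_[ℓ]) _ _ _))
    refine Eq.trans ?_ (congrArg (fun z => lam (baseW T.W ℚ_[ℓ]) X D z) h6.symm)
    have h7 : lam (baseW T.W ℚ_[ℓ]) X D ((show (baseW T.W ℚ_[ℓ]).K from
        s * ((X.dim - 1 : ℕ) : ℚ_[ℓ])) • vecL ℓ e v + vecL ℓ e (M *ᵥ v)) =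
        (show (baseW T.W ℚ_[ℓ]).K from s * ((X.dim - 1 : ℕ) : ℚ_[ℓ])) •
          ((baseW T.W ℚ_[ℓ]).cl X D ^ (X.dim - 1) * vecL ℓ e v) +
          (baseW T.W ℚ_[ℓ]).cl X D ^ (X.dim - 1) * vecL ℓ e (M *ᵥ v) := by
      have h8 : ∀ z, lam (baseW T.W ℚ_[ℓ]) X D z =
        (baseW T.W ℚ_[ℓ]).cl X D ^ (X.dim - 1) * z := fun z => rfl
      rw [h8, mul_add, mul_smul_comm]
    exact h4.trans h7.symm
  have h3 := F.dv_frm hy (fun s : Fin (n + 1) => s) (c := clsL ℓ x n t) (by rw [hF]; exact h2)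
  have h12 : frm (W := baseW T.W ℚ_[ℓ]) (fun a => em T.W ℚ_[ℓ] (lam T.W X D (e a))) n
      (fun s : Fin (n + 1) => s) (clsL ℓ x n t) = sgn ℚ_[ℓ] (2 * (X.dim - 1) + 1) n • t :=
    frm_cls (W := baseW T.W ℚ_[ℓ]) (dual_base hd) n t
  rw [h12] at h3
  have h4 : dv (M + (s * ((X.dim - 1 : ℕ) : ℚ_[ℓ])) • (1 : Matrix ι ι ℚ_[ℓ]))
      (sgn ℚ_[ℓ] (2 * (X.dim - 1) + 1) n • t) =
      (s * (((pw X n).dim : ℕ) : ℚ_[ℓ]) - s * (m : ℚ_[ℓ])) •
        (sgn ℚ_[ℓ] (2 * (X.dim - 1) + 1) n • t) := h3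
  have hs := sgn_ne ℚ_[ℓ] (2 * (X.dim - 1) + 1) n
  rw [dv_smul', smul_comm] at h4
  have h5 := smul_right_injective _ hs h4
  rw [dv_add, dv_smul, dv_one, smul_smul, dim_pw] at h5
  rw [kills_iff, sub_eq_add_neg, dv_add, dv_neg, dv_smul, dv_one, smul_smul]
  obtain ⟨g, hg⟩ : ∃ g, X.dim = g + 1 := ⟨X.dim - 1, by omega⟩
  rw [hg, Nat.add_sub_cancel] at h5
  have h6 : dv M t = (s * (m : ℚ_[ℓ])) • t := by
    have h7 : dv M t = ((s * (((n + 1) * (g + 1) : ℕ) : ℚ_[ℓ]) - s * (m : ℚ_[ℓ])) -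
        s * (g : ℚ_[ℓ]) * ((n + 1 : ℕ) : ℚ_[ℓ])) • t := by
      rw [sub_smul, ← h5, add_sub_cancel_right]
    rw [h7]
    congr 1
    have h8 : ((n + 1 : ℕ) : ℚ_[ℓ]) = 2 * (m : ℚ_[ℓ]) := by
      rw [hnm]; push_cast; ring
    rw [Nat.cast_mul, h8]
    push_cast
    ring
  rw [h6, ← sub_eq_add_neg, ← sub_smul]
  have h9 : s * (m : ℚ_[ℓ]) - s / 2 * ((n + 1 : ℕ) : ℚ_[ℓ]) = 0 := by
    rw [hnm]
    push_cast
    ring
  rw [h9, zero_smul]

include hG hnt h0 hD hd hxs in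
/-- **The matrix of an element of the Lie algebra of the monodromy group.** -/
theorem exists_Z (h : GSys G.IsT s δ)
    (hgen : Algebra.adjoin T.W.K (T.W.gr X 1 : Set (T.W.H X)) = ⊤) {U : Subgroup Γ}
      (hU : IsOpen (U : Set Γ)) :
    ∃ Z ∈ LU G hf he1 hspan U, ∀ v, δ 0 (vecL ℓ e v) = vecL ℓ e ((Z + (s / 2) • 1) *ᵥ v) := by
  obtain ⟨M, hM, hMk⟩ := exists_M he1 hspan hnt h0 hD hd h hG hgen
  refine ⟨M - (s / 2) • 1, ?_, fun v => by rw [hM, sub_add_cancel]⟩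
  intro n m t hm ht
  rcases n with _ | n
  · intro v
    exact Finset.sum_eq_zero fun s _ => s.elim0
  obtain ⟨Δ, hΔ, h1⟩ : ∃ Δ : Subgroup Γ, Δ.FiniteIndex ∧ ∀ g ∈ Δ,
      ∀ v : Fin (n + 1) → ι → ℚ_[ℓ],
        ev t (fun s => G.mat e f g *ᵥ v s) = G.χ g ^ m * ev t v := by
    obtain ⟨Δ, hΔ, h1⟩ := ht
    refine ⟨Δ.map U.subtype, finiteIndex_map hU hΔ, ?_⟩
    rintro _ ⟨g, hg, rfl⟩ v
    exact h1 g hg v
  have hnm : n + 1 = 2 * m := by omega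
  exact hMk n m t hnm (G.cls_tate hf he1 hspan hG (hnt n) h0 hD hd hxs hnm hΔ h1)

end Main

end Run7.h877.TS
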