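import Pool.Agent.Run7.h877.TS.Kil

/-!
# The alternating forms are semisimple
-/

set_option autoImplicit false
set_option linter.unusedSectionVars false

open CategoryTheory AlgebraicGeometry TensorProduct

universe u

namespace Run7.h877.TS

open Module Matrix
open Pool.Agent.H914 hiding ev
open Pool.Agent.H914.VarClass Pool.Agent.H914.VarClass.Obj
  Pool.Agent.H914.WeilCohomology
open Pool.Agent.Y133.Half (pw prj)
open Pool.Agent.Y121.AH hiding IsHodge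
open Pool.Agent.N996.BP (IsPHS)
open Pool.Agent.N996.BP.Geo (tauT Fx lop cc)
open Run7.h877.MT Run7.h877.TX

variable {k : Type u} [Field k] {𝒱 : VarClass k} {ops : CycleOps 𝒱}

variable {T : Pool.Agent.Y121.AH.HodgeTheory ops} {X : 𝒱.Obj} {ℓ : ℕ} [Fact ℓ.Prime]
  [Algebra T.W.K ℚ_[ℓ]] {Γ : Type} [Group Γ] [TopologicalSpace Γ] [IsTopologicalGroup Γ]
  [CompactSpace Γ] (G : GAct T X ℓ Γ) {ι : Type} [Fintype ι] [DecidableEq ι]

/-- The representation on `H(X, ℚ_ℓ)` is semisimple. -/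
def SemiAll (G : GAct T X ℓ Γ) : Prop :=
  ∀ U : Subgroup Γ, IsOpen (U : Set Γ) →
    ∀ V : Submodule (baseW T.W ℚ_[ℓ]).K ((baseW T.W ℚ_[ℓ]).H X),
      (∀ g ∈ U, ∀ v ∈ V, G.ρ0 g v ∈ V) →
      ∃ V' : Submodule (baseW T.W ℚ_[ℓ]).K ((baseW T.W ℚ_[ℓ]).H X),
        IsCompl V V' ∧ ∀ g ∈ U, ∀ v ∈ V', G.ρ0 g v ∈ V'

/-- stable under a subgroup of finite index: stable under an open subgroup -/
lemma exists_open_stab {V : Submodule (baseW T.W ℚ_[ℓ]).K ((baseW T.W ℚ_[ℓ]).H X)}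
    {Δ : Subgroup Γ} (hΔ : Δ.FiniteIndex) (h : ∀ g ∈ Δ, ∀ v ∈ V, G.ρ0 g v ∈ V) :
    ∃ U : Subgroup Γ, IsOpen (U : Set Γ) ∧ Δ ≤ U ∧ ∀ g ∈ U, ∀ v ∈ V, G.ρ0 g v ∈ V := by
  have hm : ∀ a b : Γ, ∀ x : (baseW T.W ℚ_[ℓ]).H X, G.ρ0 (a * b) x = G.ρ0 a (G.ρ0 b x) :=
    fun a b x => G.mul' 0 a b x
  let S : Subgroup Γ :=
    { carrier := {g | ∀ v ∈ V, G.ρ0 g v ∈ V ∧ G.ρ0 g⁻¹ v ∈ V}
      mul_mem' := by
        intro a b ha hb v hv
        constructor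
        · rw [hm]
          exact (ha _ (hb v hv).1).1
        · rw [_root_.mul_inv_rev, hm]
          exact (hb _ (ha v hv).2).2
      one_mem' := by
        intro v hv
        have h1 : G.ρ0 (1 : Γ) v = v := G.one' 0 v
        rw [inv_one, h1]
        exact ⟨hv, hv⟩
      inv_mem' := by
        intro a ha v hv
        rw [inv_inv]
        exact (ha v hv).symm }
  have hcl : IsClosed (S : Set Γ) := by
    have h1 : (S : Set Γ) = ⋂ (p : {v // v ∈ V} × {φ : Module.Dual (baseW T.W ℚ_[ℓ]).K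
        ((baseW T.W ℚ_[ℓ]).H X) // ∀ v ∈ V, φ v = 0}),
        {g | (show ℚ_[ℓ] from p.2.1 (G.ρ0 g p.1.1)) = 0} ∩
          {g | (show ℚ_[ℓ] from p.2.1 (G.ρ0 g⁻¹ p.1.1)) = 0} := by
      ext g
      rw [Set.mem_iInter]
      constructor
      · intro hg p
        exact ⟨p.2.2 _ (hg _ p.1.2).1, p.2.2 _ (hg _ p.1.2).2⟩
      · intro hg v hv
        constructor
        · by_contra hcon
          obtain ⟨φ, hφ, hS⟩ := Submodule.exists_le_ker_of_notMem hcon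
          exact hφ (hg ⟨⟨v, hv⟩, ⟨φ, fun w hw => LinearMap.mem_ker.1 (hS hw)⟩⟩).1
        · by_contra hcon
          obtain ⟨φ, hφ, hS⟩ := Submodule.exists_le_ker_of_notMem hcon
          exact hφ (hg ⟨⟨v, hv⟩, ⟨φ, fun w hw => LinearMap.mem_ker.1 (hS hw)⟩⟩).2
    rw [h1]
    refine isClosed_iInter fun p => IsClosed.inter ?_ ?_
    · exact isClosed_eq (G.cρ 0 p.1.1 p.2.1) continuous_const
    · exact isClosed_eq ((G.cρ 0 p.1.1 p.2.1).comp continuous_inv) continuous_const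
  have hle : Δ ≤ S := fun g hg v hv => ⟨h g hg v hv, h g⁻¹ (Δ.inv_mem hg) v hv⟩
  have hfi : S.FiniteIndex := Subgroup.finiteIndex_of_le hle
  exact ⟨S, S.isOpen_of_isClosed_of_finiteIndex hcl, hle, fun g hg v hv => (hg v hv).1⟩

/-- the forms of the classes on `X` -/
noncomputable def fA (ℓ : ℕ) [Fact ℓ.Prime] [Algebra T.W.K ℚ_[ℓ]] (e : ι → T.W.H X) (n : ℕ)
    (c : (baseW T.W ℚ_[ℓ]).H X) : (Fin n → ι) → ℚ_[ℓ] :=
  frmL ℓ e 0 (fun _ : Fin n => (0 : Fin 1)) c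

lemma fA_apply (e : ι → T.W.H X) {n : ℕ} (c : (baseW T.W ℚ_[ℓ]).H X) (u : Fin n → ι) :
    fA ℓ e n c u = (baseW T.W ℚ_[ℓ]).tr X
      (c * pr (W := baseW T.W ℚ_[ℓ]) (fun a => em T.W ℚ_[ℓ] (e a)) u) := by
  rw [fA, frmL, frm, mon_apply, pr]
  have h4 : (List.ofFn fun s : Fin n => (baseW T.W ℚ_[ℓ]).map (prj X 0 (0 : Fin 1))
      (em T.W ℚ_[ℓ] (e (u s)))).prod =
      (List.ofFn fun s => em T.W ℚ_[ℓ] (e (u s))).prod :=
    congrArg List.prod (congrArg List.ofFn (funext fun s => (baseW T.W ℚ_[ℓ]).map_id X _))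
  exact congrArg (fun z => (baseW T.W ℚ_[ℓ]).tr X (c * z)) h4

lemma fA_alt {e : ι → T.W.H X} (he1 : ∀ a, e a ∈ T.W.gr X 1) (n : ℕ)
    (c : (baseW T.W ℚ_[ℓ]).H X) : IsAlt (fA ℓ e n c) := by
  intro σ u
  rw [fA_apply, fA_apply, pr_perm _ (fun a => em_gr (he1 a)), mul_smul_comm, map_smul]
  rfl

lemma fA_add (e : ι → T.W.H X) {n : ℕ} (c d : (baseW T.W ℚ_[ℓ]).H X) :
    fA ℓ e n (c + d) = fA ℓ e n c + fA ℓ e n d :=
  frmL_add (X := X) (n := 0) e (fun _ : Fin n => (0 : Fin 1)) c d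

lemma fA_smul (e : ι → T.W.H X) {n : ℕ} (r : (baseW T.W ℚ_[ℓ]).K)
    (c : (baseW T.W ℚ_[ℓ]).H X) :
    fA ℓ e n (r • c) = (show ℚ_[ℓ] from r) • fA ℓ e n c :=
  frmL_smul (X := X) (n := 0) e (fun _ : Fin n => (0 : Fin 1)) r c

lemma fA_zero (e : ι → T.W.H X) (n : ℕ) :
    fA ℓ e n (0 : (baseW T.W ℚ_[ℓ]).H X) = 0 :=
  frmL_zero (X := X) (n := 0) e (fun _ : Fin n => (0 : Fin 1))

section Main

variable {e f : ι → T.W.H X}
  (hf : ∀ a b, T.W.tr X (e a * f b) = if a = b then 1 else 0)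
  (he1 : ∀ a, e a ∈ T.W.gr X 1) (hspan : ∀ z ∈ T.W.gr X 1, ∃ v, vec e v = z)
  (hnt : ∀ n, Nontrivial (T.W.H (pw X n)))

include hf he1 hspan hnt in
/-- all alternating forms are forms of classes -/
lemma fA_surj (hgen : Algebra.adjoin T.W.K (T.W.gr X 1 : Set (T.W.H X)) = ⊤) {n : ℕ}
    (hn : n = X.dim) (hcard : Fintype.card ι = 2 * n) {a : (Fin n → ι) → ℚ_[ℓ]}
    (ha : IsAlt a) : ∃ c, fA ℓ e n c = a := by
  have hom := isOmL (ℓ := ℓ) hf he1 hspan hnt hgen hn.symm hcard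
  let cc (S : (Fin n → ι) → ℚ_[ℓ]) : (baseW T.W ℚ_[ℓ]).H X :=
    ∑ u, (show (baseW T.W ℚ_[ℓ]).K from S u) •
      pr (W := baseW T.W ℚ_[ℓ]) (fun a => em T.W ℚ_[ℓ] (e a)) u
  have hcc : ∀ (S : (Fin n → ι) → ℚ_[ℓ]) w, fA ℓ e n (cc S) w = ∑ u, S u * omL ℓ e n u w := by
    intro S w
    rw [fA_apply]
    have h1 : (∑ u, (show (baseW T.W ℚ_[ℓ]).K from S u) •
        pr (W := baseW T.W ℚ_[ℓ]) (fun a => em T.W ℚ_[ℓ] (e a)) u) *
        pr (W := baseW T.W ℚ_[ℓ]) (fun a => em T.W ℚ_[ℓ] (e a)) w =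
        ∑ u, (show (baseW T.W ℚ_[ℓ]).K from S u) •
        (pr (W := baseW T.W ℚ_[ℓ]) (fun a => em T.W ℚ_[ℓ] (e a)) u *
        pr (W := baseW T.W ℚ_[ℓ]) (fun a => em T.W ℚ_[ℓ] (e a)) w) := by
      rw [Finset.sum_mul]
      exact Finset.sum_congr rfl fun u _ => smul_mul_assoc _ _ _
    have h2 : (baseW T.W ℚ_[ℓ]).tr X (∑ u, (show (baseW T.W ℚ_[ℓ]).K from S u) •
        (pr (W := baseW T.W ℚ_[ℓ]) (fun a => em T.W ℚ_[ℓ] (e a)) u *
        pr (W := baseW T.W ℚ_[ℓ]) (fun a => em T.W ℚ_[ℓ] (e a)) w)) =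
        ∑ u, (show (baseW T.W ℚ_[ℓ]).K from S u) * (baseW T.W ℚ_[ℓ]).tr X
        (pr (W := baseW T.W ℚ_[ℓ]) (fun a => em T.W ℚ_[ℓ] (e a)) u *
        pr (W := baseW T.W ℚ_[ℓ]) (fun a => em T.W ℚ_[ℓ] (e a)) w) := by
      rw [map_sum]
      exact Finset.sum_congr rfl fun u _ => map_smul _ _ _
    exact (congrArg ((baseW T.W ℚ_[ℓ]).tr X) h1).trans h2
  let Φ : altS ι ℚ_[ℓ] n →ₗ[ℚ_[ℓ]] altS ι ℚ_[ℓ] n :=
    { toFun := fun S => ⟨fun w => ∑ u, S.1 u * omL ℓ e n u w, by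
        have h1 : (fun w => ∑ u, S.1 u * omL ℓ e n u w) = fA ℓ e n (cc S.1) :=
          funext fun w => (hcc S.1 w).symm
        rw [h1]
        exact fA_alt he1 n _⟩
      map_add' := fun S S' => by
        apply Subtype.ext
        funext w
        change ∑ u, (S.1 u + S'.1 u) * omL ℓ e n u w = _
        rw [Finset.sum_congr rfl fun u _ => add_mul _ _ _, Finset.sum_add_distrib]
        rfl
      map_smul' := fun c S => by
        apply Subtype.ext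
        funext w
        change ∑ u, (c * S.1 u) * omL ℓ e n u w = c * ∑ u, S.1 u * omL ℓ e n u w
        rw [Finset.mul_sum]
        exact Finset.sum_congr rfl fun u _ => mul_assoc _ _ _ }
  have hinj : Function.Injective Φ := by
    rw [← LinearMap.ker_eq_bot, LinearMap.ker_eq_bot']
    intro S hS
    apply Subtype.ext
    refine alt_indep hcard hom.h0 hom.h0' hom.h1 hom.h2 S.2 fun w => ?_
    exact congrFun (congrArg Subtype.val hS) w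
  obtain ⟨S, hS⟩ := (LinearMap.injective_iff_surjective.1 hinj) ⟨a, ha⟩
  refine ⟨cc S.1, funext fun w => ?_⟩
  rw [hcc]
  exact congrFun (congrArg Subtype.val hS) w

include hf he1 hspan hnt in
/-- **Semisimplicity of the alternating forms.** -/
theorem semi_alt (hgen : Algebra.adjoin T.W.K (T.W.gr X 1 : Set (T.W.H X)) = ⊤)
    (hG : G.HT) {n : ℕ} (hn : n = X.dim) (hcard : Fintype.card ι = 2 * n) (hS : SemiAll G)
    {Δ : Subgroup Γ} (hΔ : Δ.FiniteIndex) (W : Submodule ℚ_[ℓ] ((Fin n → ι) → ℚ_[ℓ]))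
    (hWs : ∀ g ∈ Δ, ∀ x ∈ W, tm n (G.mat e f g) *ᵥ x ∈ W) :
    ∃ W' : Submodule ℚ_[ℓ] ((Fin n → ι) → ℚ_[ℓ]), W' ≤ altS ι ℚ_[ℓ] n ∧ W ⊓ W' = ⊥ ∧
      altS ι ℚ_[ℓ] n ≤ W ⊔ W' ∧ ∃ Δ' : Subgroup Γ, Δ'.FiniteIndex ∧
        ∀ g ∈ Δ', ∀ x ∈ W', tm n (G.mat e f g) *ᵥ x ∈ W' := by
  obtain ⟨V0, hV0, hVF⟩ := G.exists_op' hG 0 (hnt 0)
  have hfi0 := finiteIndex_of_open hV0
  -- the action on the forms
  have key : ∀ g ∈ V0, ∀ c, tm n (G.mat e f g) *ᵥ fA ℓ e n (G.ρ0 g c) =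
      G.χ g ^ X.dim • fA ℓ e n c := by
    intro g hg c
    obtain ⟨F, hF0, hF⟩ := hVF g hg
    have h1 : ∀ v : Fin n → ι → ℚ_[ℓ], ev (fA ℓ e n (G.ρ0 g c)) (fun s => G.mat e f g *ᵥ v s) =
        G.χ g ^ X.dim * ev (fA ℓ e n c) v := by
      intro v
      have h2 := F.ev_eq (e := fun a => em T.W ℚ_[ℓ] (e a)) (g := G.mat e f g) (r := 1)
        (fun v => by
          rw [one_smul, hF0]
          exact G.mat_eq hf he1 hspan g v) (fun _ : Fin n => (0 : Fin 1)) c v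
      rw [one_pow, one_mul, hF] at h2
      exact h2
    refine ev_inj fun v => ?_
    rw [tm_mulVec, ← ev_ga, h1, ev_smul_left]
  have hinv : ∀ g, tm n (G.mat e f g⁻¹) * tm n (G.mat e f g) = 1 := by
    intro g
    rw [← tm_mul, ← G.rep_apply hf he1 hspan, ← G.rep_apply hf he1 hspan, ← map_mul,
      mul_inv_cancel, map_one, tm_one]
  have key' : ∀ g ∈ V0, ∀ c, fA ℓ e n (G.ρ0 g c) =
      G.χ g ^ X.dim • (tm n (G.mat e f g⁻¹) *ᵥ fA ℓ e n c) := by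
    intro g hg c
    rw [← Matrix.mulVec_smul, ← key g hg c, Matrix.mulVec_mulVec, hinv, Matrix.one_mulVec]
  let V : Submodule (baseW T.W ℚ_[ℓ]).K ((baseW T.W ℚ_[ℓ]).H X) :=
    { carrier := {c | fA ℓ e n c ∈ W}
      add_mem' := by
        intro a b ha hb
        change fA ℓ e n (a + b) ∈ W
        rw [fA_add]
        exact W.add_mem ha hb
      zero_mem' := by
        change fA ℓ e n 0 ∈ W
        rw [fA_zero]
        exact W.zero_mem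
      smul_mem' := by
        intro r a ha
        change fA ℓ e n (r • a) ∈ W
        rw [fA_smul]
        exact W.smul_mem _ ha }
  have hfi : (Δ ⊓ V0).FiniteIndex := inferInstance
  obtain ⟨U, hU, hUle, hUs⟩ := exists_open_stab G (V := V) hfi (by
    intro g hg c hc
    change fA ℓ e n (G.ρ0 g c) ∈ W
    rw [key' g hg.2]
    exact W.smul_mem _ (hWs g⁻¹ (Δ.inv_mem hg.1) _ hc))
  obtain ⟨V', hc, hV's⟩ := hS U hU V hUs
  let W' : Submodule ℚ_[ℓ] ((Fin n → ι) → ℚ_[ℓ]) :=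
    { carrier := {a | ∃ c ∈ V', fA ℓ e n c = a}
      add_mem' := by
        rintro _ _ ⟨a, ha, rfl⟩ ⟨b, hb, rfl⟩
        exact ⟨a + b, V'.add_mem ha hb, fA_add e a b⟩
      zero_mem' := ⟨0, V'.zero_mem, fA_zero e n⟩
      smul_mem' := by
        rintro r _ ⟨a, ha, rfl⟩
        exact ⟨(show (baseW T.W ℚ_[ℓ]).K from r) • a, V'.smul_mem _ ha, fA_smul e _ a⟩ }
  refine ⟨W', ?_, ?_, ?_, Δ ⊓ V0, hfi, ?_⟩
  · rintro _ ⟨c, -, rfl⟩
    exact fA_alt he1 n c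
  · rw [eq_bot_iff]
    rintro _ ⟨hx, c, hc', rfl⟩
    have h1 : c ∈ V ⊓ V' := ⟨hx, hc'⟩
    rw [hc.inf_eq_bot, Submodule.mem_bot] at h1
    rw [h1, fA_zero, Submodule.mem_bot]
  · intro a ha
    obtain ⟨c, rfl⟩ := fA_surj hf he1 hspan hnt hgen hn hcard ha
    have h1 : c ∈ V ⊔ V' := by rw [hc.sup_eq_top]; trivial
    obtain ⟨v, hv, v', hv', rfl⟩ := Submodule.mem_sup.1 h1
    rw [fA_add]
    exact Submodule.add_mem_sup hv ⟨v', hv', rfl⟩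
  · rintro g hg _ ⟨c, hc', rfl⟩
    have hg' : g⁻¹ ∈ Δ ⊓ V0 := Subgroup.inv_mem _ hg
    have h1 := key' g⁻¹ hg'.2 c
    rw [inv_inv] at h1
    have h2 : G.χ g⁻¹ ^ X.dim ≠ 0 := pow_ne_zero _ (G.ch_ne g⁻¹)
    have h3 : tm n (G.mat e f g) *ᵥ fA ℓ e n c =
        (G.χ g⁻¹ ^ X.dim)⁻¹ • fA ℓ e n (G.ρ0 g⁻¹ c) := by
      rw [h1, smul_smul, inv_mul_cancel₀ h2, one_smul]
    rw [h3]
    exact W'.smul_mem _ ⟨_, hV's _ (hUle hg') _ hc', rfl⟩

end Main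

end Run7.h877.TS
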