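import Pool.Agent.Run7.h226.Tdefs

/-!
# The Lie algebra of the monodromy group and its idempotents: definitions
-/

universe u

namespace Run7.h877.SQ

open TensorProduct
open Pool.Agent.H914 Pool.Agent.H914.VarClass Pool.Agent.Y121.AHS Pool.Agent.N996.FP Run7.h226
open Pool.Agent.Y133.Half (pw)

section Lie

variable {K V W : Type} [Field K] [AddCommGroup V] [Module K V] [AddCommGroup W] [Module K W]

/-- The map `d` of `V` to itself is linear and a derivation for the product `m`, it is compatible
with the map `d'` of `W` to itself for the maps `p i : W → V`, `i ≤ n`, and it multiplies the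
elements of the sets `S j` by `s * j`. -/
def IsDer (m : V → V → V) (n : ℕ) (p : ℕ → W → V) (S : ℕ → V → Prop) (s : K) (d : V → V)
    (d' : W → W) : Prop :=
  (∀ (c : K) a b, d (c • a + b) = c • d a + d b) ∧ (∀ a b, d (m a b) = m (d a) b + m a (d b)) ∧
    (∀ i ≤ n, ∀ a, d (p i a) = p i (d' a)) ∧ ∀ j a, S j a → d a = (s * j) • a

/-- If the element `∑ ω a ⊗ d a` of `Ω ⊗ End(V)` is idempotent on the vectors in `D`, then it
commutes with `b` on the vectors in `D`. -/
def CommutesIfIdempotent {Ω : Type} [Field Ω] [Algebra K Ω] {r : ℕ} (D : V → Prop)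
    (ω : Fin r → Ω) (d : Fin r → V → V) (b : V → V) : Prop :=
  (∀ v, D v → ∑ a, ∑ c, (ω a * ω c) ⊗ₜ[K] d a (d c v) = ∑ a, ω a ⊗ₜ[K] d a v) →
    ∀ v, D v → ∑ a, ω a ⊗ₜ[K] d a (b v) = ∑ a, ω a ⊗ₜ[K] b (d a v)

/-- Let `L` be a set of linear maps of `V` to itself and `D` a set of vectors. A linear map `b`,
which preserves `D`, and commutes on `D` with all elements of `Ω ⊗ L`, for all fields `Ω` over `K`,
which preserve `D` and are idempotent on `D`, commutes on `D` with the action of an open subgroup of
`G`. -/
def IdempotentsGenerate {G : Type} [Group G] [TopologicalSpace G] [TopologicalSpace K]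
    (R : ContRep K G V) (D : V → Prop) (L : (V → V) → Prop) : Prop :=
  ∀ b : V →ₗ[K] V, (∀ v, D v → D (b v)) →
    (∀ (Ω : Type) [Field Ω] [Algebra K Ω] (r : ℕ) (ω : Fin r → Ω) (d : Fin r → V → V),
      (∀ a, L (d a) ∧ ∀ v, D v → D (d a v)) → CommutesIfIdempotent (K := K) D ω d b) →
    ∃ U : Subgroup G, IsOpen (U : Set G) ∧ ∀ g ∈ U, ∀ v, D v → b (R.ρ g v) = R.ρ g (b v)

/-- The element `b` is the image of an element of the set `S` under the homomorphism `f`. -/
def IsImage {A B : Type*} [AddCommGroup A] [Ring B] (f : A →+ B) (S : A → Prop) (b : B) : Prop :=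
  ∃ a, S a ∧ f a = b

end Lie

variable {k : Type u} [Field k] {𝒱 : VarClass k} {ops : CycleOps 𝒱} {T : HodgeTheory ops}
  {E : PrimeNumber T} {X : 𝒱.Obj}

/-- The class in the `ℓ`-adic cohomology comes from the class of an algebraic cycle of
codimension `j`. -/
def IsAlgebraic (j : ℕ) (a : E.H X) : Prop :=
  ∃ c, IsImage (T.W.cl X) (X.IsCyc j) c ∧ a = E.em c

/-- The Lie algebra of the `ℓ`-adic algebraic monodromy group of `X` is generated by its elements,
with extended coefficients, which are idempotent on `H^1(X, ℚ_ℓ)`. Here an element of this Lie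
algebra is given by derivations `δ n` of the algebras `H(X ^ (n + 1), ℚ_ℓ)`, with `δ 0` mapping
`H^1(X)` to itself, which commute with the pull-backs along the projections `X ^ (n + 1) → X`, and
multiply the Tate classes of codimension `j` by `s * j`. (This is a theorem of Pink for abelian
varieties: the monodromy group is generated by the Hodge cocharacters, and these have the weights
`0` and `1` on `H^1(X)`.) -/
def HodgeCocharactersGenerate {Γ : Type} [Group Γ] [TopologicalSpace Γ] (R : GaloisAction E X Γ) :
    Prop :=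
  IdempotentsGenerate (R.r 0) (IsDegE 1) fun d =>
    ∃ (s : ℚ_[E.ℓ]) (δ : ∀ n, E.H (pw X n) → E.H (pw X n)), δ 0 = d ∧
      ∀ n, IsDer mulE n (fun i => mapE (pr X n i)) (IsTate R n) s (δ n) d

end Run7.h877.SQ
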