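import Pool.Agent.Run7.h877.TS.Alt

/-!
# Top forms of an idempotent
-/

set_option autoImplicit false
set_option linter.unusedSectionVars false

namespace Run7.h877.TS

open Matrix Module
open Run7.h877.MT

variable {ι : Type} [Fintype ι] [DecidableEq ι] {F : Type} [Field F] {n : ℕ}

lemma ev_dv (D : Matrix ι ι F) (a : (Fin n → ι) → F) (v : Fin n → ι → F) :
    ev (dv D a) v = ∑ j, ev a (Function.update v j (D *ᵥ v j)) := (sum_update_eq D a v).symm

/-- the bracket of two derivatives -/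
lemma dv_dv (A B : Matrix ι ι F) (t : (Fin n → ι) → F) :
    dv A (dv B t) = dv B (dv A t) + dv (B * A - A * B) t := by
  have hcom : ∀ (A B : Matrix ι ι F) (v : Fin n → ι → F),
      ev (dv A (dv B t)) v = ∑ j, ev t (Function.update v j (B *ᵥ (A *ᵥ v j))) +
        ∑ j, ∑ j' ∈ Finset.univ.erase j, ev t (Function.update (Function.update v j (A *ᵥ v j)) j'
          (B *ᵥ v j')) := by
    intro A B v
    rw [ev_dv, ← Finset.sum_add_distrib]
    refine Finset.sum_congr rfl fun j _ => ?_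
    rw [ev_dv, ← Finset.add_sum_erase _ _ (Finset.mem_univ j)]
    congr 1
    · rw [Function.update_self, Function.update_idem]
    · refine Finset.sum_congr rfl fun j' hj' => ?_
      rw [Function.update_of_ne (Finset.ne_of_mem_erase hj')]
  have hswap : ∀ (A B : Matrix ι ι F) (v : Fin n → ι → F),
      ∑ j, ∑ j' ∈ Finset.univ.erase j, ev t (Function.update (Function.update v j (A *ᵥ v j)) j'
        (B *ᵥ v j')) = ∑ j, ∑ j' ∈ Finset.univ.erase j,
        ev t (Function.update (Function.update v j (B *ᵥ v j)) j' (A *ᵥ v j')) := by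
    intro A B v
    rw [Finset.sum_comm' (t' := Finset.univ) (s' := fun j => Finset.univ.erase j) (by
      intro x y
      simp only [Finset.mem_univ, Finset.mem_erase, true_and, and_true]
      exact ne_comm)]
    refine Finset.sum_congr rfl fun j _ => Finset.sum_congr rfl fun j' hj' => ?_
    rw [Function.update_comm (Finset.ne_of_mem_erase hj')]
  refine ev_inj fun v => ?_
  have e3 : ∀ j, ev t (Function.update v j ((B * A - A * B) *ᵥ v j)) =
      ev t (Function.update v j (B *ᵥ (A *ᵥ v j))) -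
        ev t (Function.update v j (A *ᵥ (B *ᵥ v j))) := by
    intro j
    rw [Matrix.sub_mulVec, ← Matrix.mulVec_mulVec, ← Matrix.mulVec_mulVec, ev_update_sub]
  rw [ev_add_left, hcom, hcom B A, hswap A B, ev_dv (B * A - A * B), Finset.sum_congr rfl fun j _ => e3 j,
    Finset.sum_sub_distrib]
  ring

section graded

variable {Φ : Matrix ι ι F} {L : Submodule F (Matrix ι ι F)}

/-- The filtration generated by the top forms. -/
def Wf (n : ℕ) (Φ : Matrix ι ι F) (L : Submodule F (Matrix ι ι F)) :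
    ℕ → Submodule F ((Fin n → ι) → F)
  | 0 =>
    { carrier := {t | IsAlt t ∧ ∀ v, ev t (fun j => Φ *ᵥ v j) = ev t v}
      add_mem' := by
        rintro a b ⟨ha, ha'⟩ ⟨hb, hb'⟩
        refine ⟨(altS ι F n).add_mem ha hb, fun v => ?_⟩
        rw [ev_add_left, ev_add_left, ha', hb']
      zero_mem' := ⟨(altS ι F n).zero_mem, fun v => by rw [ev_zero_left, ev_zero_left]⟩
      smul_mem' := by
        rintro c a ⟨ha, ha'⟩
        refine ⟨(altS ι F n).smul_mem c ha, fun v => ?_⟩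
        rw [ev_smul_left, ev_smul_left, ha'] }
  | k + 1 => Submodule.span F {s | ∃ Z ∈ L, ∃ t ∈ Wf n Φ L k, s = dv (Φ * Z * (1 - Φ)) t}

lemma Wf_alt (k : ℕ) : Wf n Φ L k ≤ altS ι F n := by
  induction k with
  | zero => exact fun t ht => ht.1
  | succ k ih =>
    rw [Wf, Submodule.span_le]
    rintro _ ⟨Z, -, t, ht, rfl⟩
    exact IsAlt.dv (ih ht) _

/-- induction over the filtration -/
lemma Wf_ind {k : ℕ} {P : ((Fin n → ι) → F) → Prop} (h0 : P 0)
    (hadd : ∀ a b, P a → P b → P (a + b)) (hsmul : ∀ (c : F) a, P a → P (c • a))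
    (h : ∀ Z ∈ L, ∀ t ∈ Wf n Φ L k, P (dv (Φ * Z * (1 - Φ)) t)) {s : (Fin n → ι) → F}
    (hs : s ∈ Wf n Φ L (k + 1)) : P s := by
  rw [Wf] at hs
  induction hs using Submodule.span_induction with
  | mem x hx => obtain ⟨Z, hZ, t, ht, rfl⟩ := hx; exact h Z hZ t ht
  | zero => exact h0
  | add x y _ _ hx hy => exact hadd x y hx hy
  | smul c x _ hx => exact hsmul c x hx

lemma dv_zero' (D : Matrix ι ι F) : dv D (0 : (Fin n → ι) → F) = 0 := map_zero (dvR D)

variable (hΦ : Φ * Φ = Φ) (hlie : ∀ X ∈ L, ∀ Y ∈ L, X * Y - Y * X ∈ L)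
  (hΦL : ∀ X ∈ L, Φ * X - X * Φ ∈ L)

include hΦ in
lemma comp_zero : (1 - Φ) * Φ = 0 ∧ Φ * (1 - Φ) = 0 ∧ (1 - Φ) * (1 - Φ) = 1 - Φ := by
  have h1 : (1 - Φ) * Φ = 0 := by rw [sub_mul, one_mul, hΦ, sub_self]
  have h2 : Φ * (1 - Φ) = 0 := by rw [mul_sub, mul_one, hΦ, sub_self]
  refine ⟨h1, h2, ?_⟩
  rw [mul_sub, h1, sub_zero, mul_one]

include hΦ hΦL in
lemma pl_mem [CharZero F] {Z : Matrix ι ι F} (hZ : Z ∈ L) : Φ * Z * (1 - Φ) ∈ L ∧
    (1 - Φ) * Z * Φ ∈ L := by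
  have h1 := hΦL Z hZ
  have h2 := hΦL _ h1
  have h3 : Φ * (Φ * Z - Z * Φ) - (Φ * Z - Z * Φ) * Φ = Φ * Z - Φ * Z * Φ + (Z * Φ - Φ * Z * Φ) := by
    have e1 : Φ * (Φ * Z) = Φ * Z := by rw [← Matrix.mul_assoc, hΦ]
    have e2 : Z * Φ * Φ = Z * Φ := by rw [Matrix.mul_assoc, hΦ]
    rw [mul_sub, sub_mul, e1, e2, ← Matrix.mul_assoc]
    abel
  have h4 : Φ * Z * (1 - Φ) = (2⁻¹ : F) • ((Φ * Z - Z * Φ) +
      (Φ * (Φ * Z - Z * Φ) - (Φ * Z - Z * Φ) * Φ)) := by
    rw [h3, mul_sub, mul_one]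
    have h5 : Φ * Z - Z * Φ + (Φ * Z - Φ * Z * Φ + (Z * Φ - Φ * Z * Φ)) =
        (2 : F) • (Φ * Z - Φ * Z * Φ) := by rw [two_smul]; abel
    rw [h5, smul_smul, inv_mul_cancel₀ two_ne_zero, one_smul]
  have h6 : (1 - Φ) * Z * Φ = (2⁻¹ : F) • ((Φ * (Φ * Z - Z * Φ) - (Φ * Z - Z * Φ) * Φ) -
      (Φ * Z - Z * Φ)) := by
    rw [h3, sub_mul, sub_mul, one_mul]
    have h5 : Φ * Z - Φ * Z * Φ + (Z * Φ - Φ * Z * Φ) - (Φ * Z - Z * Φ) =
        (2 : F) • (Z * Φ - Φ * Z * Φ) := by rw [two_smul]; abel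
    rw [h5, smul_smul, inv_mul_cancel₀ two_ne_zero, one_smul]
  rw [h4, h6]
  exact ⟨L.smul_mem _ (L.add_mem h1 h2), L.smul_mem _ (L.sub_mem h2 h1)⟩

include hlie in
lemma Wf_ze (k : ℕ) : ∀ Z ∈ L, Z * Φ = Φ * Z → ∀ t ∈ Wf n Φ L k, dv Z t ∈ Wf n Φ L k := by
  induction k with
  | zero =>
    rintro Z hZ hc t ⟨ht, ht'⟩
    refine ⟨IsAlt.dv ht Z, fun v => ?_⟩
    rw [ev_dv, ev_dv]
    refine Finset.sum_congr rfl fun j _ => ?_
    rw [← ht' (Function.update v j (Z *ᵥ v j))]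
    congr 1
    funext s
    by_cases h : s = j
    · subst h
      rw [Function.update_self, Function.update_self, Matrix.mulVec_mulVec, Matrix.mulVec_mulVec,
        hc]
    · rw [Function.update_of_ne h, Function.update_of_ne h]
  | succ k ih =>
    intro Z hZ hc s hs
    refine Wf_ind (P := fun s => dv Z s ∈ Wf n Φ L (k + 1)) ?_ ?_ ?_ ?_ hs
    · rw [dv_zero']; exact Submodule.zero_mem _
    · intro a b ha hb; rw [dv_add']; exact Submodule.add_mem _ ha hb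
    · intro c a ha; rw [dv_smul']; exact Submodule.smul_mem _ _ ha
    · intro U hU t ht
      rw [dv_dv]
      refine Submodule.add_mem _ (Submodule.subset_span ⟨U, hU, _, ih Z hZ hc t ht, rfl⟩) ?_
      refine Submodule.subset_span ⟨U * Z - Z * U, hlie U hU Z hZ, t, ht, ?_⟩
      congr 1
      have e1 : (1 - Φ) * Z = Z * (1 - Φ) := by rw [sub_mul, mul_sub, one_mul, mul_one, hc]
      have e2 : Φ * U * (1 - Φ) * Z = Φ * (U * Z) * (1 - Φ) := by
        rw [Matrix.mul_assoc (Φ * U), e1]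
        simp only [Matrix.mul_assoc]
      have e3 : Z * (Φ * U * (1 - Φ)) = Φ * (Z * U) * (1 - Φ) := by
        rw [← Matrix.mul_assoc, ← Matrix.mul_assoc, hc]
        simp only [Matrix.mul_assoc]
      rw [e2, e3, ← sub_mul, ← mul_sub]

include hΦ in
lemma ev_top_zero {t : (Fin n → ι) → F} (ht : t ∈ Wf n Φ L 0) {v : Fin n → ι → F} {j : Fin n}
    (h : Φ *ᵥ v j = 0) : ev t v = 0 := by
  rw [← ht.2 v]
  have h1 : (fun j => Φ *ᵥ v j) = Function.update (fun j => Φ *ᵥ v j) j 0 := by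
    funext s
    by_cases hs : s = j
    · subst hs; rw [Function.update_self, h]
    · rw [Function.update_of_ne hs]
  rw [h1, ev_update_zero]

include hΦ hlie hΦL in
lemma Wf_mi [CharZero F] (k : ℕ) : ∀ Z ∈ L, Φ * Z = 0 → Z * Φ = Z →
    (∀ t ∈ Wf n Φ L 0, dv Z t = 0) ∧ ∀ t ∈ Wf n Φ L (k + 1), dv Z t ∈ Wf n Φ L k := by
  have h0 : ∀ Z ∈ L, Φ * Z = 0 → Z * Φ = Z → ∀ t ∈ Wf n Φ L 0, dv Z t = 0 := by
    intro Z hZ h1 h2 t ht
    refine ev_inj fun v => ?_
    rw [ev_dv, ev_zero_left]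
    refine Finset.sum_eq_zero fun j _ => ev_top_zero hΦ ht (j := j) ?_
    rw [Function.update_self, Matrix.mulVec_mulVec, h1, Matrix.zero_mulVec]
  obtain ⟨c1, c2, c3⟩ := comp_zero hΦ
  have key : ∀ U Z : Matrix ι ι F, Φ * Z = 0 → Z * Φ = Z →
      (Φ * U * (1 - Φ) * Z - Z * (Φ * U * (1 - Φ))) * Φ =
        Φ * (Φ * U * (1 - Φ) * Z - Z * (Φ * U * (1 - Φ))) := by
    intro U Z h1 h2
    have e1 : Z * (Φ * U * (1 - Φ)) * Φ = 0 := by
      simp only [Matrix.mul_assoc]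
      rw [c1]
      simp only [Matrix.mul_zero]
    have e2 : Φ * (Z * (Φ * U * (1 - Φ))) = 0 := by
      rw [← Matrix.mul_assoc, h1, Matrix.zero_mul]
    have e3 : Φ * U * (1 - Φ) * Z * Φ = Φ * U * (1 - Φ) * Z := by
      rw [Matrix.mul_assoc _ Z, h2]
    have e4 : Φ * (Φ * U * (1 - Φ) * Z) = Φ * U * (1 - Φ) * Z := by
      simp only [← Matrix.mul_assoc]
      rw [hΦ]
    generalize Φ * U * (1 - Φ) = U' at e1 e2 e3 e4 ⊢
    rw [sub_mul, mul_sub, e1, e2, e3, e4]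
  refine fun Z hZ h1 h2 => ⟨h0 Z hZ h1 h2, ?_⟩
  induction k with
  | zero =>
    intro s hs
    refine Wf_ind (P := fun s => dv Z s ∈ Wf n Φ L 0) ?_ ?_ ?_ ?_ hs
    · rw [dv_zero']; exact Submodule.zero_mem _
    · intro a b ha hb; rw [dv_add']; exact Submodule.add_mem _ ha hb
    · intro c a ha; rw [dv_smul']; exact Submodule.smul_mem _ _ ha
    · intro U hU t ht
      rw [dv_dv, h0 Z hZ h1 h2 t ht, dv_zero', zero_add]
      exact Wf_ze hlie 0 _ (hlie _ (pl_mem hΦ hΦL hU).1 _ hZ) (key U Z h1 h2) t ht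
  | succ k ih =>
    intro s hs
    refine Wf_ind (P := fun s => dv Z s ∈ Wf n Φ L (k + 1)) ?_ ?_ ?_ ?_ hs
    · rw [dv_zero']; exact Submodule.zero_mem _
    · intro a b ha hb; rw [dv_add']; exact Submodule.add_mem _ ha hb
    · intro c a ha; rw [dv_smul']; exact Submodule.smul_mem _ _ ha
    · intro U hU t ht
      rw [dv_dv]
      refine Submodule.add_mem _ (Submodule.subset_span ⟨U, hU, _, ih t ht, rfl⟩) ?_
      exact Wf_ze hlie (k + 1) _ (hlie _ (pl_mem hΦ hΦL hU).1 _ hZ) (key U Z h1 h2) t ht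

include hΦ hlie hΦL in
/-- the sum of the filtration is stable -/
lemma Wf_stable [CharZero F] : ∀ Z ∈ L, ∀ t ∈ ⨆ k, Wf n Φ L k, dv Z t ∈ ⨆ k, Wf n Φ L k := by
  intro Z hZ
  obtain ⟨c1, c2, c3⟩ := comp_zero hΦ
  obtain ⟨hp, hm⟩ := pl_mem hΦ hΦL hZ
  have hz : Z - Φ * Z * (1 - Φ) - (1 - Φ) * Z * Φ ∈ L := L.sub_mem (L.sub_mem hZ hp) hm
  have hzc : (Z - Φ * Z * (1 - Φ) - (1 - Φ) * Z * Φ) * Φ =
      Φ * (Z - Φ * Z * (1 - Φ) - (1 - Φ) * Z * Φ) := by
    have e1 : (Z - Φ * Z * (1 - Φ) - (1 - Φ) * Z * Φ) =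
        Z - Φ * Z - Z * Φ + Φ * Z * Φ + Φ * Z * Φ := by noncomm_ring
    have e2 : Z * Φ * Φ = Z * Φ := by rw [Matrix.mul_assoc, hΦ]
    have e3 : Φ * (Φ * Z) = Φ * Z := by rw [← Matrix.mul_assoc, hΦ]
    have e4 : Φ * Z * Φ * Φ = Φ * Z * Φ := by rw [Matrix.mul_assoc, hΦ]
    have e5 : Φ * (Φ * Z * Φ) = Φ * Z * Φ := by rw [← Matrix.mul_assoc, e3]
    rw [e1]
    simp only [sub_mul, mul_sub, add_mul, mul_add, e2, e3, e4, e5]
    rw [← Matrix.mul_assoc]
    abel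
  have hm1 : Φ * ((1 - Φ) * Z * Φ) = 0 := by
    rw [← Matrix.mul_assoc, ← Matrix.mul_assoc, c2, Matrix.zero_mul, Matrix.zero_mul]
  have hm2 : (1 - Φ) * Z * Φ * Φ = (1 - Φ) * Z * Φ := by rw [Matrix.mul_assoc, hΦ]
  have h1 : Z = (Z - Φ * Z * (1 - Φ) - (1 - Φ) * Z * Φ) + Φ * Z * (1 - Φ) + (1 - Φ) * Z * Φ := by
    abel
  have key : ∀ k, ∀ t ∈ Wf n Φ L k, dv Z t ∈ ⨆ k, Wf n Φ L k := by
    intro k t ht
    rw [h1, dv_add, dv_add]
    refine Submodule.add_mem _ (Submodule.add_mem _ ?_ ?_) ?_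
    · exact Submodule.mem_iSup_of_mem k (Wf_ze hlie k _ hz hzc t ht)
    · exact Submodule.mem_iSup_of_mem (k + 1) (Submodule.subset_span ⟨Z, hZ, t, ht, rfl⟩)
    · rcases k with _ | k
      · rw [(Wf_mi hΦ hlie hΦL 0 _ hm hm1 hm2).1 t ht]
        exact Submodule.zero_mem _
      · exact Submodule.mem_iSup_of_mem k ((Wf_mi hΦ hlie hΦL k _ hm hm1 hm2).2 t ht)
  have h2 : ⨆ k, Wf n Φ L k ≤ (⨆ k, Wf n Φ L k).comap (dvR Z) :=
    iSup_le fun k t ht => key k t ht
  exact fun t ht => h2 ht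

include hΦ in
/-- the degrees -/
lemma Wf_deg (k : ℕ) : ∀ t ∈ Wf n Φ L k, dv Φ t = ((n : F) - k) • t := by
  obtain ⟨c1, c2, c3⟩ := comp_zero hΦ
  induction k with
  | zero =>
    rintro t ht
    refine ev_inj fun v => ?_
    rw [ev_dv, ev_smul_left]
    have h1 : ∀ j : Fin n, ev t (Function.update v j (Φ *ᵥ v j)) = ev t v := by
      intro j
      rw [← ht.2 (Function.update v j (Φ *ᵥ v j)), ← ht.2 v]
      congr 1
      funext s
      by_cases h : s = j
      · subst h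
        rw [Function.update_self, Matrix.mulVec_mulVec, hΦ]
      · rw [Function.update_of_ne h]
    rw [Finset.sum_congr rfl fun j _ => h1 j, Finset.sum_const, Finset.card_univ,
      Fintype.card_fin, nsmul_eq_mul, Nat.cast_zero, sub_zero]
  | succ k ih =>
    intro s hs
    refine Wf_ind (P := fun s => dv Φ s = ((n : F) - (k + 1 : ℕ)) • s) ?_ ?_ ?_ ?_ hs
    · rw [dv_zero', smul_zero]
    · intro a b ha hb; rw [dv_add', ha, hb, smul_add]
    · intro c a ha; rw [dv_smul', ha, smul_comm]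
    · intro U hU t ht
      have h1 : Φ * U * (1 - Φ) * Φ - Φ * (Φ * U * (1 - Φ)) = (-1 : F) • (Φ * U * (1 - Φ)) := by
        have e1 : Φ * U * (1 - Φ) * Φ = 0 := by rw [Matrix.mul_assoc, c1, Matrix.mul_zero]
        have e2 : Φ * (Φ * U * (1 - Φ)) = Φ * U * (1 - Φ) := by
          simp only [← Matrix.mul_assoc]
          rw [hΦ]
        rw [e1, e2, zero_sub, neg_one_smul]
      rw [dv_dv, ih t ht, h1, dv_smul', dv_smul, ← add_smul]
      congr 1
      push_cast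
      ring

/-- evaluation at special vectors -/
lemma ev_special {k : ℕ} {t : (Fin n → ι) → F} (ht : dv Φ t = ((n : F) - k) • t)
    {v : Fin n → ι → F} {i : Fin n} (hv : ∀ s, s ≠ i → Φ *ᵥ v s = v s) (hi : Φ *ᵥ v i = 0) :
    ((k : F) - 1) * ev t v = 0 := by
  have h1 := congrArg (fun a => ev a v) ht
  simp only [ev_dv, ev_smul_left] at h1
  rw [← Finset.add_sum_erase _ _ (Finset.mem_univ i), hi, ev_update_zero, zero_add] at h1
  have h2 : ∀ j ∈ Finset.univ.erase i, ev t (Function.update v j (Φ *ᵥ v j)) = ev t v := by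
    intro j hj
    rw [hv j (Finset.ne_of_mem_erase hj), Function.update_eq_self]
  rw [Finset.sum_congr rfl h2, Finset.sum_const, Finset.card_erase_of_mem (Finset.mem_univ i),
    Finset.card_univ, Fintype.card_fin, nsmul_eq_mul] at h1
  have h3 : 1 ≤ n := by
    rcases Nat.eq_zero_or_pos n with h | h
    · subst h; exact i.elim0
    · exact h
  rw [Nat.cast_sub h3, Nat.cast_one] at h1
  linear_combination h1

include hΦ hlie hΦL in
/-- **The lowering part of an operator.** -/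
theorem lower_mem [CharZero F] (hn : 0 < n) {a : (Fin n → ι) → F} (ha : a ∈ Wf n Φ L 0)
    (ha1 : ∀ t ∈ Wf n Φ L 0, ∃ c : F, t = c • a)
    (ha2 : ∀ y : ι → F, Φ *ᵥ y = y → (∀ (i : Fin n) (u : Fin n → ι → F), (∀ s, Φ *ᵥ u s = u s) →
      ev a (Function.update u i y) = 0) → y = 0)
    {D : Matrix ι ι F} (hD : ∀ S : Submodule F ((Fin n → ι) → F), S ≤ altS ι F n →
      (∀ Z ∈ L, ∀ t ∈ S, dv Z t ∈ S) → ∀ t ∈ S, dv D t ∈ S) : Φ * D * (1 - Φ) ∈ L := by
  obtain ⟨c1, c2, c3⟩ := comp_zero hΦ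
  have h1 : dv D a ∈ ⨆ k, Wf n Φ L k := hD _ (iSup_le fun k => Wf_alt k)
    (Wf_stable hΦ hlie hΦL) a (Submodule.mem_iSup_of_mem 0 ha)
  -- the component of degree one
  let T : Submodule F ((Fin n → ι) → F) :=
    { carrier := {x | ∃ w ∈ Wf n Φ L 1, ∀ (v : Fin n → ι → F) (i : Fin n),
        (∀ s, s ≠ i → Φ *ᵥ v s = v s) → Φ *ᵥ v i = 0 → ev x v = ev w v}
      add_mem' := by
        rintro x y ⟨w, hw, h⟩ ⟨w', hw', h'⟩
        refine ⟨w + w', Submodule.add_mem _ hw hw', fun v i hv hi => ?_⟩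
        rw [ev_add_left, ev_add_left, h v i hv hi, h' v i hv hi]
      zero_mem' := ⟨0, Submodule.zero_mem _, fun _ _ _ _ => rfl⟩
      smul_mem' := by
        rintro c x ⟨w, hw, h⟩
        refine ⟨c • w, Submodule.smul_mem _ _ hw, fun v i hv hi => ?_⟩
        rw [ev_smul_left, ev_smul_left, h v i hv hi] }
  have h2 : ⨆ k, Wf n Φ L k ≤ T := by
    refine iSup_le fun k t ht => ?_
    by_cases hk : k = 1
    · subst hk
      exact ⟨t, ht, fun _ _ _ _ => rfl⟩
    · refine ⟨0, Submodule.zero_mem _, fun v i hv hi => ?_⟩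
      rw [ev_zero_left]
      have h3 := ev_special (Wf_deg hΦ k t ht) hv hi
      refine (mul_eq_zero.1 h3).resolve_left fun h4 => hk ?_
      have h5 : (k : F) = 1 := sub_eq_zero.1 h4
      exact_mod_cast h5
  obtain ⟨w, hw, h3⟩ := h2 h1
  have h4 : ∃ Z ∈ L, w = dv (Φ * Z * (1 - Φ)) a := by
    refine Wf_ind (P := fun w => ∃ Z ∈ L, w = dv (Φ * Z * (1 - Φ)) a) ?_ ?_ ?_ ?_ hw
    · refine ⟨0, L.zero_mem, ?_⟩
      rw [Matrix.mul_zero, Matrix.zero_mul]
      have h5 := dv_smul (0 : F) (0 : Matrix ι ι F) a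
      rw [zero_smul, zero_smul] at h5
      exact h5.symm
    · rintro _ _ ⟨Z, hZ, rfl⟩ ⟨Z', hZ', rfl⟩
      refine ⟨Z + Z', L.add_mem hZ hZ', ?_⟩
      rw [← dv_add, ← add_mul, ← mul_add]
    · rintro c _ ⟨Z, hZ, rfl⟩
      refine ⟨c • Z, L.smul_mem c hZ, ?_⟩
      rw [← dv_smul, Matrix.mul_smul, Matrix.smul_mul]
    · intro Z hZ t ht
      obtain ⟨c, rfl⟩ := ha1 t ht
      refine ⟨c • Z, L.smul_mem c hZ, ?_⟩
      rw [dv_smul', ← dv_smul, Matrix.mul_smul, Matrix.smul_mul]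
  obtain ⟨Z, hZ, rfl⟩ := h4
  -- comparison
  have h5 : ∀ x : ι → F, Φ *ᵥ x = 0 → Φ *ᵥ (D *ᵥ x) = (Φ * Z * (1 - Φ)) *ᵥ x := by
    intro x hx
    have h6 : Φ *ᵥ (D *ᵥ x - (Φ * Z * (1 - Φ)) *ᵥ x) = 0 := by
      refine ha2 _ (by rw [Matrix.mulVec_mulVec, hΦ]) fun i u hu => ?_
      have h7 := h3 (Function.update u i x) i (fun s hs => by rw [Function.update_of_ne hs, hu s])
        (by rw [Function.update_self, hx])
      have h8 : ∀ E : Matrix ι ι F, ev (dv E a) (Function.update u i x) =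
          ev a (Function.update u i (E *ᵥ x)) := by
        intro E
        rw [ev_dv, ← Finset.add_sum_erase _ _ (Finset.mem_univ i), Function.update_self,
          Function.update_idem, Finset.sum_eq_zero, add_zero]
        intro j hj
        refine ev_top_zero hΦ ha (j := i) ?_
        rw [Function.update_of_ne (Finset.ne_of_mem_erase hj).symm, Function.update_self, hx]
      rw [h8, h8] at h7
      have h9 : ∀ y : ι → F, ev a (Function.update u i (Φ *ᵥ y)) = ev a (Function.update u i y) := by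
        intro y
        rw [← ha.2 (Function.update u i y)]
        congr 1
        funext s
        by_cases h : s = i
        · subst h; rw [Function.update_self, Function.update_self]
        · rw [Function.update_of_ne h, Function.update_of_ne h, hu]
      rw [h9, ev_update_sub, h7, sub_self]
    rw [Matrix.mulVec_sub, sub_eq_zero] at h6
    rw [h6, Matrix.mulVec_mulVec]
    congr 1
    simp only [← Matrix.mul_assoc]
    rw [hΦ]
  have h6 : Φ * D * (1 - Φ) = Φ * Z * (1 - Φ) := by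
    refine Matrix.toLin'.injective (LinearMap.ext fun z => ?_)
    rw [Matrix.toLin'_apply, Matrix.toLin'_apply, ← Matrix.mulVec_mulVec, ← Matrix.mulVec_mulVec,
      h5 ((1 - Φ) *ᵥ z) (by rw [Matrix.mulVec_mulVec, c2, Matrix.zero_mulVec]),
      Matrix.mulVec_mulVec, Matrix.mul_assoc, c3]
  rw [h6]
  exact (pl_mem hΦ hΦL hZ).1

end graded

end Run7.h877.TS
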