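import Pool.Agent.Run7.h877.TS.Ext
import Pool.Agent.Run7.h877.MT.Core
import Pool.Agent.Run7.h877.MT.SemiT

/-!
# Operators on forms as forms in twice as many variables
-/

set_option autoImplicit false
set_option linter.unusedSectionVars false

namespace Run7.h877.TS

open Matrix Module
open Run7.h877.MT

variable {ι : Type} [Fintype ι] [DecidableEq ι] {K : Type} [Field K] {n : ℕ}

/-- the form in `n + n` variables with the coefficients of the matrix -/
def two (M : Matrix (Fin n → ι) (Fin n → ι) K) : (Fin (n + n) → ι) → K :=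
  fun i => M (fun j => i (Fin.castAdd n j)) fun j => i (Fin.natAdd n j)

/-- the matrix of the form -/
def mt (f : (Fin (n + n) → ι) → K) : Matrix (Fin n → ι) (Fin n → ι) K :=
  fun u w => f (Fin.append u w)

lemma two_append (M : Matrix (Fin n → ι) (Fin n → ι) K) (u w : Fin n → ι) :
    two M (Fin.append u w) = M u w := by
  rw [two]
  simp only [Fin.append_left, Fin.append_right]

lemma two_mt (f : (Fin (n + n) → ι) → K) : two (mt f) = f := by
  funext i
  rw [two, mt, Fin.append_castAdd_natAdd]

lemma mt_two (M : Matrix (Fin n → ι) (Fin n → ι) K) : mt (two M) = M := by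
  ext u w
  exact two_append M u w

/-- sums over both blocks -/
lemma sum_append {A : Type} [AddCommMonoid A] (g : (Fin (n + n) → ι) → A) :
    ∑ i, g i = ∑ u : Fin n → ι, ∑ w : Fin n → ι, g (Fin.append u w) := by
  rw [← Fintype.sum_prod_type']
  exact (Fintype.sum_equiv (Fin.appendEquiv n n) _ _ fun x => rfl).symm

lemma mt_ga (g : Matrix ι ι K) (f : (Fin (n + n) → ι) → K) :
    mt (ga g f) = tm n g * mt f * (tm n g)ᵀ := by
  ext u w
  rw [mt, ga, sum_append, Matrix.mul_apply]
  simp only [Matrix.mul_apply, Matrix.transpose_apply, Finset.sum_mul]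
  rw [Finset.sum_comm]
  refine Finset.sum_congr rfl fun y _ => Finset.sum_congr rfl fun x _ => ?_
  rw [Fin.prod_univ_add]
  simp only [Fin.append_left, Fin.append_right]
  rw [mt, tm, tm]
  ring

lemma dm_mul (Z : Matrix ι ι K) (M : Matrix (Fin n → ι) (Fin n → ι) K) (u w : Fin n → ι) :
    (dm n Z * M) u w = ∑ j, ∑ k, Z k (u j) * M (Function.update u j k) w := by
  have h1 : (dm n Z * M) u w = (dm n Z *ᵥ fun x => M x w) u := rfl
  rw [h1, dm_mulVec]
  rfl

lemma mul_dmT (Z : Matrix ι ι K) (M : Matrix (Fin n → ι) (Fin n → ι) K) (u w : Fin n → ι) :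
    (M * (dm n Z)ᵀ) u w = ∑ j, ∑ k, Z k (w j) * M u (Function.update w j k) := by
  have h1 : (M * (dm n Z)ᵀ) u w = (dm n Z *ᵥ fun x => M u x) w := by
    rw [Matrix.mul_apply, Matrix.mulVec, dotProduct]
    exact Finset.sum_congr rfl fun x _ => mul_comm _ _
  rw [h1, dm_mulVec]
  rfl

lemma update_append_left (u w : Fin n → ι) (j : Fin n) (k : ι) :
    Function.update (Fin.append u w) (Fin.castAdd n j) k = Fin.append (Function.update u j k) w := by
  funext s
  refine Fin.addCases (fun s => ?_) (fun s => ?_) s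
  · rw [Fin.append_left]
    by_cases h : s = j
    · subst h; rw [Function.update_self, Function.update_self]
    · rw [Function.update_of_ne h, Function.update_of_ne, Fin.append_left]
      intro h'
      exact h (Fin.castAdd_injective _ _ h')
  · rw [Fin.append_right, Function.update_of_ne, Fin.append_right]
    intro h'
    have := congrArg Fin.val h'
    simp only [Fin.val_natAdd, Fin.val_castAdd] at this
    have := j.isLt
    omega

lemma update_append_right (u w : Fin n → ι) (j : Fin n) (k : ι) :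
    Function.update (Fin.append u w) (Fin.natAdd n j) k = Fin.append u (Function.update w j k) := by
  funext s
  refine Fin.addCases (fun s => ?_) (fun s => ?_) s
  · rw [Fin.append_left, Function.update_of_ne, Fin.append_left]
    intro h'
    have := congrArg Fin.val h'
    simp only [Fin.val_natAdd, Fin.val_castAdd] at this
    have := s.isLt
    omega
  · rw [Fin.append_right]
    by_cases h : s = j
    · subst h; rw [Function.update_self, Function.update_self]
    · rw [Function.update_of_ne h, Function.update_of_ne, Fin.append_right]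
      intro h'
      exact h (Fin.natAdd_injective _ _ h')

lemma mt_dv (Z : Matrix ι ι K) (f : (Fin (n + n) → ι) → K) :
    mt (dv Z f) = dm n Z * mt f + mt f * (dm n Z)ᵀ := by
  ext u w
  rw [Matrix.add_apply, dm_mul, mul_dmT, mt, dv, Fin.sum_univ_add]
  congr 1
  · refine Finset.sum_congr rfl fun j _ => Finset.sum_congr rfl fun k _ => ?_
    rw [Fin.append_left, update_append_left]
    rfl
  · refine Finset.sum_congr rfl fun j _ => Finset.sum_congr rfl fun k _ => ?_
    rw [Fin.append_right, update_append_right]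
    rfl

lemma tm_transpose (B : Matrix ι ι K) : (tm n B)ᵀ = tm n Bᵀ := rfl

/-- skew operators and the tensor power of the form -/
lemma dm_tm_skew {β Z : Matrix ι ι K} (h : Skew β Z) :
    dm n Z * (tm n β)ᵀ + (tm n β)ᵀ * (dm n Z)ᵀ = 0 := by
  ext u w
  rw [Matrix.add_apply, dm_mul, mul_dmT, ← Finset.sum_add_distrib, Matrix.zero_apply]
  refine Finset.sum_eq_zero fun j _ => ?_
  have h1 : ∀ k, (tm n β)ᵀ (Function.update u j k) w =
      β k (w j) * ∏ l ∈ Finset.univ.erase j, β (u l) (w l) := by
    intro k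
    rw [Matrix.transpose_apply, tm, ← Finset.mul_prod_erase _ _ (Finset.mem_univ j),
      Function.update_self]
    congr 1
    refine Finset.prod_congr rfl fun l hl => ?_
    rw [Function.update_of_ne (Finset.ne_of_mem_erase hl)]
  have h2 : ∀ k, (tm n β)ᵀ u (Function.update w j k) =
      β (u j) k * ∏ l ∈ Finset.univ.erase j, β (u l) (w l) := by
    intro k
    rw [Matrix.transpose_apply, tm, ← Finset.mul_prod_erase _ _ (Finset.mem_univ j),
      Function.update_self]
    congr 1
    refine Finset.prod_congr rfl fun l hl => ?_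
    rw [Function.update_of_ne (Finset.ne_of_mem_erase hl)]
  simp only [h1, h2, ← mul_assoc]
  rw [← Finset.sum_mul, ← Finset.sum_mul, ← add_mul]
  have h3 : ∑ k, Z k (u j) * β k (w j) + ∑ k, Z k (w j) * β (u j) k = 0 := by
    have h4 := congrFun (congrFun h (u j)) (w j)
    rw [Matrix.add_apply, Matrix.mul_apply, Matrix.mul_apply, Matrix.zero_apply] at h4
    simp only [Matrix.transpose_apply] at h4
    rw [← h4]
    congr 1
    exact Finset.sum_congr rfl fun k _ => mul_comm _ _
  rw [h3, zero_mul]

/-- alternating in both blocks -/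
def BiAlt (f : (Fin (n + n) → ι) → K) : Prop :=
  (∀ w, IsAlt fun u => mt f u w) ∧ ∀ u, IsAlt fun w => mt f u w

lemma As_symm : (As ι K n)ᵀ = As ι K n := by
  ext i u
  rw [Matrix.transpose_apply, As, As]
  refine Fintype.sum_equiv (Equiv.inv _) _ _ fun σ => ?_
  rw [Equiv.inv_apply, sg_inv]
  refine if_congr ?_ rfl rfl
  constructor
  · rintro rfl
    funext s
    exact (congrArg u (Equiv.apply_symm_apply σ s)).symm
  · rintro rfl
    funext s
    exact (congrArg i (Equiv.symm_apply_apply σ s)).symm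

lemma alt_of_As [CharZero K] {a : (Fin n → ι) → K}
    (h : As ι K n *ᵥ a = ((Nat.factorial n : ℕ) : K) • a) : IsAlt a := by
  have h2 : ((Nat.factorial n : ℕ) : K) ≠ 0 := by exact_mod_cast Nat.factorial_ne_zero n
  have h3 : a = (((Nat.factorial n : ℕ) : K))⁻¹ • (As ι K n *ᵥ a) := by
    rw [h, smul_smul, inv_mul_cancel₀ h2, one_smul]
  rw [h3]
  exact (altS ι K n).smul_mem _ (As_alt a)

lemma biAlt_two [CharZero K] {M : Matrix (Fin n → ι) (Fin n → ι) K}
    (h1 : As ι K n * M = ((Nat.factorial n : ℕ) : K) • M)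
    (h2 : M * As ι K n = ((Nat.factorial n : ℕ) : K) • M) : BiAlt (two M) := by
  rw [BiAlt, mt_two]
  constructor
  · intro w
    refine alt_of_As ?_
    funext u
    exact congrFun (congrFun h1 u) w
  · intro u
    refine alt_of_As ?_
    funext w
    have h3 := congrFun (congrFun h2 u) w
    have h4 : (As ι K n *ᵥ fun w => M u w) w = (M * As ι K n) u w := by
      conv_rhs => rw [← As_symm]
      rw [Matrix.mul_apply, Matrix.mulVec, dotProduct]
      exact Finset.sum_congr rfl fun x _ => mul_comm _ _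
    rw [h4, h3]
    rfl

lemma tm_smul (c : K) (B : Matrix ι ι K) : tm n (c • B) = c ^ n • tm n B := by
  ext i u
  rw [tm, Matrix.smul_apply, tm]
  simp only [Matrix.smul_apply, smul_eq_mul, Finset.prod_mul_distrib, Finset.prod_const,
    Finset.card_univ, Fintype.card_fin]

lemma tm_unit {β : Matrix ι ι K} (hβ : IsUnit β.det) :
    ∃ C : Matrix (Fin n → ι) (Fin n → ι) K, (tm n β)ᵀ * C = 1 ∧ C * (tm n β)ᵀ = 1 := by
  refine ⟨tm n (β⁻¹)ᵀ, ?_, ?_⟩
  · rw [tm_transpose, ← tm_mul, ← Matrix.transpose_mul, Matrix.mul_nonsing_inv β hβ,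
      Matrix.transpose_one, tm_one]
  · rw [tm_transpose, ← tm_mul, ← Matrix.transpose_mul, Matrix.nonsing_inv_mul β hβ,
      Matrix.transpose_one, tm_one]

/-- The form of the operator. -/
def opf (β : Matrix ι ι K) (F : Matrix (Fin n → ι) (Fin n → ι) K) : (Fin (n + n) → ι) → K :=
  two (F * (tm n β)ᵀ)

/-- Operators whose forms are killed. -/
lemma comm_of_opf {β Z : Matrix ι ι K} (hβ : IsUnit β.det) (hZ : Skew β Z)
    {F : Matrix (Fin n → ι) (Fin n → ι) K} (h : Kills Z (opf β F)) :
    F * dm n Z = dm n Z * F := by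
  rw [kills_iff] at h
  have h1 := congrArg mt h
  rw [mt_dv, opf, mt_two] at h1
  have h2 : mt (0 : (Fin (n + n) → ι) → K) = 0 := rfl
  have h3 : (tm n β)ᵀ * (dm n Z)ᵀ = -(dm n Z * (tm n β)ᵀ) := by
    rw [eq_neg_iff_add_eq_zero, add_comm]
    exact dm_tm_skew hZ
  rw [h2, Matrix.mul_assoc F, h3, Matrix.mul_neg, ← sub_eq_add_neg, ← Matrix.mul_assoc,
    ← Matrix.mul_assoc, ← Matrix.sub_mul] at h1
  obtain ⟨C, hC, -⟩ := tm_unit (n := n) hβ
  have h4 := congrArg (· * C) h1
  simp only [Matrix.mul_assoc, hC, Matrix.mul_one, Matrix.zero_mul] at h4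
  exact (sub_eq_zero.1 h4).symm

/-- Equivariant operators give eigenforms. -/
lemma ga_opf {β g : Matrix ι ι K} {χ : K} (hg : gᵀ * β * g = χ • β)
    {F : Matrix (Fin n → ι) (Fin n → ι) K} (h : F * tm n g = tm n g * F) :
    ga g (opf β F) = χ ^ n • opf β F := by
  have h1 : mt (ga g (opf β F)) = χ ^ n • mt (opf β F) := by
    rw [mt_ga, opf, mt_two, ← Matrix.mul_assoc, ← h, Matrix.mul_assoc, Matrix.mul_assoc]
    have h2 : tm n g * ((tm n β)ᵀ * (tm n g)ᵀ) = χ ^ n • (tm n β)ᵀ := by
      rw [tm_transpose, tm_transpose, ← tm_mul, ← tm_mul, ← tm_smul]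
      congr 1
      rw [← Matrix.transpose_mul, ← Matrix.transpose_smul, ← hg]
      rw [Matrix.transpose_mul, Matrix.transpose_mul, Matrix.transpose_mul,
        Matrix.transpose_transpose, Matrix.mul_assoc]
    rw [h2, Matrix.mul_smul]
  have h2 := congrArg two h1
  rw [two_mt] at h2
  rw [h2]
  funext i
  have h3 : two (χ ^ n • mt (opf β F)) i = χ ^ n * two (mt (opf β F)) i := rfl
  rw [h3, two_mt]
  rfl

lemma biAlt_opf [CharZero K] {β : Matrix ι ι K} {F : Matrix (Fin n → ι) (Fin n → ι) K}
    (h1 : As ι K n * F = ((Nat.factorial n : ℕ) : K) • F)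
    (h2 : F * As ι K n = ((Nat.factorial n : ℕ) : K) • F) : BiAlt (opf β F) := by
  refine biAlt_two ?_ ?_
  · rw [← Matrix.mul_assoc, h1, Matrix.smul_mul]
  · rw [Matrix.mul_assoc, tm_transpose, ← As_tm, ← Matrix.mul_assoc, h2, Matrix.smul_mul]

end Run7.h877.TS
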